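import Pool.Agent.PWR.Grp

set_option autoImplicit false

namespace Pool.Agent.PWR

open Subgroup

section real

variable {f : ℕ → ℝ}

theorem sum_three (hD : ∀ i, 1 ≤ i → f (i + 1) - f (i + 2) ≤ f i - f (i + 1)) (n : ℕ) :
    2 / 3 * (f 1 - f (3 * n + 1)) ≤
      ∑ i ∈ Finset.range n, (f (3 * i + 1) - f (3 * i + 3)) := by
  induction n with
  | zero => simp
  | succ n ih =>
    rw [Finset.sum_range_succ]
    have h1 := hD (3 * n + 1) (by omega)
    have h2 := hD (3 * n + 2) (by omega)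
    have e : 3 * (n + 1) + 1 = 3 * n + 4 := by ring
    rw [e]
    simp only [show 3 * n + 1 + 1 = 3 * n + 2 by ring, show 3 * n + 1 + 2 = 3 * n + 3 by ring,
      show 3 * n + 2 + 1 = 3 * n + 3 by ring, show 3 * n + 2 + 2 = 3 * n + 4 by ring] at h1 h2
    linarith

theorem sum_four (hD : ∀ i, 1 ≤ i → f (i + 1) - f (i + 2) ≤ f i - f (i + 1)) (n : ℕ) :
    ∑ i ∈ Finset.range (n + 1), (f (4 * i + 2) - f (4 * i + 4)) ≤
      1 / 2 * ((f 1 - f 2) + f 1 - f (4 * n + 4)) := by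
  induction n with
  | zero =>
    have h1 := hD 1 le_rfl
    have h2 := hD 2 (by norm_num)
    norm_num at h1 h2 ⊢
    linarith
  | succ n ih =>
    rw [Finset.sum_range_succ]
    have h1 := hD (4 * n + 4) (by omega)
    have h2 := hD (4 * n + 5) (by omega)
    have h3 := hD (4 * n + 6) (by omega)
    have e1 : 4 * (n + 1) + 2 = 4 * n + 6 := by ring
    have e2 : 4 * (n + 1) + 4 = 4 * n + 8 := by ring
    rw [e1, e2]
    simp only [show 4 * n + 4 + 1 = 4 * n + 5 by ring, show 4 * n + 4 + 2 = 4 * n + 6 by ring,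
      show 4 * n + 5 + 1 = 4 * n + 6 by ring, show 4 * n + 5 + 2 = 4 * n + 7 by ring,
      show 4 * n + 6 + 1 = 4 * n + 7 by ring, show 4 * n + 6 + 2 = 4 * n + 8 by ring] at h1 h2 h3
    linarith

end real

section card

variable {G : Type*} [Group G] [Finite G]

/-- the logarithm of the order -/
noncomputable def Lc (X : Subgroup G) : ℝ := Real.log (Nat.card X)

theorem card_pos' (X : Subgroup G) : (0 : ℝ) < (Nat.card X : ℝ) := by
  exact_mod_cast Nat.card_pos

theorem Lc_mono {X Y : Subgroup G} (h : X ≤ Y) : Lc X ≤ Lc Y := by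
  refine Real.log_le_log (card_pos' X) ?_
  exact_mod_cast Subgroup.card_le_of_le h

theorem Lc_bot : Lc (⊥ : Subgroup G) = 0 := by simp [Lc]

theorem Lc_relIndex {X Y : Subgroup G} (h : X ≤ Y) :
    Real.log (X.relIndex Y) = Lc Y - Lc X := by
  have h1 : Nat.card X * X.relIndex Y = Nat.card Y := by
    have := relIndex_mul_relIndex ⊥ X Y bot_le h
    rwa [relIndex_bot_left, relIndex_bot_left] at this
  have h2 : X.relIndex Y ≠ 0 := by
    intro h0
    rw [h0, mul_zero] at h1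
    exact Nat.card_pos.ne' h1.symm
  have h3 : (Nat.card X : ℝ) * (X.relIndex Y : ℝ) = (Nat.card Y : ℝ) := by exact_mod_cast h1
  unfold Lc
  rw [← h3, Real.log_mul (card_pos' X).ne' (by exact_mod_cast h2)]
  ring

theorem Lc_sup (X Y : Subgroup G) [X.Normal] [Y.Normal] :
    Lc (X ⊔ Y) + Lc (X ⊓ Y) = Lc X + Lc Y := by
  have h1 := Lc_relIndex (le_sup_right : Y ≤ X ⊔ Y)
  have h2 := Lc_relIndex (inf_le_left : X ⊓ Y ≤ X)
  rw [relIndex_sup_right] at h1
  rw [inf_relIndex_left] at h2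
  linarith

theorem Lc_inf {p : ℕ}
    (hR : ∀ i j, 1 ≤ i → 1 ≤ j → Nat.card ↥(pw p G i ⊓ om p G j) * Nat.card (pw p G (i + j)) =
      Nat.card (pw p G i)) (i j : ℕ) (hi : 1 ≤ i) :
    Lc (pw p G i ⊓ om p G j) = Lc (pw p G i) - Lc (pw p G (i + j)) := by
  rcases Nat.eq_zero_or_pos j with rfl | hj
  · simp [om_zero, Lc_bot]
  · have h1 := hR i j hi hj
    have h3 : (Nat.card ↥(pw p G i ⊓ om p G j) : ℝ) * (Nat.card (pw p G (i + j)) : ℝ) =
        (Nat.card (pw p G i) : ℝ) := by exact_mod_cast h1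
    unfold Lc
    rw [← h3, Real.log_mul (card_pos' _).ne' (card_pos' _).ne']
    ring

theorem Lc_dec {p : ℕ}
    (hR : ∀ i j, 1 ≤ i → 1 ≤ j → Nat.card ↥(pw p G i ⊓ om p G j) * Nat.card (pw p G (i + j)) =
      Nat.card (pw p G i)) (i : ℕ) (hi : 1 ≤ i) :
    Lc (pw p G (i + 1)) - Lc (pw p G (i + 2)) ≤ Lc (pw p G i) - Lc (pw p G (i + 1)) := by
  rw [← Lc_inf hR i 1 hi, ← Lc_inf hR (i + 1) 1 (by omega)]
  exact Lc_mono (inf_le_inf (pw_succ_le p i) le_rfl)

theorem Lc_Hh {p : ℕ}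
    (hR : ∀ i j, 1 ≤ i → 1 ≤ j → Nat.card ↥(pw p G i ⊓ om p G j) * Nat.card (pw p G (i + j)) =
      Nat.card (pw p G i)) (n : ℕ) :
    ∑ i ∈ Finset.range n, (Lc (pw p G (3 * i + 1)) - Lc (pw p G (3 * i + 3))) ≤
      Lc (Hh p G n) := by
  induction n with
  | zero => simp [Hh, Lc_bot]
  | succ n ih =>
    rw [Finset.sum_range_succ]
    have h1 := Lc_sup (Hh p G n) (Aa p G (n + 1))
    have h2 : Lc (Aa p G (n + 1)) = Lc (pw p G (n + 1)) - Lc (pw p G (3 * n + 3)) := by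
      rw [Aa, Lc_inf hR _ _ (by omega)]
      congr 3
      ring
    have h3 : Lc (Hh p G n ⊓ Aa p G (n + 1)) ≤
        Lc (pw p G (n + 1)) - Lc (pw p G (3 * n + 1)) := by
      have e : n + 1 + 2 * n = 3 * n + 1 := by ring
      rw [← e, ← Lc_inf hR (n + 1) (2 * n) (by omega)]
      refine Lc_mono (le_inf ?_ ?_)
      · exact inf_le_right.trans inf_le_left
      · exact inf_le_left.trans (Hh_le_om p n)
    have h4 : Hh p G (n + 1) = Hh p G n ⊔ Aa p G (n + 1) := rfl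
    rw [h4]
    linarith

theorem Lc_Kk {p : ℕ}
    (hR : ∀ i j, 1 ≤ i → 1 ≤ j → Nat.card ↥(pw p G i ⊓ om p G j) * Nat.card (pw p G (i + j)) =
      Nat.card (pw p G i)) (n : ℕ) :
    Lc (Kk p G n) ≤
      ∑ i ∈ Finset.range n, (Lc (pw p G (4 * i + 2)) - Lc (pw p G (4 * i + 4))) := by
  induction n with
  | zero => simp [Kk, Lc_bot]
  | succ n ih =>
    rw [Finset.sum_range_succ]
    have h1 := Lc_sup (Kk p G n) (Bb p G (n + 1))
    have h2 : Lc (Bb p G (n + 1)) = Lc (pw p G (2 * (n + 1))) - Lc (pw p G (4 * n + 4)) := by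
      rw [Bb, Lc_inf hR _ _ (by omega)]
      congr 3
      ring
    have h3 : Lc (pw p G (2 * (n + 1))) - Lc (pw p G (4 * n + 2)) ≤
        Lc (Kk p G n ⊓ Bb p G (n + 1)) := by
      have e : 2 * (n + 1) + 2 * n = 4 * n + 2 := by ring
      rw [← e, ← Lc_inf hR (2 * (n + 1)) (2 * n) (by omega)]
      refine Lc_mono (le_inf ?_ ?_)
      · rcases Nat.eq_zero_or_pos n with rfl | hn
        · simp [om_zero]
        · refine le_trans ?_ (Bb_le_Kk p hn le_rfl)
          exact inf_le_inf (pw_anti p (by omega)) le_rfl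
      · exact inf_le_inf le_rfl (om_mono p (by omega))
    have h4 : Kk p G (n + 1) = Kk p G n ⊔ Bb p G (n + 1) := rfl
    rw [h4]
    linarith

/-- the lower bound for the order of the section -/
theorem Lc_section {p : ℕ}
    (hR : ∀ i j, 1 ≤ i → 1 ≤ j → Nat.card ↥(pw p G i ⊓ om p G j) * Nat.card (pw p G (i + j)) =
      Nat.card (pw p G i)) {m : ℕ} (hm : pw p G m = ⊥) :
    1 / 6 * Lc (pw p G 1) - 1 / 2 * (Lc (pw p G 1) - Lc (pw p G 2)) ≤
      Lc (Hh p G (m + 1)) - Lc (Kk p G (m + 1)) := by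
  have h1 := Lc_Hh hR (m + 1)
  have h2 := Lc_Kk hR (m + 1)
  have h3 := sum_three (f := fun i => Lc (pw p G i)) (fun i hi => Lc_dec hR i hi) (m + 1)
  have h4 := sum_four (f := fun i => Lc (pw p G i)) (fun i hi => Lc_dec hR i hi) m
  have z : ∀ k, m ≤ k → Lc (pw p G k) = 0 := by
    intro k hk
    have : pw p G k = ⊥ := le_bot_iff.1 (hm ▸ pw_anti p hk)
    rw [this, Lc_bot]
  have z1 := z (3 * (m + 1) + 1) (by omega)
  have z2 := z (4 * m + 4) (by omega)

  rw [z1] at h3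
  rw [z2] at h4
  linarith

end card

end Pool.Agent.PWR
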