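import Pool.Agent.PWR.Main

set_option autoImplicit false

namespace Pool.Agent.PWR

open Subgroup

universe u

/-- a section of a quotient is a section -/
theorem HasAbSection.of_quotient {G : Type u} [Group G] (N : Subgroup G) [N.Normal] {P : ℕ → Prop}
    (h : HasAbSection (G ⧸ N) P) : HasAbSection G P := by
  obtain ⟨K, H, h1, h2, h3, h4⟩ := h
  have hs : Function.Surjective (QuotientGroup.mk' N) := QuotientGroup.mk'_surjective N
  refine ⟨K.comap (QuotientGroup.mk' N), H.comap (QuotientGroup.mk' N), comap_mono h1, ?_, ?_, ?_⟩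
  · refine ⟨fun n hn g => ?_⟩
    have h5 := h2.conj_mem ⟨QuotientGroup.mk' N n, n.2⟩ hn ⟨QuotientGroup.mk' N g, g.2⟩
    simpa [mem_subgroupOf] using h5
  · intro a ha b hb
    have h5 := h3 _ ha _ hb
    show QuotientGroup.mk' N (a * b * a⁻¹ * b⁻¹) ∈ K
    simpa using h5
  · rw [relIndex_comap, map_comap_eq_self_of_surjective hs]
    exact h4

theorem HasAbSection.mono {G : Type u} [Group G] {P Q : ℕ → Prop} (h : HasAbSection G P)
    (hPQ : ∀ n, P n → Q n) : HasAbSection G Q := by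
  obtain ⟨K, H, h1, h2, h3, h4⟩ := h
  exact ⟨K, H, h1, h2, h3, hPQ _ h4⟩

section

variable {G : Type u} [Group G] [Finite G] {p : ℕ}

theorem exists_pw_bot (hp : p.Prime) (hG : IsPGroup p G) : ∃ m, pw p G m = ⊥ := by
  have := Fact.mk hp
  obtain ⟨n, hn⟩ := IsPGroup.iff_card.1 hG
  exact ⟨n, pw_bot_of_card hn⟩

theorem final_one (hp : p.Prime) (hG : IsPGroup p G) (hR : PowerRegular p G) :
    HasAbSection G fun n => Nat.card (pw p G 1) ≤ n ^ 9 := by
  obtain ⟨m, hm⟩ := exists_pw_bot hp hG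
  exact main_one hR.comm hR.card hm

theorem final_two (hp : p.Prime) (hG : IsPGroup p G) (hR : PowerRegular p G) (c : ℝ) (hc : 0 ≤ c)
    (hA : HasAbSection (G ⧸ pw p G 1) fun n => (Nat.card (G ⧸ pw p G 1) : ℝ) ≤ (n : ℝ) ^ c) :
    HasAbSection G fun n => (Nat.card G : ℝ) ≤ (n : ℝ) ^ (c + 9) := by
  obtain ⟨m, hm⟩ := exists_pw_bot hp hG
  exact main_two hR.comm hR.card hm c hc (HasAbSection.of_quotient (pw p G 1) hA)

theorem final_three (hp : p.Prime) (hG : IsPGroup p G) (hR : PowerRegular p G)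
    (hP : commutator G ≤ pw p G 1) :
    HasAbSection G fun n => Nat.card G ≤ n ^ 10 ∧ (Nontrivial G → Nat.card G < n ^ 11) := by
  obtain ⟨m, hm⟩ := exists_pw_bot hp hG
  exact main_three hR.comm hR.card hm hP

end

/-- (4): reduction to prime exponent -/
theorem final_four (C : ∀ (G : Type u) [Group G], Prop)
    (hC : ∀ (G : Type u) [Group G], C G → Finite G ∧
      ∃ p : ℕ, p.Prime ∧ IsPGroup p G ∧ PowerRegular p G ∧ C (G ⧸ pw p G 1)) :
    (∃ c : ℝ, ∀ (G : Type u) [Group G], C G → Nontrivial G →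
      HasAbSection G fun n => (Nat.card G : ℝ) < (n : ℝ) ^ c) ↔
    (∃ c : ℝ, ∀ (G : Type u) [Group G], C G → Nontrivial G →
      (∃ p : ℕ, p.Prime ∧ ∀ x : G, x ^ p = 1) →
      HasAbSection G fun n => (Nat.card G : ℝ) < (n : ℝ) ^ c) := by
  constructor
  · rintro ⟨c, h⟩
    exact ⟨c, fun G _ hG hn _ => h G hG hn⟩
  · rintro ⟨c, h⟩
    refine ⟨max c 0 + 10, fun G _ hG hn => ?_⟩
    obtain ⟨hf, p, hp, hpG, hR, hQ⟩ := hC G hG
    have hq : HasAbSection (G ⧸ pw p G 1)
        fun n => (Nat.card (G ⧸ pw p G 1) : ℝ) ≤ (n : ℝ) ^ (max c 0) := by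
      rcases subsingleton_or_nontrivial (G ⧸ pw p G 1) with hs | hs
      · refine ⟨⊥, ⊥, le_rfl, inferInstance, ?_, ?_⟩
        · intro a _ b _
          rw [Subsingleton.elim (a * b * a⁻¹ * b⁻¹) 1]
          exact one_mem _
        · simp
      · have hx : ∃ q : ℕ, q.Prime ∧ ∀ x : G ⧸ pw p G 1, x ^ q = 1 := by
          refine ⟨p, hp, fun x => ?_⟩
          obtain ⟨y, rfl⟩ := QuotientGroup.mk_surjective x
          rw [← QuotientGroup.mk_pow, QuotientGroup.eq_one_iff]
          exact subset_closure ⟨y, by simp⟩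
        have h1 := h (G ⧸ pw p G 1) hQ hs hx
        obtain ⟨K, H, a1, a2, a3, a4⟩ := h1
        refine ⟨K, H, a1, a2, a3, a4.le.trans ?_⟩
        refine Real.rpow_le_rpow_of_exponent_le ?_ (le_max_left _ _)
        exact_mod_cast rel_pos K H
    have h2 := final_two hp hpG hR (max c 0) (le_max_right _ _) hq
    obtain ⟨K, H, a1, a2, a3, a4⟩ := h2
    refine ⟨K, H, a1, a2, a3, a4.trans_lt ?_⟩
    have h6 : (1 : ℝ) < (Nat.card G : ℝ) := by exact_mod_cast (Finite.one_lt_card : 1 < Nat.card G)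
    have h7 : (1 : ℝ) < (K.relIndex H : ℝ) := by
      by_contra hcon
      have h8 : K.relIndex H = 1 := by
        have : K.relIndex H ≤ 1 := by
          have := not_lt.1 hcon
          exact_mod_cast this
        exact le_antisymm this (rel_pos K H)
      rw [h8] at a4
      simp at a4
      have : (Nat.card G : ℝ) ≤ 1 := by exact_mod_cast a4
      linarith
    exact Real.rpow_lt_rpow_of_exponent_lt h7 (by linarith)

end Pool.Agent.PWR
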