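import Mathlib

/-!
Power subgroups and omega subgroups: definitions.
-/

set_option autoImplicit false

namespace Pool.Agent.PWR

open scoped commutatorElement

/-- The subgroup generated by the `p ^ i`-th powers. -/
def pw (p : ℕ) (G : Type*) [Group G] (i : ℕ) : Subgroup G :=
  Subgroup.closure {x | ∃ y : G, y ^ p ^ i = x}

/-- The subgroup generated by the elements `x` with `x ^ (p ^ j) = 1`. -/
def om (p : ℕ) (G : Type*) [Group G] (j : ℕ) : Subgroup G :=
  Subgroup.closure {x | x ^ p ^ j = 1}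

theorem normal_closure_conj {G : Type*} [Group G] (s : Set G)
    (h : ∀ x ∈ s, ∀ g : G, g * x * g⁻¹ ∈ s) : (Subgroup.closure s).Normal := by
  refine ⟨fun n hn g => ?_⟩
  induction hn using Subgroup.closure_induction with
  | mem x hx => exact Subgroup.subset_closure (h x hx g)
  | one => simp
  | mul x y _ _ hx hy =>
    have h1 : g * (x * y) * g⁻¹ = (g * x * g⁻¹) * (g * y * g⁻¹) := by group
    rw [h1]
    exact mul_mem hx hy
  | inv x _ hx =>
    have h1 : g * x⁻¹ * g⁻¹ = (g * x * g⁻¹)⁻¹ := by group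
    rw [h1]
    exact inv_mem hx

instance pw_normal {G : Type*} [Group G] (p i : ℕ) : (pw p G i).Normal := by
  refine normal_closure_conj _ ?_
  rintro x ⟨y, rfl⟩ g
  exact ⟨g * y * g⁻¹, by rw [conj_pow]⟩

/-- `G` is power regular: for `i, j ≥ 1`, with `P_i` generated by the `p ^ i`-th powers and `Ω_j`
generated by the elements of order dividing `p ^ j`, the commutator subgroup of `P_i` and `P_j` lies
in `P_(i+j)`, and the order of `P_i ∩ Ω_j` is the index of `P_(i+j)` in `P_i`. -/
structure PowerRegular (p : ℕ) (G : Type*) [Group G] : Prop where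
  comm : ∀ i j, 1 ≤ i → 1 ≤ j → ⁅pw p G i, pw p G j⁆ ≤ pw p G (i + j)
  card : ∀ i j, 1 ≤ i → 1 ≤ j →
    Nat.card ↥(pw p G i ⊓ om p G j) * Nat.card (pw p G (i + j)) = Nat.card (pw p G i)

/-- `G` has an abelian section `H / K` whose order has the property `P`. -/
def HasAbSection (G : Type*) [Group G] (P : ℕ → Prop) : Prop :=
  ∃ K H : Subgroup G, K ≤ H ∧ (K.subgroupOf H).Normal ∧
    (∀ a ∈ H, ∀ b ∈ H, a * b * a⁻¹ * b⁻¹ ∈ K) ∧ P (K.relIndex H)

end Pool.Agent.PWR
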