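import Pool.Agent.PWR.Defs

set_option autoImplicit false

namespace Pool.Agent.PWR

open Subgroup
open scoped commutatorElement

section basic

variable {G : Type*} [Group G]

instance om_normal (p j : ℕ) : (om p G j).Normal := by
  refine normal_closure_conj _ ?_
  intro x hx g
  show (g * x * g⁻¹) ^ p ^ j = 1
  rw [conj_pow, show x ^ p ^ j = 1 from hx]
  simp

theorem pw_succ_le (p i : ℕ) : pw p G (i + 1) ≤ pw p G i := by
  refine (closure_le _).2 ?_
  rintro x ⟨y, rfl⟩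
  refine subset_closure ⟨y ^ p, ?_⟩
  rw [← pow_mul, ← pow_succ']

theorem pw_anti (p : ℕ) : Antitone (pw p G) := antitone_nat_of_succ_le (pw_succ_le p)

theorem om_le_succ (p j : ℕ) : om p G j ≤ om p G (j + 1) := by
  refine (closure_le _).2 ?_
  intro x hx
  refine subset_closure ?_
  show x ^ p ^ (j + 1) = 1
  rw [pow_succ, pow_mul, show x ^ p ^ j = 1 from hx, one_pow]

theorem om_mono (p : ℕ) : Monotone (om p G) := monotone_nat_of_le_succ (om_le_succ p)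

theorem om_zero (p : ℕ) : om p G 0 = ⊥ := by
  rw [om, closure_eq_bot_iff]
  intro x hx
  simpa using hx

theorem pw_zero (p : ℕ) : pw p G 0 = ⊤ := by
  rw [eq_top_iff]
  intro x _
  exact subset_closure ⟨x, by simp⟩

theorem pw_bot_of_card {p n : ℕ} (hn : Nat.card G = p ^ n) : pw p G n = ⊥ := by
  rw [pw, closure_eq_bot_iff]
  rintro x ⟨y, rfl⟩
  rw [← hn]
  simp

/-! ### products of the subgroups -/

/-- the subgroup `A_t` -/
def Aa (p : ℕ) (G : Type*) [Group G] (t : ℕ) : Subgroup G := pw p G t ⊓ om p G (2 * t)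

/-- the subgroup `B_t` -/
def Bb (p : ℕ) (G : Type*) [Group G] (t : ℕ) : Subgroup G := pw p G (2 * t) ⊓ om p G (2 * t)

/-- the product of the `A_t`, `1 ≤ t ≤ n` -/
def Hh (p : ℕ) (G : Type*) [Group G] : ℕ → Subgroup G
  | 0 => ⊥
  | n + 1 => Hh p G n ⊔ Aa p G (n + 1)

/-- the product of the `B_t`, `1 ≤ t ≤ n` -/
def Kk (p : ℕ) (G : Type*) [Group G] : ℕ → Subgroup G
  | 0 => ⊥
  | n + 1 => Kk p G n ⊔ Bb p G (n + 1)

instance Aa_normal (p t : ℕ) : (Aa p G t).Normal := by unfold Aa; infer_instance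

instance Bb_normal (p t : ℕ) : (Bb p G t).Normal := by unfold Bb; infer_instance

instance Hh_normal (p : ℕ) : ∀ n, (Hh p G n).Normal
  | 0 => by unfold Hh; infer_instance
  | n + 1 => by
    have := Hh_normal p n
    unfold Hh
    infer_instance

instance Kk_normal (p : ℕ) : ∀ n, (Kk p G n).Normal
  | 0 => by unfold Kk; infer_instance
  | n + 1 => by
    have := Kk_normal p n
    unfold Kk
    infer_instance

theorem Bb_le_Kk (p : ℕ) {t n : ℕ} (h1 : 1 ≤ t) (h2 : t ≤ n) : Bb p G t ≤ Kk p G n := by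
  induction n with
  | zero => omega
  | succ n ih =>
    rcases Nat.lt_or_ge t (n + 1) with h | h
    · exact (ih (by omega)).trans le_sup_left
    · have : t = n + 1 := by omega
      subst this
      exact le_sup_right

theorem Kk_le_Hh (p : ℕ) (n : ℕ) : Kk p G n ≤ Hh p G n := by
  induction n with
  | zero => exact le_rfl
  | succ n ih =>
    refine sup_le_sup ih (inf_le_inf ?_ le_rfl)
    exact pw_anti p (by omega)

theorem Hh_le_om (p : ℕ) (n : ℕ) : Hh p G n ≤ om p G (2 * n) := by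
  induction n with
  | zero => exact bot_le
  | succ n ih =>
    refine sup_le (ih.trans (om_mono p (by omega))) ?_
    exact inf_le_right

/-- elements of `X` and `Y` commute modulo `K` -/
theorem comm_sup {K X₁ X₂ Y : Subgroup G} [K.Normal] (h1 : ∀ x ∈ X₁, ∀ y ∈ Y, ⁅x, y⁆ ∈ K)
    (h2 : ∀ x ∈ X₂, ∀ y ∈ Y, ⁅x, y⁆ ∈ K) : ∀ x ∈ X₁ ⊔ X₂, ∀ y ∈ Y, ⁅x, y⁆ ∈ K := by
  have key : ∀ x y : G, ⁅x, y⁆ ∈ K ↔
      QuotientGroup.mk' K x * QuotientGroup.mk' K y = QuotientGroup.mk' K y * QuotientGroup.mk' K x := by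
    intro x y
    rw [← QuotientGroup.eq_one_iff, ← map_mul, ← map_mul]
    have e : ((⁅x, y⁆ : G) : G ⧸ K) = QuotientGroup.mk' K ⁅x, y⁆ := rfl
    rw [e, map_commutatorElement, commutatorElement_eq_one_iff_mul_comm, map_mul, map_mul]
  have hX : X₁ ⊔ X₂ ≤ (centralizer (Subgroup.map (QuotientGroup.mk' K) Y : Set (G ⧸ K))).comap
      (QuotientGroup.mk' K) := by
    refine sup_le ?_ ?_
    · intro x hx
      rw [mem_comap, mem_centralizer_iff]
      rintro _ ⟨y, hy, rfl⟩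
      exact ((key x y).1 (h1 x hx y hy)).symm
    · intro x hx
      rw [mem_comap, mem_centralizer_iff]
      rintro _ ⟨y, hy, rfl⟩
      exact ((key x y).1 (h2 x hx y hy)).symm
  intro x hx y hy
  have := hX hx
  rw [mem_comap, mem_centralizer_iff] at this
  exact (key x y).2 (this _ ⟨y, hy, rfl⟩).symm

theorem comm_symm {K X Y : Subgroup G} (h : ∀ x ∈ X, ∀ y ∈ Y, ⁅x, y⁆ ∈ K) :
    ∀ y ∈ Y, ∀ x ∈ X, ⁅y, x⁆ ∈ K := by
  intro y hy x hx
  rw [← commutatorElement_inv]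
  exact inv_mem (h x hx y hy)

/-- (R1) gives that the `A_t` commute modulo the product of the `B_t` -/
theorem comm_Aa {p : ℕ} (hR : ∀ i j, 1 ≤ i → 1 ≤ j → ⁅pw p G i, pw p G j⁆ ≤ pw p G (i + j))
    {s t n : ℕ} (hs : 1 ≤ s) (hst : s ≤ t) (hn : t ≤ n) :
    ∀ x ∈ Aa p G s, ∀ y ∈ Aa p G t, ⁅x, y⁆ ∈ Kk p G n := by
  intro x hx y hy
  refine Bb_le_Kk p hs (hst.trans hn) ⟨?_, ?_⟩
  · have h1 : ⁅x, y⁆ ∈ pw p G (s + t) :=
      hR s t hs (hs.trans hst) (commutator_mem_commutator hx.1 hy.1)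
    exact pw_anti p (by omega) h1
  · have h2 : ⁅x, y⁆ = x * (y * x⁻¹ * y⁻¹) := by
      rw [commutatorElement_def]; group
    rw [h2]
    exact mul_mem hx.2 ((om_normal p (2 * s)).conj_mem _ (inv_mem hx.2) y)

theorem comm_Aa' {p : ℕ} (hR : ∀ i j, 1 ≤ i → 1 ≤ j → ⁅pw p G i, pw p G j⁆ ≤ pw p G (i + j))
    {s t n : ℕ} (hs : 1 ≤ s) (ht : 1 ≤ t) (hn : t ≤ n) (hn' : s ≤ n) :
    ∀ x ∈ Aa p G s, ∀ y ∈ Aa p G t, ⁅x, y⁆ ∈ Kk p G n := by
  rcases le_total s t with h | h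
  · exact comm_Aa hR hs h hn
  · exact comm_symm (comm_Aa hR ht h hn')

theorem comm_Hh_Aa {p : ℕ}
    (hR : ∀ i j, 1 ≤ i → 1 ≤ j → ⁅pw p G i, pw p G j⁆ ≤ pw p G (i + j))
    {m t n : ℕ} (hm : m ≤ n) (ht : 1 ≤ t) (hn : t ≤ n) :
    ∀ x ∈ Hh p G m, ∀ y ∈ Aa p G t, ⁅x, y⁆ ∈ Kk p G n := by
  induction m with
  | zero =>
    intro x hx y hy
    have : x = 1 := hx
    subst this
    simp
  | succ m ih => exact comm_sup (ih (by omega)) (comm_Aa' hR (by omega) ht hn (by omega))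

theorem comm_Hh {p : ℕ} (hR : ∀ i j, 1 ≤ i → 1 ≤ j → ⁅pw p G i, pw p G j⁆ ≤ pw p G (i + j))
    {m k n : ℕ} (hm : m ≤ n) (hk : k ≤ n) :
    ∀ x ∈ Hh p G m, ∀ y ∈ Hh p G k, ⁅x, y⁆ ∈ Kk p G n := by
  induction m with
  | zero =>
    intro x hx y hy
    have : x = 1 := hx
    subst this
    simp
  | succ m ih =>
    exact comm_sup (ih (by omega))
      (comm_symm (comm_Hh_Aa hR hk (by omega) (by omega)))

end basic

end Pool.Agent.PWR
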