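import Pool.Agent.PWR.Card

set_option autoImplicit false

namespace Pool.Agent.PWR

open Subgroup
open scoped commutatorElement

section main

variable {G : Type*} [Group G] [Finite G]

theorem rel_pos (X Y : Subgroup G) : 0 < X.relIndex Y :=
  Nat.pos_of_ne_zero (index_ne_zero_of_finite (H := X.subgroupOf Y))

theorem nat_le_pow_of_log {a b n : ℕ} (hb : 0 < b) (ha : 0 < a)
    (h : Real.log a ≤ n * Real.log b) : a ≤ b ^ n := by
  have ha' : (0 : ℝ) < a := by exact_mod_cast ha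
  have hb' : (0 : ℝ) < b := by exact_mod_cast hb
  rw [← Real.log_pow] at h
  have := (Real.log_le_log_iff ha' (pow_pos hb' n)).1 h
  exact_mod_cast this

/-- (1) in the logarithmic form -/
theorem section_log {p : ℕ}
    (hR1 : ∀ i j, 1 ≤ i → 1 ≤ j → ⁅pw p G i, pw p G j⁆ ≤ pw p G (i + j))
    (hR2 : ∀ i j, 1 ≤ i → 1 ≤ j → Nat.card ↥(pw p G i ⊓ om p G j) * Nat.card (pw p G (i + j)) =
      Nat.card (pw p G i)) {m : ℕ} (hm : pw p G m = ⊥) :
    HasAbSection G fun n => Lc (pw p G 1) ≤ 9 * Real.log n := by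
  have h0 := Lc_section hR2 hm
  by_cases hc : Lc (pw p G 1) ≤ 9 * (Lc (pw p G 1) - Lc (pw p G 2))
  · refine ⟨pw p G 2, pw p G 1, pw_anti p (by norm_num), inferInstance, ?_, ?_⟩
    · intro a ha b hb
      exact hR1 1 1 le_rfl le_rfl (commutator_mem_commutator ha hb)
    · have e := Lc_relIndex (pw_anti (G := G) p (show 1 ≤ 2 by norm_num))
      show Lc (pw p G 1) ≤ 9 * Real.log _
      rw [e]
      exact hc
  · refine ⟨Kk p G (m + 1), Hh p G (m + 1), Kk_le_Hh p _, inferInstance, ?_, ?_⟩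
    · intro a ha b hb
      exact comm_Hh hR1 le_rfl le_rfl a ha b hb
    · have e := Lc_relIndex (Kk_le_Hh (G := G) p (m + 1))
      show Lc (pw p G 1) ≤ 9 * Real.log _
      rw [e]
      push Not at hc
      linarith

/-- (1) -/
theorem main_one {p : ℕ}
    (hR1 : ∀ i j, 1 ≤ i → 1 ≤ j → ⁅pw p G i, pw p G j⁆ ≤ pw p G (i + j))
    (hR2 : ∀ i j, 1 ≤ i → 1 ≤ j → Nat.card ↥(pw p G i ⊓ om p G j) * Nat.card (pw p G (i + j)) =
      Nat.card (pw p G i)) {m : ℕ} (hm : pw p G m = ⊥) :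
    HasAbSection G fun n => Nat.card (pw p G 1) ≤ n ^ 9 := by
  obtain ⟨K, H, h1, h2, h3, h4⟩ := section_log hR1 hR2 hm
  exact ⟨K, H, h1, h2, h3, nat_le_pow_of_log (n := 9) (rel_pos K H) Nat.card_pos
    (by exact_mod_cast h4)⟩

/-- (2) -/
theorem main_two {p : ℕ}
    (hR1 : ∀ i j, 1 ≤ i → 1 ≤ j → ⁅pw p G i, pw p G j⁆ ≤ pw p G (i + j))
    (hR2 : ∀ i j, 1 ≤ i → 1 ≤ j → Nat.card ↥(pw p G i ⊓ om p G j) * Nat.card (pw p G (i + j)) =
      Nat.card (pw p G i)) {m : ℕ} (hm : pw p G m = ⊥) (c : ℝ) (hc : 0 ≤ c)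
    (hA : HasAbSection G fun n => ((pw p G 1).index : ℝ) ≤ (n : ℝ) ^ c) :
    HasAbSection G fun n => (Nat.card G : ℝ) ≤ (n : ℝ) ^ (c + 9) := by
  obtain ⟨K, H, h1, h2, h3, h4⟩ := section_log hR1 hR2 hm
  obtain ⟨K', H', h1', h2', h3', h4'⟩ := hA
  have hcard : (Nat.card G : ℝ) = (Nat.card (pw p G 1) : ℝ) * ((pw p G 1).index : ℝ) := by
    have := (pw p G 1).card_mul_index
    exact_mod_cast this.symm
  have hG : (0 : ℝ) < (Nat.card G : ℝ) := by exact_mod_cast Nat.card_pos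
  have hI : (0 : ℝ) < ((pw p G 1).index : ℝ) := by
    have : (pw p G 1).index ≠ 0 := index_ne_zero_of_finite
    exact_mod_cast Nat.pos_of_ne_zero this
  have hr : (0 : ℝ) < (K.relIndex H : ℝ) := by exact_mod_cast rel_pos K H
  have hr' : (0 : ℝ) < (K'.relIndex H' : ℝ) := by exact_mod_cast rel_pos K' H'
  have e1 : Real.log (Nat.card G) = Lc (pw p G 1) + Real.log (pw p G 1).index := by
    rw [hcard, Real.log_mul (card_pos' _).ne' hI.ne']
    rfl
  have e2 : Real.log (pw p G 1).index ≤ c * Real.log (K'.relIndex H') := by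
    have := Real.log_le_log hI h4'
    rwa [Real.log_rpow hr'] at this
  have fin : ∀ (r : ℝ), 0 < r → Real.log (Nat.card G) ≤ (c + 9) * Real.log r →
      (Nat.card G : ℝ) ≤ r ^ (c + 9) := by
    intro r hr h
    rw [← Real.log_rpow hr] at h
    exact (Real.log_le_log_iff hG (Real.rpow_pos_of_pos hr _)).1 h
  rcases le_total (Real.log (K.relIndex H)) (Real.log (K'.relIndex H')) with h | h
  · refine ⟨K', H', h1', h2', h3', fin _ hr' ?_⟩
    rw [e1]
    linarith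
  · refine ⟨K, H, h1, h2, h3, fin _ hr ?_⟩
    rw [e1]
    have : c * Real.log (K'.relIndex H') ≤ c * Real.log (K.relIndex H) :=
      mul_le_mul_of_nonneg_left h hc
    linarith

/-- (3) -/
theorem main_three {p : ℕ}
    (hR1 : ∀ i j, 1 ≤ i → 1 ≤ j → ⁅pw p G i, pw p G j⁆ ≤ pw p G (i + j))
    (hR2 : ∀ i j, 1 ≤ i → 1 ≤ j → Nat.card ↥(pw p G i ⊓ om p G j) * Nat.card (pw p G (i + j)) =
      Nat.card (pw p G i)) {m : ℕ} (hm : pw p G m = ⊥) (hP : commutator G ≤ pw p G 1) :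
    HasAbSection G fun n => Nat.card G ≤ n ^ 10 ∧ (Nontrivial G → Nat.card G < n ^ 11) := by
  have hA : HasAbSection G fun n => ((pw p G 1).index : ℝ) ≤ (n : ℝ) ^ (1 : ℝ) := by
    refine ⟨pw p G 1, ⊤, le_top, inferInstance, ?_, ?_⟩
    · intro a _ b _
      exact hP (commutator_mem_commutator (mem_top a) (mem_top b))
    · show ((pw p G 1).index : ℝ) ≤ (((pw p G 1).relIndex ⊤ : ℕ) : ℝ) ^ (1 : ℝ)
      rw [relIndex_top_right, Real.rpow_one]
  obtain ⟨K, H, h1, h2, h3, h4⟩ := main_two hR1 hR2 hm 1 zero_le_one hA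
  have h5 : Nat.card G ≤ (K.relIndex H) ^ 10 := by
    have e : (1 : ℝ) + 9 = ((10 : ℕ) : ℝ) := by norm_num
    rw [e, Real.rpow_natCast] at h4
    exact_mod_cast h4
  refine ⟨K, H, h1, h2, h3, h5, fun hn => ?_⟩
  have h6 : 1 < Nat.card G := Finite.one_lt_card
  have h7 : 1 < K.relIndex H := by
    by_contra h
    have : K.relIndex H = 1 := le_antisymm (not_lt.1 h) (rel_pos K H)
    rw [this, one_pow] at h5
    omega
  exact h5.trans_lt (Nat.pow_lt_pow_right h7 (by norm_num))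

end main

end Pool.Agent.PWR
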