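import Pool.Agent.PWR.PB

/-!
Powers of subgroups that centralise modulo the `p`-th powers.
-/

set_option autoImplicit false

namespace Pool.Agent.PWR

open Subgroup
open scoped commutatorElement

universe u

theorem PA_le_iff {G : Type u} [Group G] (T : Subgroup G) [T.Normal] (X : Subgroup G) :
    ⁅X, (⊤ : Subgroup G)⁆ ≤ T ↔ X ≤ (center (G ⧸ T)).comap (QuotientGroup.mk' T) := by
  rw [Subgroup.commutator_le]
  constructor
  · intro h x hx
    rw [Subgroup.mem_comap, Subgroup.mem_center_iff]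
    intro y
    obtain ⟨g, rfl⟩ := QuotientGroup.mk'_surjective T y
    rw [← map_mul, ← map_mul]
    have h1 := h x⁻¹ (inv_mem hx) g⁻¹ trivial
    have h2 : ⁅x⁻¹, g⁻¹⁆ = (g * x)⁻¹ * (x * g) := by
      rw [commutatorElement_def]
      group
    rw [h2] at h1
    exact QuotientGroup.eq.2 h1
  · intro h x hx g _
    have h1 := h hx
    rw [Subgroup.mem_comap, Subgroup.mem_center_iff] at h1
    rw [← QuotientGroup.eq_one_iff]
    change QuotientGroup.mk' T ⁅x, g⁆ = 1
    rw [map_commutatorElement, commutatorElement_eq_one_iff_mul_comm]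
    exact (h1 _).symm

theorem PA_pths_normal {G : Type u} [Group G] (p : ℕ) (N : Subgroup G) [hN : N.Normal] :
    (pths p N).Normal := by
  refine normal_closure_conj _ ?_
  rintro x ⟨y, hy, rfl⟩ g
  exact ⟨g * y * g⁻¹, hN.conj_mem y hy g, by rw [conj_pow]⟩

/-- a normal subgroup `K` of a nilpotent group with `K ≤ Q [K, G]` lies in `Q` -/
theorem PA_nil {G : Type u} [Group G] [Group.IsNilpotent G] (K Q : Subgroup G) [Q.Normal]
    (h : K ≤ Q ⊔ ⁅K, (⊤ : Subgroup G)⁆) : K ≤ Q := by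
  have h1 : ∀ n, K ≤ Q ⊔ (⊤ : Subgroup G).lowerCentralSeries n := by
    intro n
    induction n with
    | zero =>
      intro x _
      exact Subgroup.mem_sup_right (by simp)
    | succ n ih =>
      refine h.trans (sup_le le_sup_left ?_)
      refine (Subgroup.commutator_mono ih le_rfl).trans ?_
      rw [PA_le_iff (Q ⊔ (⊤ : Subgroup G).lowerCentralSeries (n + 1))]
      refine sup_le ?_ ?_
      · rw [← PA_le_iff]
        exact (Subgroup.commutator_le_left Q ⊤).trans le_sup_left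
      · rw [← PA_le_iff]
        exact le_sup_right
  obtain ⟨n, hn⟩ := Subgroup.nilpotent_iff_lowerCentralSeries.1 ‹Group.IsNilpotent G›
  have := h1 n
  rwa [hn, sup_bot_eq] at this

/-- PA -/
theorem pe_step {G : Type u} [Group G] [Finite G] {p : ℕ} (hp : p.Prime) (hp2 : Odd p)
    (hG : IsPGroup p G) (N : Subgroup G) [N.Normal] (hN : ⁅N, (⊤ : Subgroup G)⁆ ≤ pths p N) :
    ⁅pths p N, (⊤ : Subgroup G)⁆ ≤ pths p (pths p N) := by
  have : Fact p.Prime := ⟨hp⟩
  have : Group.IsNilpotent G := hG.isNilpotent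
  obtain ⟨M, hM⟩ : ∃ M, M = pths p N := ⟨_, rfl⟩
  have hMn : M.Normal := by
    rw [hM]
    exact PA_pths_normal p N
  rw [← hM] at hN ⊢
  have hQn : (pths p M).Normal := PA_pths_normal p M
  refine PA_nil _ _ ?_
  obtain ⟨K, hK⟩ : ∃ K, K = ⁅M, (⊤ : Subgroup G)⁆ := ⟨_, rfl⟩
  have hKn : K.Normal := by
    rw [hK]
    infer_instance
  rw [← hK]
  obtain ⟨S, hS⟩ : ∃ S, S = pths p M ⊔ ⁅K, (⊤ : Subgroup G)⁆ := ⟨_, rfl⟩
  have hSn : S.Normal := by
    rw [hS]
    infer_instance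
  rw [← hS]
  have hQS : ∀ m ∈ M, m ^ p ∈ S := by
    intro m hm
    rw [hS]
    exact Subgroup.mem_sup_left (Subgroup.subset_closure ⟨m, hm, rfl⟩)
  have hKM : K ≤ M := by
    rw [hK]
    exact Subgroup.commutator_le_left M ⊤
  have hKS : ∀ c ∈ K, ∀ g : G, QuotientGroup.mk' S c * QuotientGroup.mk' S g =
      QuotientGroup.mk' S g * QuotientGroup.mk' S c := by
    intro c hc g
    have h1 : ⁅K, (⊤ : Subgroup G)⁆ ≤ S := by
      rw [hS]
      exact le_sup_right
    rw [PA_le_iff] at h1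
    have h2 := h1 hc
    rw [Subgroup.mem_comap, Subgroup.mem_center_iff] at h2
    exact (h2 _).symm
  rw [hK, PA_le_iff S M]
  conv_lhs => rw [hM]
  unfold pths
  rw [Subgroup.closure_le]
  rintro _ ⟨n, hn, rfl⟩
  change n ^ p ∈ (center (G ⧸ S)).comap (QuotientGroup.mk' S)
  rw [Subgroup.mem_comap, Subgroup.mem_center_iff]
  intro y
  obtain ⟨g, rfl⟩ := QuotientGroup.mk'_surjective S y
  obtain ⟨v, hv⟩ : ∃ v, v = n⁻¹ * g⁻¹ * n * g := ⟨_, rfl⟩
  have hvM : v ∈ M := by
    refine hN ?_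
    have h1 := Subgroup.commutator_mem_commutator (inv_mem hn) (Subgroup.mem_top g⁻¹)
    have h2 : ⁅n⁻¹, g⁻¹⁆ = v := by
      rw [commutatorElement_def, hv]
      group
    rwa [h2] at h1
  obtain ⟨c, hc⟩ : ∃ c, c = v⁻¹ * n⁻¹ * v * n := ⟨_, rfl⟩
  have hcK : c ∈ K := by
    rw [hK]
    have h1 := Subgroup.commutator_mem_commutator (inv_mem hvM) (Subgroup.mem_top n⁻¹)
    have h2 : ⁅v⁻¹, n⁻¹⁆ = c := by
      rw [commutatorElement_def, hc]
      group
    rwa [h2] at h1
  have h3 := mul_pow_class2 hp2 (QuotientGroup.mk' S n) (QuotientGroup.mk' S v)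
    (QuotientGroup.mk' S c) (by
      rw [← map_mul, ← map_mul, ← map_mul]
      congr 1
      rw [hc]
      group) (hKS c hcK n) (hKS c hcK v) (by
      rw [← map_pow]
      exact (QuotientGroup.eq_one_iff _).2 (hQS c (hKM hcK)))
  have h4 : QuotientGroup.mk' S v ^ p = 1 := by
    rw [← map_pow]
    exact (QuotientGroup.eq_one_iff _).2 (hQS v hvM)
  rw [h4, mul_one, ← map_mul] at h3
  have h5 : n * v = g⁻¹ * n * g := by
    rw [hv]
    group
  have h6 : (g⁻¹ * n * g) ^ p = g⁻¹ * n ^ p * g := by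
    have := conj_pow (a := g⁻¹) (b := n) (i := p)
    rwa [inv_inv] at this
  rw [h5, ← map_pow, h6, ← map_pow] at h3
  rw [← map_mul, ← map_mul]
  have h7 : g * n ^ p = g * (g⁻¹ * n ^ p * g) * (g⁻¹ * n ^ p * g)⁻¹ * n ^ p := by group
  calc QuotientGroup.mk' S (g * n ^ p) = QuotientGroup.mk' S g * QuotientGroup.mk' S (n ^ p) :=
        map_mul _ _ _
    _ = QuotientGroup.mk' S g * QuotientGroup.mk' S (g⁻¹ * n ^ p * g) := by rw [h3]
    _ = QuotientGroup.mk' S (n ^ p * g) := by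
      rw [← map_mul]
      congr 1
      group

end Pool.Agent.PWR
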