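import Pool.Agent.PWR.PDefs

set_option autoImplicit false

namespace Pool.Agent.PWR

universe u

theorem PB_pow_mul {G : Type u} [Group G] (a b c : G)
    (h : b * a = a * b * c) (hcb : c * b = b * c) (n : ℕ) :
    b ^ n * a = a * b ^ n * c ^ n := by
  have hcb' : Commute c b := hcb
  induction n with
  | zero => simp
  | succ n ih =>
    calc b ^ (n + 1) * a = b * (b ^ n * a) := by rw [pow_succ', mul_assoc]
      _ = b * (a * b ^ n * c ^ n) := by rw [ih]
      _ = (b * a) * b ^ n * c ^ n := by simp only [mul_assoc]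
      _ = a * b * (c * b ^ n) * c ^ n := by rw [h]; simp only [mul_assoc]
      _ = a * b * (b ^ n * c) * c ^ n := by rw [(hcb'.pow_right n).eq]
      _ = a * b ^ (n + 1) * c ^ (n + 1) := by
        rw [pow_succ' b n, pow_succ' c n]; simp only [mul_assoc]

theorem PB_mul_pow {G : Type u} [Group G] (a b c : G)
    (h : b * a = a * b * c) (hca : c * a = a * c) (hcb : c * b = b * c) (n : ℕ) :
    (a * b) ^ n = a ^ n * b ^ n * c ^ n.choose 2 := by
  have hca' : Commute c a := hca
  have hcb' : Commute c b := hcb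
  induction n with
  | zero => simp
  | succ n ih =>
    have hk : Commute (c ^ n.choose 2) (a * b) :=
      ((hca'.pow_left _).mul_right (hcb'.pow_left _))
    have hch : (n + 1).choose 2 = n + n.choose 2 := by
      rw [Nat.choose_succ_succ' n 1, Nat.choose_one_right]
    have hcn : Commute (c ^ n) b := hcb'.pow_left n
    calc (a * b) ^ (n + 1) = a ^ n * b ^ n * c ^ n.choose 2 * (a * b) := by rw [pow_succ, ih]
      _ = a ^ n * b ^ n * (c ^ n.choose 2 * (a * b)) := by simp only [mul_assoc]
      _ = a ^ n * b ^ n * ((a * b) * c ^ n.choose 2) := by rw [hk.eq]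
      _ = a ^ n * (b ^ n * a) * b * c ^ n.choose 2 := by simp only [mul_assoc]
      _ = a ^ n * (a * b ^ n * c ^ n) * b * c ^ n.choose 2 := by
        rw [PB_pow_mul a b c h hcb n]
      _ = a ^ n * a * b ^ n * (c ^ n * b) * c ^ n.choose 2 := by simp only [mul_assoc]
      _ = a ^ n * a * b ^ n * (b * c ^ n) * c ^ n.choose 2 := by rw [hcn.eq]
      _ = a ^ (n + 1) * b ^ (n + 1) * c ^ (n + 1).choose 2 := by
        rw [hch, pow_add c, pow_succ a n, pow_succ b n]; simp only [mul_assoc]

/-- PB -/
theorem mul_pow_class2 {G : Type u} [Group G] {p : ℕ} (hp2 : Odd p) (a b c : G)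
    (h : b * a = a * b * c) (hca : c * a = a * c) (hcb : c * b = b * c) (hc : c ^ p = 1) :
    (a * b) ^ p = a ^ p * b ^ p := by
  rw [PB_mul_pow a b c h hca hcb p]
  obtain ⟨k, rfl⟩ := hp2
  have hch : (2 * k + 1).choose 2 = (2 * k + 1) * k := by
    rw [Nat.choose_two_right]
    have : (2 * k + 1) * (2 * k + 1 - 1) = (2 * k + 1) * k * 2 := by
      rw [Nat.add_sub_cancel]; ring
    rw [this, Nat.mul_div_cancel _ (by norm_num)]
  rw [hch, pow_mul, hc, one_pow, mul_one]

end Pool.Agent.PWR
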