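import Pool.Agent.PWR.PDefs
import Pool.Agent.PWR.PA

set_option autoImplicit false

namespace Pool.Agent.PWR

open Subgroup
open scoped commutatorElement

universe u

theorem pe_pths_normal {G : Type*} [Group G] (p : ℕ) (N : Subgroup G) [hN : N.Normal] :
    (pths p N).Normal := by
  refine normal_closure_conj _ ?_
  rintro _ ⟨s, hs, rfl⟩ g
  exact ⟨g * s * g⁻¹, hN.conj_mem s hs g, by rw [conj_pow]⟩

theorem pe_pths_le {G : Type*} [Group G] (p : ℕ) (N : Subgroup G) : pths p N ≤ N := by
  unfold pths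
  rw [closure_le]
  rintro _ ⟨s, hs, rfl⟩
  exact pow_mem hs p

/-- PE1 -/
theorem qs_normal {G : Type u} [Group G] (p i : ℕ) : (qs p G i).Normal := by
  induction i with
  | zero => exact inferInstanceAs (⊤ : Subgroup G).Normal
  | succ i ih => exact pe_pths_normal p (qs p G i)

/-- PE2 -/
theorem qs_succ_le {G : Type u} [Group G] (p i : ℕ) : qs p G (i + 1) ≤ qs p G i :=
  pe_pths_le p (qs p G i)

theorem pe_max {G : Type*} [Group G] [Finite G] {p : ℕ} (hp : p.Prime) (hG : IsPGroup p G)
    (hnt : Nontrivial G) : ∃ M : Subgroup G, M ≠ ⊤ ∧ ∀ x : G, x ^ p ∈ M := by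
  have : Fact p.Prime := ⟨hp⟩
  obtain ⟨n, hn⟩ := IsPGroup.iff_card.1 hG
  have hn0 : n ≠ 0 := by
    rintro rfl
    rw [pow_zero] at hn
    exact absurd hn (Finite.one_lt_card).ne'
  obtain ⟨M, hM⟩ := Sylow.exists_subgroup_card_pow_prime (G := G) p (n := n - 1)
    (by rw [hn]; exact pow_dvd_pow p (Nat.sub_le n 1))
  have hidx : M.index = p := by
    have h1 := M.card_mul_index
    rw [hM, hn] at h1
    have h2 : p ^ n = p ^ (n - 1) * p := by
      rw [← pow_succ]
      congr 1
      omega
    rw [h2] at h1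
    exact Nat.eq_of_mul_eq_mul_left (Nat.pow_pos hp.pos) h1
  have hmf : M.index = (Nat.card G).minFac := by
    rw [hidx, hn, hp.pow_minFac hn0]
  have hMn : M.Normal := Subgroup.normal_of_index_eq_minFac_card hmf
  refine ⟨M, ?_, fun x => ?_⟩
  · rintro rfl
    rw [Subgroup.index_top] at hidx
    exact hp.one_lt.ne hidx
  · rw [← QuotientGroup.eq_one_iff, QuotientGroup.mk_pow]
    have hc : Nat.card (G ⧸ M) = p := hidx
    rw [← hc]
    exact pow_card_eq_one'

theorem pe_pths_lt {G : Type*} [Group G] [Finite G] {p : ℕ} (hp : p.Prime) (hG : IsPGroup p G)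
    {N : Subgroup G} (hN : N ≠ ⊥) : pths p N < N := by
  refine lt_of_le_of_ne (pe_pths_le p N) fun h => ?_
  have hnt : Nontrivial N := (Subgroup.nontrivial_iff_ne_bot N).2 hN
  obtain ⟨M, hM, hx⟩ := pe_max hp (hG.to_subgroup N) hnt
  refine hM ?_
  have h1 : pths p N ≤ M.map N.subtype := by
    unfold pths
    rw [closure_le]
    rintro _ ⟨s, hs, rfl⟩
    exact ⟨(⟨s, hs⟩ : N) ^ p, hx _, rfl⟩
  rw [h] at h1
  rw [eq_top_iff]
  intro x _
  obtain ⟨y, hy, hyx⟩ := h1 x.2
  have : y = x := Subtype.ext hyx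
  rwa [← this]

/-- PE3 -/
theorem qs_bot {G : Type u} [Group G] [Finite G] {p : ℕ} (hp : p.Prime) (hG : IsPGroup p G) :
    ∃ m, qs p G m = ⊥ := by
  have key : ∀ m, qs p G m = ⊥ ∨ Nat.card (qs p G m) + m ≤ Nat.card G := by
    intro m
    induction m with
    | zero => exact Or.inr (by rw [add_zero]; exact card_le_card_group _)
    | succ m ih =>
      by_cases h : qs p G m = ⊥
      · left
        rw [eq_bot_iff, ← h]
        exact qs_succ_le p m
      · right
        have h1 : Nat.card (qs p G (m + 1)) < Nat.card (qs p G m) := by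
          have h2 : qs p G (m + 1) < qs p G m := pe_pths_lt hp hG h
          have h3 := card_le_of_le h2.le
          rcases h3.lt_or_eq with h4 | h4
          · exact h4
          · exact absurd (eq_of_le_of_card_ge h2.le h4.ge) h2.ne
        have h4 := ih.resolve_left h
        omega
  refine ⟨Nat.card G, (key (Nat.card G)).resolve_right fun h => ?_⟩
  have : 0 < Nat.card (qs p G (Nat.card G)) := Nat.card_pos
  omega

section

variable {G : Type u} [Group G] [Finite G] {p : ℕ} (hp : p.Prime) (hp2 : Odd p)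
  (hG : IsPGroup p G) (hP : Powerful p G)

include hp hp2 hG hP

/-- PE4 (from PA by induction) -/
theorem qs_comm (i : ℕ) : ⁅qs p G i, (⊤ : Subgroup G)⁆ ≤ qs p G (i + 1) := by
  induction i with
  | zero =>
    refine le_trans hP ?_
    unfold pw
    rw [closure_le]
    rintro _ ⟨y, rfl⟩
    exact subset_closure ⟨y, mem_top y, by rw [pow_one]⟩
  | succ i ih =>
    have := qs_normal (G := G) p i
    exact pe_step hp hp2 hG (qs p G i) ih

end

end Pool.Agent.PWR
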