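import Pool.Agent.PWR.PB
import Pool.Agent.PWR.PE

set_option autoImplicit false

namespace Pool.Agent.PWR

open Subgroup
open scoped commutatorElement

universe u

section

variable {G : Type u} [Group G] [Finite G] {p : ℕ} (hp : p.Prime) (hp2 : Odd p)
  (hG : IsPGroup p G) (hP : Powerful p G)

include hp hp2 hG hP

/-- PC (from PB, PE4) -/
theorem qs_mul_pow (i : ℕ) (x y : G) (hy : y ∈ qs p G i) :
    ∃ q ∈ qs p G (i + 2), (x * y) ^ p = x ^ p * y ^ p * q := by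
  have hN : (qs p G (i + 2)).Normal := qs_normal p (i + 2)
  have hc : y⁻¹ * x⁻¹ * y * x ∈ qs p G (i + 1) := by
    have h1 : ⁅y⁻¹, x⁻¹⁆ ∈ ⁅qs p G i, (⊤ : Subgroup G)⁆ :=
      commutator_mem_commutator (inv_mem hy) (mem_top _)
    have h2 := qs_comm hp hp2 hG hP i h1
    rwa [commutatorElement_def, inv_inv, inv_inv] at h2
  have hcen : ∀ g : G, (QuotientGroup.mk (y⁻¹ * x⁻¹ * y * x) : G ⧸ qs p G (i + 2)) *
      QuotientGroup.mk g = QuotientGroup.mk g * QuotientGroup.mk (y⁻¹ * x⁻¹ * y * x) := by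
    intro g
    rw [← QuotientGroup.mk_mul, ← QuotientGroup.mk_mul, QuotientGroup.eq]
    have h1 : ⁅g⁻¹, (y⁻¹ * x⁻¹ * y * x)⁻¹⁆ ∈ ⁅(⊤ : Subgroup G), qs p G (i + 1)⁆ :=
      commutator_mem_commutator (mem_top _) (inv_mem hc)
    rw [commutator_comm] at h1
    have h2 := qs_comm hp hp2 hG hP (i + 1) h1
    rw [commutatorElement_def, inv_inv, inv_inv] at h2
    have h3 : (y⁻¹ * x⁻¹ * y * x * g)⁻¹ * (g * (y⁻¹ * x⁻¹ * y * x)) =
      g⁻¹ * (y⁻¹ * x⁻¹ * y * x)⁻¹ * g * (y⁻¹ * x⁻¹ * y * x) := by group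
    rw [h3]
    exact h2
  have key := mul_pow_class2 (p := p) hp2 (QuotientGroup.mk x : G ⧸ qs p G (i + 2))
    (QuotientGroup.mk y) (QuotientGroup.mk (y⁻¹ * x⁻¹ * y * x))
    (by
      rw [← QuotientGroup.mk_mul, ← QuotientGroup.mk_mul, ← QuotientGroup.mk_mul]
      congr 1
      group)
    (hcen x) (hcen y)
    (by
      rw [← QuotientGroup.mk_pow, QuotientGroup.eq_one_iff]
      exact subset_closure ⟨_, hc, rfl⟩)
  rw [← QuotientGroup.mk_mul, ← QuotientGroup.mk_pow, ← QuotientGroup.mk_pow,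
    ← QuotientGroup.mk_pow, ← QuotientGroup.mk_mul, eq_comm, QuotientGroup.eq] at key
  exact ⟨_, key, by group⟩

end

end Pool.Agent.PWR
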