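import Pool.Agent.PWR.RFin

set_option autoImplicit false

namespace Pool.Agent.PWR

open Subgroup
open scoped commutatorElement

universe u

/-- the iterated subgroups of `p`-th powers: `Q_0 = G`, `Q_(i+1)` is generated by the `p`-th powers
of the elements of `Q_i` -/
def qs (p : ℕ) (G : Type*) [Group G] : ℕ → Subgroup G
  | 0 => ⊤
  | i + 1 => pths p (qs p G i)

/-- `G` is powerful (for odd `p`): the commutators lie in the subgroup generated by the `p`-th
powers -/
def Powerful (p : ℕ) (G : Type*) [Group G] : Prop :=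
  commutator G ≤ pw p G 1

/-- the statement of the induction: the elements of order dividing `p` are closed under
multiplication; `x ^ p` commutes with `y` if `x ^ (p ^ 2) = y ^ p = 1`; `x ^ (p ^ 2)` commutes with
`y` if `x ^ (p ^ 3) = y ^ (p ^ 2) = 1` -/
structure KK (p : ℕ) (G : Type*) [Group G] : Prop where
  e1 : ∀ x y : G, x ^ p = 1 → y ^ p = 1 → (x * y) ^ p = 1
  k1 : ∀ x y : G, x ^ p ^ 2 = 1 → y ^ p = 1 → Commute (x ^ p) y
  k2 : ∀ x y : G, x ^ p ^ 3 = 1 → y ^ p ^ 2 = 1 → Commute (x ^ p ^ 2) y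

end Pool.Agent.PWR
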