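import Pool.Agent.PWR.PE

/-! Row PF: the subgroups generated by `u` and `Q_1`. -/

set_option autoImplicit false

namespace Pool.Agent.PWR

open Subgroup
open scoped commutatorElement

universe u

theorem pf_max {G : Type u} [Group G] [Finite G] {p : ℕ} (hp : p.Prime) (hG : IsPGroup p G)
    {A : Subgroup G} (hA : A ≠ ⊤) : ∃ M : Subgroup G, A ≤ M ∧ M ≠ ⊤ ∧ ∀ x : G, x ^ p ∈ M := by
  have : Fact p.Prime := ⟨hp⟩
  obtain ⟨n, hn⟩ := IsPGroup.iff_card.1 hG
  obtain ⟨k, hk⟩ := IsPGroup.iff_card.1 (hG.to_subgroup A)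
  have hkn : k < n := by
    by_contra hcon
    push Not at hcon
    refine hA (Subgroup.eq_top_of_le_card _ ?_)
    rw [hn, hk]
    exact Nat.pow_le_pow_right hp.pos hcon
  obtain ⟨M, hM, hAM⟩ := Sylow.exists_subgroup_card_pow_prime_le (G := G) p (n := k) (m := n - 1)
    (by rw [hn]; exact pow_dvd_pow p (Nat.sub_le n 1)) A hk (by omega)
  have hidx : M.index = p := by
    have h1 := M.card_mul_index
    rw [hM, hn] at h1
    have h2 : p ^ n = p ^ (n - 1) * p := by
      rw [← pow_succ]
      congr 1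
      omega
    rw [h2] at h1
    exact Nat.eq_of_mul_eq_mul_left (Nat.pow_pos hp.pos) h1
  have hmf : M.index = (Nat.card G).minFac := by
    rw [hidx, hn, hp.pow_minFac (by omega)]
  have hMn : M.Normal := Subgroup.normal_of_index_eq_minFac_card hmf
  refine ⟨M, hAM, ?_, ?_⟩
  · intro h
    rw [h, Subgroup.index_top] at hidx
    exact hp.one_lt.ne hidx
  · intro x
    have h := M.pow_index_mem x
    rwa [hidx] at h

theorem pf_q2_le {G : Type u} [Group G] (p : ℕ) {V : Subgroup G} (hV : qs p G 1 ≤ V) :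
    qs p G 2 ≤ (pw p V 1).map V.subtype := by
  show pths p (qs p G 1) ≤ _
  unfold pths
  rw [closure_le]
  rintro z ⟨s, hs, rfl⟩
  exact ⟨⟨s, hV hs⟩ ^ p, subset_closure ⟨⟨s, hV hs⟩, by rw [pow_one]⟩, rfl⟩

theorem pf_powerful {G : Type u} [Group G] (p : ℕ) {V : Subgroup G} (hV : qs p G 1 ≤ V)
    (h : ⁅V, V⁆ ≤ qs p G 2) : Powerful p V := by
  unfold Powerful
  have h1 : (_root_.commutator V).map V.subtype ≤ (pw p V 1).map V.subtype := by
    rw [Subgroup.map_subtype_commutator]
    exact h.trans (pf_q2_le p hV)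
  exact (Subgroup.map_le_map_iff_of_injective V.subtype_injective).1 h1

section

variable {G : Type u} [Group G] [Finite G] {p : ℕ} (hp : p.Prime) (hp2 : Odd p)
  (hG : IsPGroup p G) (hP : Powerful p G)

include hp hp2 hG hP

/-- PF: the subgroup generated by `u` and `Q_1` is proper unless `G` is commutative -/
theorem vu_proper (u : G) :
    (∀ a b : G, a * b = b * a) ∨ closure (insert u (qs p G 1 : Set G)) < ⊤ := by
  by_cases hu : zpowers u = ⊤
  · left
    intro a b
    have ha : a ∈ zpowers u := by rw [hu]; exact mem_top a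
    have hb : b ∈ zpowers u := by rw [hu]; exact mem_top b
    obtain ⟨k, rfl⟩ := mem_zpowers_iff.1 ha
    obtain ⟨l, rfl⟩ := mem_zpowers_iff.1 hb
    rw [← zpow_add, ← zpow_add, add_comm]
  · right
    obtain ⟨M, hM, hMt, hMp⟩ := pf_max hp hG hu
    refine lt_of_le_of_lt ?_ (lt_top_iff_ne_top.2 hMt)
    rw [closure_le]
    rintro z (rfl | hz)
    · exact hM (mem_zpowers z)
    · have h1 : qs p G 1 ≤ M := by
        show pths p ⊤ ≤ M
        unfold pths
        rw [closure_le]
        rintro y ⟨s, _, rfl⟩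
        exact hMp s
      exact h1 hz

/-- PF2: it is powerful -/
theorem vu_powerful (u : G) : Powerful p ↥(closure (insert u (qs p G 1 : Set G))) := by
  have h2 : ⁅qs p G 1, (⊤ : Subgroup G)⁆ ≤ qs p G 2 := qs_comm hp hp2 hG hP 1
  refine pf_powerful p (fun z hz => subset_closure (Set.mem_insert_of_mem _ hz)) ?_
  refine comm_closure (qs p G 2) _ ?_ ?_
  · intro h _ t ht
    exact (qs_normal p 2).conj_mem t ht h
  · intro a ha b hb
    rcases ha with rfl | ha
    · rcases hb with rfl | hb
      · rw [commutatorElement_self]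
        exact one_mem _
      · rw [← commutatorElement_inv]
        exact inv_mem (h2 (commutator_mem_commutator hb (mem_top _)))
    · exact h2 (commutator_mem_commutator ha (mem_top _))

/-- PF3: `Q_1` is powerful -/
theorem q1_powerful : Powerful p ↥(qs p G 1) := by
  have h2 : ⁅qs p G 1, (⊤ : Subgroup G)⁆ ≤ qs p G 2 := qs_comm hp hp2 hG hP 1
  exact pf_powerful p le_rfl ((commutator_mono le_rfl le_top).trans h2)

end

end Pool.Agent.PWR
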