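import Pool.Agent.PWR.PI2

set_option autoImplicit false

namespace Pool.Agent.PWR

open Subgroup
open scoped commutatorElement

universe u

section

variable {G : Type u} [Group G] [Finite G] {p : ℕ} (hp : p.Prime) (hp2 : Odd p)
  (hG : IsPGroup p G) (hP : Powerful p G)

include hp hp2 hG hP

/-- powerful `p`-groups, `p` odd, are power regular -/
theorem Powerful.powerRegular : PowerRegular p G :=
  ⟨fun i j _ _ => by
    rw [← qs_eq_pw hp hp2 hG hP, ← qs_eq_pw hp hp2 hG hP, ← qs_eq_pw hp hp2 hG hP]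
    exact qs_comm_qs hp hp2 hG hP i j,
   fun i j _ _ => by
    rw [← qs_eq_pw hp hp2 hG hP, ← qs_eq_pw hp hp2 hG hP]
    exact card_q_om hp hp2 hG hP i j⟩

/-- Q1 for powerful `p`-groups, `p` odd -/
theorem powerful_q1 :
    HasAbSection G fun n => Nat.card G ≤ n ^ 10 ∧ (Nontrivial G → Nat.card G < n ^ 11) :=
  final_three hp hG (Powerful.powerRegular hp hp2 hG hP) hP

end

end Pool.Agent.PWR
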