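import Pool.Agent.PWR.PB
import Pool.Agent.PWR.PE
import Pool.Agent.PWR.PD

set_option autoImplicit false

namespace Pool.Agent.PWR

open Subgroup
open scoped commutatorElement

universe u


section

variable {G : Type u} [Group G] [Finite G] {p : ℕ} (hp : p.Prime) (hp2 : Odd p)
  (hG : IsPGroup p G) (hP : Powerful p G)

include hp hp2 hG hP

/-- the commutator in the form `a⁻¹ b⁻¹ a b` -/
theorem PG1x_comm (i : ℕ) {a : G} (b : G) (ha : a ∈ qs p G i) :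
    a⁻¹ * b⁻¹ * a * b ∈ qs p G (i + 1) := by
  have h := qs_comm hp hp2 hG hP i (commutator_mem_commutator (inv_mem ha) (mem_top b⁻¹))
  rw [commutatorElement_def, inv_inv, inv_inv] at h
  exact h

/-- if `y ^ p = 1` then `[x, y] ^ p = 1` (with `[x, y] = x⁻¹ y⁻¹ x y`) -/
theorem PG1x_aux (hV : ∀ u : G, KK p ↥(closure (insert u (qs p G 1 : Set G)))) (x y : G)
    (hy : y ^ p = 1) : (x⁻¹ * y⁻¹ * x * y) ^ p = 1 := by
  have h1 : y ∈ closure (insert y (qs p G 1 : Set G)) := subset_closure (Or.inl rfl)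
  have h2 : x⁻¹ * y⁻¹ * x * y ∈ closure (insert y (qs p G 1 : Set G)) :=
    subset_closure (Or.inr (PG1x_comm hp hp2 hG hP 0 y (mem_top x)))
  have h3 : x⁻¹ * y⁻¹ * x ∈ closure (insert y (qs p G 1 : Set G)) := by
    have := mul_mem h2 (inv_mem h1)
    rwa [mul_inv_cancel_right] at this
  have h4 : (x⁻¹ * y⁻¹ * x) ^ p = 1 := by
    have := conj_pow (i := p) (a := x⁻¹) (b := y⁻¹)
    rw [inv_inv] at this
    rw [this, inv_pow, hy, inv_one, mul_one, inv_mul_cancel]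
  exact congrArg Subtype.val ((hV y).e1 ⟨_, h3⟩ ⟨y, h1⟩ (Subtype.ext h4) (Subtype.ext hy))

/-- PG1 -/
theorem kk_k1 (hN : KK p ↥(qs p G 1))
    (hV : ∀ u : G, KK p ↥(closure (insert u (qs p G 1 : Set G))))
    (h2 : ∀ x y : G, x ^ p ^ 3 = 1 → y ^ p ^ 2 = 1 → Commute (x ^ p ^ 2) y) (x y : G)
    (hx : x ^ p ^ 2 = 1) (hy : y ^ p = 1) : Commute (x ^ p) y := by
  have hQ1 : ∀ z : G, z ^ p ∈ qs p G 1 := fun z =>
    (mem_qs_iff hp hp2 hG hP 1 _).2 ⟨z, by rw [pow_one]⟩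
  set v : G := x⁻¹ * y⁻¹ * x * y with hv
  have hvQ : v ∈ qs p G 1 := PG1x_comm hp hp2 hG hP 0 y (mem_top x)
  have hvp : v ^ p = 1 := PG1x_aux hp hp2 hG hP hV x y hy
  set w : G := v⁻¹ * x⁻¹ * v * x with hw
  have hwQ : w ∈ qs p G 2 := PG1x_comm hp hp2 hG hP 1 x hvQ
  have hwp : w ^ p = 1 := by
    have h3 : x⁻¹ * v * x ∈ qs p G 1 := by
      have := (qs_normal p 1).conj_mem v hvQ x⁻¹
      rwa [inv_inv] at this
    have h4 : (x⁻¹ * v * x) ^ p = 1 := by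
      have := conj_pow (i := p) (a := x⁻¹) (b := v)
      rw [inv_inv] at this
      rw [this, hvp, mul_one, inv_mul_cancel]
    have h5 := congrArg Subtype.val (hN.e1 ⟨v⁻¹, inv_mem hvQ⟩ ⟨_, h3⟩
      (Subtype.ext (by show v⁻¹ ^ p = 1; rw [inv_pow, hvp, inv_one])) (Subtype.ext h4))
    have h6 : (v⁻¹ * (x⁻¹ * v * x)) ^ p = 1 := h5
    have h7 : v⁻¹ * (x⁻¹ * v * x) = w := by rw [hw]; group
    rwa [h7] at h6
  obtain ⟨n, hn⟩ := (mem_qs_iff hp hp2 hG hP 2 w).1 hwQ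
  have hwx : Commute w x := by
    have := h2 n x (by rw [pow_succ p 2, pow_mul, hn, hwp]) hx
    rwa [hn] at this
  have hwv : Commute w v := by
    have h1 := hN.k1 ⟨n ^ p, hQ1 n⟩ ⟨v, hvQ⟩ (Subtype.ext (by
      show (n ^ p) ^ p ^ 2 = 1
      rw [← pow_mul, mul_comm, pow_mul, hn, hwp])) (Subtype.ext hvp)
    have h3 : (n ^ p) ^ p * v = v * (n ^ p) ^ p := congrArg Subtype.val h1.eq
    have h4 : (n ^ p) ^ p = w := by rw [← pow_mul, ← pow_two, hn]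
    rw [h4] at h3
    exact h3
  have hmul := mul_pow_class2 hp2 x v w (by rw [hw]; group) hwx.eq hwv.eq hwp
  have hxv : x * v = y⁻¹ * x * y := by rw [hv]; group
  have hconj : (y⁻¹ * x * y) ^ p = y⁻¹ * x ^ p * y := by
    have := conj_pow (i := p) (a := y⁻¹) (b := x)
    rwa [inv_inv] at this
  rw [hvp, mul_one, hxv, hconj] at hmul
  show x ^ p * y = y * x ^ p
  calc x ^ p * y = y * (y⁻¹ * x ^ p * y) := by group
    _ = y * x ^ p := by rw [hmul]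

/-- PGE -/
theorem kk_e1 (hV : ∀ u : G, KK p ↥(closure (insert u (qs p G 1 : Set G))))
    (h1 : ∀ x y : G, x ^ p ^ 2 = 1 → y ^ p = 1 → Commute (x ^ p) y) (x y : G)
    (hx : x ^ p = 1) (hy : y ^ p = 1) : (x * y) ^ p = 1 := by
  set c : G := y⁻¹ * x⁻¹ * y * x with hc
  have hcQ : c ∈ qs p G 1 := PG1x_comm hp hp2 hG hP 0 x (mem_top y)
  have hcp : c ^ p = 1 := PG1x_aux hp hp2 hG hP hV y x hx
  obtain ⟨n, hn⟩ := (mem_qs_iff hp hp2 hG hP 1 c).1 hcQ
  rw [pow_one] at hn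
  have hn2 : n ^ p ^ 2 = 1 := by rw [pow_two, pow_mul, hn, hcp]
  have hcx : Commute c x := by
    have := h1 n x hn2 hx
    rwa [hn] at this
  have hcy : Commute c y := by
    have := h1 n y hn2 hy
    rwa [hn] at this
  rw [mul_pow_class2 hp2 x y c (by rw [hc]; group) hcx.eq hcy.eq hcp, hx, hy, mul_one]

end

end Pool.Agent.PWR
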