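import Pool.Agent.PWR.PDefs
import Pool.Agent.PWR.PE

set_option autoImplicit false

namespace Pool.Agent.PWR

open Subgroup
open scoped commutatorElement

universe u

/-- if the commutators of `A` and `B` are central of exponent `p` modulo `N`, then the `p`-th
powers of the elements of `A` commute with `B` modulo `N` -/
theorem pj_step {G : Type u} [Group G] (p : ℕ) (N M A B : Subgroup G) [N.Normal]
    (hM : ⁅M, (⊤ : Subgroup G)⁆ ≤ N) (hMp : pths p M ≤ N) (h : ⁅A, B⁆ ≤ M) :
    ⁅pths p A, B⁆ ≤ N := by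
  rw [commutator_le]
  intro z hz y hy
  unfold pths at hz
  induction hz using closure_induction with
  | mem z hz =>
    obtain ⟨x, hx, rfl⟩ := hz
    have hv : ⁅x, y⁆ ∈ M := h (commutator_mem_commutator hx hy)
    have hvp : ⁅x, y⁆ ^ p ∈ N := hMp (subset_closure ⟨_, hv, rfl⟩)
    have hvx : ⁅⁅x, y⁆, x⁆ ∈ N := hM (commutator_mem_commutator hv (mem_top x))
    have e1 : (QuotientGroup.mk' N ⁅x, y⁆) ^ p = 1 := by
      rw [← map_pow]
      exact (QuotientGroup.eq_one_iff _).2 hvp
    have e2 : Commute (QuotientGroup.mk' N ⁅x, y⁆) (QuotientGroup.mk' N x) := by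
      rw [← commutatorElement_eq_one_iff_commute, ← map_commutatorElement]
      exact (QuotientGroup.eq_one_iff _).2 hvx
    have e3 : QuotientGroup.mk' N ⁅x ^ p, y⁆ = 1 := by
      rw [map_commutatorElement, commutatorElement_eq_one_iff_commute, map_pow]
      rw [map_commutatorElement] at e1 e2
      generalize QuotientGroup.mk' N x = a at e1 e2 ⊢
      generalize QuotientGroup.mk' N y = b at e1 e2 ⊢
      have h1 : b * a * b⁻¹ = ⁅a, b⁆⁻¹ * a := by
        rw [commutatorElement_def]; group
      have h2 : b * a ^ p * b⁻¹ = a ^ p := by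
        rw [← conj_pow, h1, (e2.inv_left).mul_pow, inv_pow, e1, inv_one, one_mul]
      show a ^ p * b = b * a ^ p
      rw [mul_inv_eq_iff_eq_mul] at h2
      exact h2.symm
    exact (QuotientGroup.eq_one_iff _).1 e3
  | one => simp
  | mul a b _ _ ha hb =>
    have : ⁅a * b, y⁆ = (a * ⁅b, y⁆ * a⁻¹) * ⁅a, y⁆ := by
      simp only [commutatorElement_def]
      group
    rw [this]
    exact N.mul_mem (Normal.conj_mem inferInstance _ hb a) ha
  | inv a _ ha =>
    have : ⁅a⁻¹, y⁆ = a⁻¹ * ⁅a, y⁆⁻¹ * a⁻¹⁻¹ := by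
      simp only [commutatorElement_def]
      group
    rw [this]
    exact Normal.conj_mem inferInstance _ (N.inv_mem ha) a⁻¹

section

variable {G : Type u} [Group G] [Finite G] {p : ℕ} (hp : p.Prime) (hp2 : Odd p)
  (hG : IsPGroup p G) (hP : Powerful p G)

include hp hp2 hG hP

/-- PJ (R1) -/
theorem qs_comm_qs (i j : ℕ) : ⁅qs p G i, qs p G j⁆ ≤ qs p G (i + j) := by
  induction i with
  | zero =>
    rw [Nat.zero_add, commutator_comm]
    refine le_trans (commutator_mono le_rfl le_top) ?_
    exact le_trans (qs_comm hp hp2 hG hP j) (qs_succ_le p j)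
  | succ i ih =>
    haveI := qs_normal (G := G) p (i + 1 + j)
    have e : i + 1 + j = (i + j) + 1 := by omega
    refine pj_step p _ (qs p G (i + j)) (qs p G i) (qs p G j) ?_ ?_ ih
    · rw [e]; exact qs_comm hp hp2 hG hP (i + j)
    · rw [e]; exact le_rfl

end

end Pool.Agent.PWR
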