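import Pool.Agent.PWR.PDefs
import Pool.Agent.PWR.PB
import Pool.Agent.PWR.PE
import Pool.Agent.PWR.PD
import Pool.Agent.PWR.PJ

/-! Rows PF4, PG2. -/

set_option autoImplicit false

namespace Pool.Agent.PWR

open Subgroup
open scoped commutatorElement

universe u

/-- PF4 -/
theorem Powerful.quotient {G : Type u} [Group G] {p : ℕ} (hP : Powerful p G) (N : Subgroup G)
    [N.Normal] : Powerful p (G ⧸ N) := by
  have hs : Function.Surjective (QuotientGroup.mk' N) := QuotientGroup.mk'_surjective N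
  have h1 : commutator (G ⧸ N) = (commutator G).map (QuotientGroup.mk' N) := by
    rw [commutator_def, commutator_def, Subgroup.map_commutator,
      Subgroup.map_top_of_surjective _ hs]
  unfold Powerful
  rw [h1, Subgroup.map_le_iff_le_comap]
  refine hP.trans ?_
  unfold pw
  rw [Subgroup.closure_le]
  rintro _ ⟨y, rfl⟩
  exact Subgroup.subset_closure ⟨QuotientGroup.mk' N y, (map_pow _ _ _).symm⟩

section

variable {G : Type u} [Group G] [Finite G] {p : ℕ} (hp : p.Prime) (hp2 : Odd p)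
  (hG : IsPGroup p G) (hP : Powerful p G)

include hp hp2 hG hP

/-- PG2 -/
theorem kk_k2 (hN : KK p ↥(qs p G 1))
    (hQ : ∀ R : Subgroup G, ∀ _ : R.Normal, R ≠ ⊥ → KK p (G ⧸ R)) (x y : G)
    (hx : x ^ p ^ 3 = 1) (hy : y ^ p ^ 2 = 1) : Commute (x ^ p ^ 2) y := by
  have hn1 : (qs p G 1).Normal := qs_normal p 1
  have hpow : ∀ g : G, g ^ p ∈ qs p G 1 := fun g =>
    Subgroup.subset_closure ⟨g, Subgroup.mem_top g, rfl⟩
  let R : Subgroup G :=
    { carrier := {z | z ∈ qs p G 1 ∧ z ^ p = 1}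
      one_mem' := ⟨one_mem _, one_pow p⟩
      mul_mem' := by
        rintro a b ⟨ha, ha'⟩ ⟨hb, hb'⟩
        refine ⟨mul_mem ha hb, ?_⟩
        have h1 := hN.e1 ⟨a, ha⟩ ⟨b, hb⟩ (Subtype.ext (by simpa using ha'))
          (Subtype.ext (by simpa using hb'))
        simpa using congrArg Subtype.val h1
      inv_mem' := by
        rintro a ⟨ha, ha'⟩
        exact ⟨inv_mem ha, by rw [inv_pow, ha', inv_one]⟩ }
  have hRmem : ∀ z : G, z ∈ R ↔ z ∈ qs p G 1 ∧ z ^ p = 1 := fun z => Iff.rfl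
  have hRn : R.Normal := by
    refine ⟨fun z hz g => ?_⟩
    rw [hRmem] at hz ⊢
    exact ⟨hn1.conj_mem z hz.1 g, by rw [conj_pow, hz.2]; simp⟩
  have e2 : ∀ g : G, g ^ p ^ 2 = (g ^ p) ^ p := fun g => by rw [← pow_mul, pow_two]
  have e3 : ∀ g : G, g ^ p ^ 3 = (g ^ p ^ 2) ^ p := fun g => by rw [← pow_mul, ← pow_succ]
  have e3' : ∀ g : G, g ^ p ^ 3 = (g ^ p) ^ p ^ 2 := fun g => by
    rw [← pow_mul]; congr 1; ring
  have hxR : x ^ p ^ 2 ∈ R := ⟨by rw [e2]; exact hpow _, by rw [← e3]; exact hx⟩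
  have hyR : y ^ p ∈ R := ⟨hpow _, by rw [← e2]; exact hy⟩
  by_cases hR : R = ⊥
  · rw [hR, Subgroup.mem_bot] at hxR
    rw [hxR]
    exact Commute.one_left y
  have hk := (hQ R hRn hR).k1 (x : G ⧸ R) (y : G ⧸ R)
    (by rw [← QuotientGroup.mk_pow]; exact (QuotientGroup.eq_one_iff _).mpr hxR)
    (by rw [← QuotientGroup.mk_pow]; exact (QuotientGroup.eq_one_iff _).mpr hyR)
  set X : G := x ^ p with hX
  set e : G := X⁻¹ * (y⁻¹ * X * y) with he
  have heR : e ∈ R := by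
    rw [← QuotientGroup.eq_one_iff]
    have h1 : ((X : G) : G ⧸ R) = (x : G ⧸ R) ^ p := by rw [hX, QuotientGroup.mk_pow]
    have h2 : ((y : G ⧸ R))⁻¹ * (X : G ⧸ R) * (y : G ⧸ R) = (X : G ⧸ R) := by
      rw [h1, mul_assoc, hk.eq, inv_mul_cancel_left]
    rw [he, QuotientGroup.mk_mul, QuotientGroup.mk_mul, QuotientGroup.mk_mul,
      QuotientGroup.mk_inv, QuotientGroup.mk_inv, h2, inv_mul_cancel]
  have hXe : y⁻¹ * X * y = X * e := by rw [he]; group
  have hX1 : X ∈ qs p G 1 := hpow x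
  have he2 : e ∈ qs p G 2 := by
    have h1 : ⁅X⁻¹, y⁻¹⁆ ∈ qs p G 2 :=
      qs_comm hp hp2 hG hP 1 (Subgroup.commutator_mem_commutator (inv_mem hX1)
        (Subgroup.mem_top _))
    have h2 : ⁅X⁻¹, y⁻¹⁆ = e := by rw [commutatorElement_def, he]; group
    rwa [h2] at h1
  set f : G := e⁻¹ * (X⁻¹ * e * X) with hf
  have hf3 : f ∈ qs p G 3 := by
    have h1 : ⁅e⁻¹, X⁻¹⁆ ∈ qs p G (2 + 1) :=
      qs_comm_qs hp hp2 hG hP 2 1 (Subgroup.commutator_mem_commutator (inv_mem he2)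
        (inv_mem hX1))
    have h2 : ⁅e⁻¹, X⁻¹⁆ = f := by rw [commutatorElement_def, hf]; group
    rwa [h2] at h1
  have hfR : f ∈ R := by
    rw [hf]
    refine mul_mem (inv_mem heR) ?_
    have := hRn.conj_mem e heR X⁻¹
    rwa [inv_inv] at this
  have hfp : f ^ p = 1 := hfR.2
  obtain ⟨w, hw⟩ := (mem_qs_iff hp hp2 hG hP 3 f).mp hf3
  -- `f` commutes with `X`
  have c1 : f * X = X * f := by
    have h1 := hN.k2 ⟨w ^ p, hpow w⟩ ⟨X, hX1⟩
      (Subtype.ext (by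
        show (w ^ p) ^ p ^ 3 = 1
        rw [e3, ← e3', hw, hfp]))
      (Subtype.ext (by
        show X ^ p ^ 2 = 1
        rw [hX, ← e3', hx]))
    have h2 := congrArg Subtype.val h1.eq
    have h3 : (w ^ p) ^ p ^ 2 * X = X * (w ^ p) ^ p ^ 2 := h2
    rwa [← e3', hw] at h3
  have c2 : f * e = e * f := by
    have h1 := hN.k1 ⟨w ^ p ^ 2, by rw [e2]; exact hpow _⟩ ⟨e, heR.1⟩
      (Subtype.ext (by
        show (w ^ p ^ 2) ^ p ^ 2 = 1
        rw [e2, ← e3, hw, hfp]))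
      (Subtype.ext (by
        show e ^ p = 1
        exact heR.2))
    have h2 := congrArg Subtype.val h1.eq
    have h3 : (w ^ p ^ 2) ^ p * e = e * (w ^ p ^ 2) ^ p := h2
    rwa [← e3, hw] at h3
  have h1 := mul_pow_class2 hp2 X e f (by rw [hf]; group) c1 c2 hfp
  rw [← hXe, heR.2, mul_one] at h1
  have h2 : (y⁻¹ * X * y) ^ p = y⁻¹ * X ^ p * y := by
    have := conj_pow (i := p) (a := y⁻¹) (b := X)
    rwa [inv_inv] at this
  rw [h2] at h1
  have h3 : X ^ p * y = y * X ^ p := by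
    have := congrArg (fun z => y * z) h1
    rw [← mul_assoc, ← mul_assoc, mul_inv_cancel, one_mul] at this
    exact this
  rw [e2]
  exact h3

end

end Pool.Agent.PWR
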