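import Pool.Agent.PWR.PF
import Pool.Agent.PWR.PG1
import Pool.Agent.PWR.PG2

set_option autoImplicit false

namespace Pool.Agent.PWR

open Subgroup
open scoped commutatorElement

universe u

theorem pg_quotient_or {G : Type u} [Group G] [Finite G] (R : Subgroup G) (hR : R ≠ ⊥) [R.Normal] :
    Nat.card (G ⧸ R) < Nat.card G := by
  have h1 := R.card_eq_card_quotient_mul_card_subgroup
  have h2 : 1 < Nat.card R := (one_lt_card_iff_ne_bot R).2 hR
  have h3 : 0 < Nat.card (G ⧸ R) := Nat.card_pos
  rw [h1]
  exact lt_mul_of_one_lt_right h3 h2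

theorem pg_card_lt {G : Type u} [Group G] [Finite G] {H : Subgroup G} (hH : H < ⊤) :
    Nat.card H < Nat.card G := by
  have h1 : Nat.card H ≤ Nat.card G := Nat.card_le_card_of_injective _ H.subtype_injective
  refine lt_of_le_of_ne h1 fun h2 => hH.ne ?_
  exact eq_top_of_card_eq _ h2

theorem pg_comm {G : Type u} [Group G] {p : ℕ} (h : ∀ a b : G, a * b = b * a) : KK p G where
  e1 := fun x y hx hy => by
    rw [Commute.mul_pow (h x y), hx, hy, one_mul]
  k1 := fun _ _ _ _ => h _ _
  k2 := fun _ _ _ _ => h _ _

theorem kk_all {p : ℕ} (hp : p.Prime) (hp2 : Odd p) (n : ℕ) :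
    ∀ (G : Type u) [Group G] [Finite G], Nat.card G = n → IsPGroup p G → Powerful p G →
      KK p G := by
  induction n using Nat.strong_induction_on with
  | _ n ih =>
    intro G _ _ hn hG hP
    by_cases hc : ∀ a b : G, a * b = b * a
    · exact pg_comm hc
    · have hV : ∀ u : G, KK p ↥(closure (insert u (qs p G 1 : Set G))) := by
        intro u
        rcases vu_proper hp hp2 hG hP u with h | h
        · exact absurd h hc
        · refine ih _ ?_ _ rfl (hG.to_subgroup _) (vu_powerful hp hp2 hG hP u)
          rw [← hn]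
          exact pg_card_lt h
      have hN : KK p ↥(qs p G 1) := by
        refine ih _ ?_ _ rfl (hG.to_subgroup _) (q1_powerful hp hp2 hG hP)
        rcases vu_proper hp hp2 hG hP 1 with h | h
        · exact absurd h hc
        · rw [← hn]
          refine pg_card_lt (lt_of_le_of_lt ?_ h)
          exact fun x hx => subset_closure (Set.mem_insert_of_mem _ hx)
      have hQ : ∀ R : Subgroup G, ∀ _ : R.Normal, R ≠ ⊥ → KK p (G ⧸ R) := by
        intro R hRn hR
        refine ih _ ?_ _ rfl (hG.to_quotient _) (Powerful.quotient hP R)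
        rw [← hn]
        exact pg_quotient_or R hR
      have h2 := kk_k2 hp hp2 hG hP hN hQ
      have h1 := kk_k1 hp hp2 hG hP hN hV h2
      have h0 := kk_e1 hp hp2 hG hP hV h1
      exact ⟨h0, h1, h2⟩

end Pool.Agent.PWR
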