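import Pool.Agent.PWR.PG

set_option autoImplicit false

namespace Pool.Agent.PWR

open Subgroup
open scoped commutatorElement

universe u

/-- the elements of order dividing `p` are closed under multiplication: then they are `Ω_1` -/
theorem ph_mem_om {G : Type u} [Group G] {p : ℕ} (hk : KK p G) (x : G) :
    x ∈ om p G 1 ↔ x ^ p = 1 := by
  constructor
  · intro hx
    have hx' : x ∈ closure {y : G | y ^ p ^ 1 = 1} := hx
    induction hx' using closure_induction with
    | mem y hy => simpa using hy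
    | one => simp
    | mul y z hy hz h1 h2 => exact hk.e1 y z (h1 hy) (h2 hz)
    | inv y hy h1 => rw [inv_pow, h1 hy, inv_one]
  · intro hx
    exact subset_closure (by simpa using hx)

section

variable {G : Type u} [Group G] [Finite G] {p : ℕ} (hp : p.Prime) (hp2 : Odd p)
  (hG : IsPGroup p G) (hP : Powerful p G)

include hp hp2 hG hP

/-- one step -/
theorem ph_step (i : ℕ)
    (h : Nat.card ↥(qs p G (i + 1) ⊓ om p G 1) * Nat.card (qs p G (i + 2)) =
      Nat.card (qs p G (i + 1))) :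
    Nat.card ↥(qs p G i ⊓ om p G 1) * Nat.card (qs p G (i + 1)) = Nat.card (qs p G i) := by
  have hk : KK p G := kk_all hp hp2 _ G rfl hG hP
  have n0 : (qs p G i).Normal := qs_normal p i
  have n1 : (qs p G (i + 1)).Normal := qs_normal p (i + 1)
  have n2 : (qs p G (i + 2)).Normal := qs_normal p (i + 2)
  have l1 : qs p G (i + 1) ≤ qs p G i := qs_succ_le p i
  have l2 : qs p G (i + 2) ≤ qs p G (i + 1) := qs_succ_le p (i + 1)
  have l3 : qs p G (i + 1 + 2) ≤ qs p G (i + 2) := qs_succ_le p (i + 2)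
  -- the `p`-th power map modulo `Q_(i+2)`
  let f : qs p G i →* G ⧸ qs p G (i + 2) :=
    { toFun := fun n => QuotientGroup.mk' (qs p G (i + 2)) ((n : G) ^ p)
      map_one' := by simp
      map_mul' := by
        intro x y
        obtain ⟨q, hq, e⟩ := qs_mul_pow hp hp2 hG hP i (x : G) (y : G) y.2
        have hq1 : QuotientGroup.mk' (qs p G (i + 2)) q = 1 := by
          simpa using hq
        rw [Subgroup.coe_mul, e, map_mul, map_mul, hq1, mul_one] }
  have hfa : ∀ n : qs p G i, f n = QuotientGroup.mk' (qs p G (i + 2)) ((n : G) ^ p) := fun _ => rfl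
  have hpow : ∀ (j : ℕ) (n : G), n ∈ qs p G j → n ^ p ∈ qs p G (j + 1) := by
    intro j n hn
    exact subset_closure ⟨n, hn, rfl⟩
  have hrange : f.range = (qs p G (i + 1)).map (QuotientGroup.mk' (qs p G (i + 2))) := by
    ext z
    constructor
    · rintro ⟨n, rfl⟩
      exact ⟨(n : G) ^ p, hpow i _ n.2, (hfa n).symm⟩
    · rintro ⟨z, hz, rfl⟩
      obtain ⟨m, hm, e⟩ := qs_exists hp hp2 hG hP i 1 z hz
      refine ⟨⟨m, hm⟩, ?_⟩
      rw [hfa]
      simp only [one_pow, one_mul] at e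
      rw [e]
  have hker : f.ker = ((qs p G i ⊓ om p G 1) ⊔ qs p G (i + 1)).subgroupOf (qs p G i) := by
    ext n
    rw [MonoidHom.mem_ker, hfa, mem_subgroupOf]
    constructor
    · intro hn
      have hn1 : (n : G) ^ p ∈ qs p G (i + 2) := (QuotientGroup.eq_one_iff _).1 hn
      obtain ⟨m, hm, e⟩ := qs_exists hp hp2 hG hP (i + 1) (n : G) ((n : G) ^ p)⁻¹ (inv_mem hn1)
      rw [mul_inv_cancel] at e
      have h1 : (n : G) * m ∈ qs p G i ⊓ om p G 1 :=
        ⟨mul_mem n.2 (l1 hm), (ph_mem_om hk _).2 e.symm⟩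
      have h2 : (n : G) = ((n : G) * m) * m⁻¹ := by group
      rw [h2]
      exact mul_mem_sup h1 (inv_mem hm)
    · intro hn
      obtain ⟨w, hw, m, hm, e⟩ := mem_sup_of_normal_right.1 hn
      obtain ⟨q, hq, e2⟩ := qs_mul_pow hp hp2 hG hP (i + 1) w m hm
      have hw1 : w ^ p = 1 := (ph_mem_om hk _).1 hw.2
      have : (n : G) ^ p ∈ qs p G (i + 2) := by
        rw [← e, e2, hw1, one_mul]
        exact mul_mem (hpow (i + 1) m hm) (l3 hq)
      exact (QuotientGroup.eq_one_iff _).2 this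
  -- the two indices
  let g : qs p G (i + 1) →* G ⧸ qs p G (i + 2) :=
    (QuotientGroup.mk' (qs p G (i + 2))).comp (qs p G (i + 1)).subtype
  have hgr : g.range = (qs p G (i + 1)).map (QuotientGroup.mk' (qs p G (i + 2))) := by
    rw [MonoidHom.range_comp, range_subtype]
  have hgk : g.ker = (qs p G (i + 2)).subgroupOf (qs p G (i + 1)) := by
    ext n
    rw [MonoidHom.mem_ker, mem_subgroupOf]
    show QuotientGroup.mk' (qs p G (i + 2)) (n : G) = 1 ↔ _
    simp
  have e1 : ((qs p G i ⊓ om p G 1) ⊔ qs p G (i + 1)).relIndex (qs p G i) =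
      (qs p G (i + 2)).relIndex (qs p G (i + 1)) := by
    have a1 := Subgroup.index_ker f
    have a2 := Subgroup.index_ker g
    rw [hker, hrange] at a1
    rw [hgk, hgr] at a2
    rw [relIndex, relIndex, a1, a2]
  have lk : (qs p G i ⊓ om p G 1) ⊔ qs p G (i + 1) ≤ qs p G i := sup_le inf_le_left l1
  have b1 := Lc_relIndex lk
  have b2 := Lc_relIndex l2
  have b3 := Lc_sup (qs p G i ⊓ om p G 1) (qs p G (i + 1))
  have e2 : (qs p G i ⊓ om p G 1) ⊓ qs p G (i + 1) = qs p G (i + 1) ⊓ om p G 1 := by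
    ext x
    simp only [mem_inf]
    constructor
    · rintro ⟨⟨_, h2⟩, h3⟩
      exact ⟨h3, h2⟩
    · rintro ⟨h3, h2⟩
      exact ⟨⟨l1 h3, h2⟩, h3⟩
  rw [e2] at b3
  rw [e1, b2] at b1
  have c1 : Lc (qs p G (i + 1) ⊓ om p G 1) + Lc (qs p G (i + 2)) = Lc (qs p G (i + 1)) := by
    unfold Lc
    rw [← Real.log_mul (card_pos' _).ne' (card_pos' _).ne']
    congr 1
    exact_mod_cast h
  have c2 : Lc (qs p G i ⊓ om p G 1) + Lc (qs p G (i + 1)) = Lc (qs p G i) := by linarith
  unfold Lc at c2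
  rw [← Real.log_mul (card_pos' _).ne' (card_pos' _).ne'] at c2
  have c3 := Real.log_injOn_pos (Set.mem_Ioi.2 (mul_pos (card_pos' _) (card_pos' _)))
    (Set.mem_Ioi.2 (card_pos' _)) c2
  exact_mod_cast c3

/-- PH (from KK, PD): the order of `Q_i ∩ Ω_1` -/
theorem card_q_om1 (i : ℕ) :
    Nat.card ↥(qs p G i ⊓ om p G 1) * Nat.card (qs p G (i + 1)) = Nat.card (qs p G i) := by
  obtain ⟨m, hm⟩ := qs_bot (G := G) hp hG
  have anti : Antitone (qs p G) := antitone_nat_of_succ_le fun j => qs_succ_le p j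
  have main : ∀ k j : ℕ, m ≤ j + k →
      Nat.card ↥(qs p G j ⊓ om p G 1) * Nat.card (qs p G (j + 1)) = Nat.card (qs p G j) := by
    intro k
    induction k with
    | zero =>
      intro j hj
      have h1 : qs p G j = ⊥ := le_bot_iff.1 (hm ▸ anti (by simpa using hj))
      have h2 : qs p G (j + 1) = ⊥ := le_bot_iff.1 (h1 ▸ anti (Nat.le_succ j))
      rw [h1, h2, bot_inf_eq]
      simp
    | succ k ih =>
      intro j hj
      exact ph_step hp hp2 hG hP j (ih (j + 1) (by omega))
  exact main m i (by omega)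

end

end Pool.Agent.PWR
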