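import Pool.Agent.PWR.PG

set_option autoImplicit false

namespace Pool.Agent.PWR

open Subgroup
open scoped commutatorElement

universe u

/-- the subgroup of the elements `z` with `z ^ p = 1` -/
def pi1_om {G : Type u} [Group G] {p : ℕ} (h : KK p G) : Subgroup G where
  carrier := {z | z ^ p = 1}
  one_mem' := one_pow p
  mul_mem' := fun {z w} hz hw => h.e1 z w hz hw
  inv_mem' := by
    intro z hz
    show z⁻¹ ^ p = 1
    rw [inv_pow, show z ^ p = 1 from hz, inv_one]

theorem pi1_mul {p : ℕ} (hp : p.Prime) (hp2 : Odd p) (j : ℕ) :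
    ∀ (G : Type u) [Group G] [Finite G], IsPGroup p G → Powerful p G → ∀ x y : G,
      x ^ p ^ j = 1 → y ^ p ^ j = 1 → (x * y) ^ p ^ j = 1 := by
  induction j with
  | zero =>
    intro G _ _ _ _ x y hx hy
    rw [pow_zero, pow_one] at hx hy ⊢
    rw [hx, hy, one_mul]
  | succ j ih =>
    intro G _ _ hG hP x y hx hy
    let N : Subgroup G := pi1_om (kk_all hp hp2 _ G rfl hG hP)
    have hN : ∀ z : G, z ∈ N ↔ z ^ p = 1 := fun z => Iff.rfl
    haveI : N.Normal := ⟨fun n hn g => by
      rw [hN] at hn ⊢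
      rw [conj_pow, hn, mul_one, mul_inv_cancel]⟩
    have key : ∀ z : G, z ^ p ^ (j + 1) = 1 ↔ ((z : G ⧸ N)) ^ p ^ j = 1 := by
      intro z
      rw [← QuotientGroup.mk_pow, QuotientGroup.eq_one_iff, hN, ← pow_mul, ← pow_succ]
    rw [key] at hx hy ⊢
    rw [QuotientGroup.mk_mul]
    exact ih (G ⧸ N) (hG.to_quotient N) (hP.quotient N) _ _ hx hy

section

variable {G : Type u} [Group G] [Finite G] {p : ℕ} (hp : p.Prime) (hp2 : Odd p)
  (hG : IsPGroup p G) (hP : Powerful p G)

include hp hp2 hG hP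

/-- PI1 (induction on `j` for all `G`, quotient by `Ω_1`) -/
theorem mem_om_iff_powerful (j : ℕ) (x : G) : x ∈ om p G j ↔ x ^ p ^ j = 1 := by
  constructor
  · intro hx
    unfold om at hx
    induction hx using Subgroup.closure_induction with
    | mem y hy => exact hy
    | one => exact one_pow _
    | mul a b _ _ ha hb => exact pi1_mul hp hp2 j G hG hP a b ha hb
    | inv a _ ha => rw [inv_pow, ha, inv_one]
  · intro hx
    exact Subgroup.subset_closure hx

end

end Pool.Agent.PWR
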