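import Pool.Agent.PWR.PH
import Pool.Agent.PWR.PI1

set_option autoImplicit false

namespace Pool.Agent.PWR

open Subgroup
open scoped commutatorElement

universe u

theorem pi2_map_pths {p : ℕ} {G H : Type*} [Group G] [Group H] (f : G →* H) (X : Subgroup G) :
    (pths p X).map f = pths p (X.map f) := by
  unfold pths
  rw [MonoidHom.map_closure]
  congr 1
  ext z
  constructor
  · rintro ⟨_, ⟨s, hs, rfl⟩, rfl⟩
    exact ⟨f s, mem_map_of_mem f hs, (map_pow f s p).symm⟩
  · rintro ⟨_, ⟨s, hs, rfl⟩, rfl⟩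
    exact ⟨s ^ p, ⟨s, hs, rfl⟩, map_pow f s p⟩

theorem pi2_map_qs {p : ℕ} {G H : Type*} [Group G] [Group H] (f : G →* H)
    (hf : Function.Surjective f) (i : ℕ) : (qs p G i).map f = qs p H i := by
  induction i with
  | zero => exact map_top_of_surjective f hf
  | succ i ih =>
    show (pths p (qs p G i)).map f = pths p (qs p H i)
    rw [pi2_map_pths, ih]

theorem pi2_card {G : Type*} [Group G] [Finite G] (N : Subgroup G) [N.Normal] (A : Subgroup G) :
    Nat.card ↥(A ⊓ N) * Nat.card (A.map (QuotientGroup.mk' N)) = Nat.card A := by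
  let f : A →* G ⧸ N := (QuotientGroup.mk' N).comp A.subtype
  have h1 : Nat.card A = Nat.card (A ⧸ f.ker) * Nat.card f.ker :=
    card_eq_card_quotient_mul_card_subgroup f.ker
  have h2 : Nat.card (A ⧸ f.ker) = Nat.card f.range :=
    Nat.card_congr (QuotientGroup.quotientKerEquivRange f).toEquiv
  have h3 : f.range = A.map (QuotientGroup.mk' N) := by
    rw [MonoidHom.range_comp, range_subtype]
  have h4 : Nat.card f.ker = Nat.card ↥(A ⊓ N) := by
    refine Nat.card_congr ⟨fun x => ⟨x.1.1, x.1.2, ?_⟩, fun x => ⟨⟨x.1, x.2.1⟩, ?_⟩, fun x => ?_,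
      fun x => ?_⟩
    · have := x.2
      rw [MonoidHom.mem_ker] at this
      exact (QuotientGroup.eq_one_iff _).1 this
    · rw [MonoidHom.mem_ker]
      exact (QuotientGroup.eq_one_iff _).2 x.2.2
    · rfl
    · rfl
  rw [h1, h2, h3, h4, mul_comm]

theorem pi2_aux {p : ℕ} (hp : p.Prime) (hp2 : Odd p) (j : ℕ) : ∀ (G : Type u) [Group G] [Finite G],
    IsPGroup p G → Powerful p G → ∀ i : ℕ,
    Nat.card ↥(qs p G i ⊓ om p G j) * Nat.card (qs p G (i + j)) = Nat.card (qs p G i) := by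
  induction j with
  | zero =>
    intro G _ _ _ _ i
    rw [om_zero, inf_bot_eq, card_bot, one_mul, add_zero]
  | succ j ih =>
    intro G _ _ hG hP i
    have h1 : ∀ x : G, x ∈ om p G 1 ↔ x ^ p = 1 := fun x => by
      rw [mem_om_iff_powerful hp hp2 hG hP 1 x, pow_one]
    set N := om p G 1 with hN
    have hGN : IsPGroup p (G ⧸ N) := hG.to_quotient N
    have hPN : Powerful p (G ⧸ N) := hP.quotient N
    have hsurj : Function.Surjective (QuotientGroup.mk' N) := QuotientGroup.mk'_surjective N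
    have key : (qs p G i ⊓ om p G (j + 1)).map (QuotientGroup.mk' N) =
        qs p (G ⧸ N) i ⊓ om p (G ⧸ N) j := by
      have hmem : ∀ x : G, (QuotientGroup.mk' N x) ∈ om p (G ⧸ N) j ↔ x ∈ om p G (j + 1) := by
        intro x
        rw [mem_om_iff_powerful hp hp2 hGN hPN, mem_om_iff_powerful hp hp2 hG hP, ← map_pow]
        rw [QuotientGroup.mk'_apply, QuotientGroup.eq_one_iff, h1, ← pow_mul, ← pow_succ]
      ext z
      constructor
      · rintro ⟨x, ⟨hx1, hx2⟩, rfl⟩
        refine ⟨?_, (hmem x).2 hx2⟩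
        rw [← pi2_map_qs (QuotientGroup.mk' N) hsurj i]
        exact mem_map_of_mem _ hx1
      · rintro ⟨hz1, hz2⟩
        rw [← pi2_map_qs (QuotientGroup.mk' N) hsurj i] at hz1
        obtain ⟨x, hx, rfl⟩ := hz1
        exact ⟨x, ⟨hx, (hmem x).1 hz2⟩, rfl⟩
    have a1 := pi2_card N (qs p G i ⊓ om p G (j + 1))
    have a2 := pi2_card N (qs p G i)
    have a3 := pi2_card N (qs p G (i + j))
    have a4 := card_q_om1 hp hp2 hG hP (i + j)
    have a5 := ih (G ⧸ N) hGN hPN i
    rw [key] at a1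
    rw [pi2_map_qs (QuotientGroup.mk' N) hsurj] at a2 a3
    have e1 : qs p G i ⊓ om p G (j + 1) ⊓ N = qs p G i ⊓ N := by
      rw [inf_assoc]
      congr 1
      exact inf_eq_right.2 (om_mono p (by omega))
    rw [e1] at a1
    have e2 : Nat.card (qs p (G ⧸ N) (i + j)) = Nat.card (qs p G (i + j + 1)) := by
      rw [← hN] at a4
      have h0 : 0 < Nat.card ↥(qs p G (i + j) ⊓ N) := Nat.card_pos
      exact Nat.eq_of_mul_eq_mul_left h0 (a3.trans a4.symm)
    rw [← add_assoc, ← a1, ← e2, mul_assoc, a5, a2]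

/-- PI2 (induction on `j` for all `G`, quotient by `Ω_1`, from PH, PI1) -/
theorem card_q_om {G : Type u} [Group G] [Finite G] {p : ℕ} (hp : p.Prime) (hp2 : Odd p)
    (hG : IsPGroup p G) (hP : Powerful p G) (i j : ℕ) :
    Nat.card ↥(qs p G i ⊓ om p G j) * Nat.card (qs p G (i + j)) = Nat.card (qs p G i) :=
  pi2_aux hp hp2 j G hG hP i

end Pool.Agent.PWR
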