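import Pool.Agent.PWR.QDefs
import Pool.Agent.PWR.PA

set_option autoImplicit false

namespace Pool.Agent.PWR

open Subgroup
open scoped commutatorElement

universe u

/-- a proper subgroup of a finite `p`-group lies in a normal subgroup of index `p` -/
theorem QA_max {G : Type u} [Group G] [Finite G] {p : ℕ} (hp : p.Prime) (hG : IsPGroup p G)
    {A : Subgroup G} (hA : A ≠ ⊤) : ∃ M : Subgroup G, A ≤ M ∧ M.Normal ∧ M.index = p := by
  have : Fact p.Prime := ⟨hp⟩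
  obtain ⟨n, hn⟩ := IsPGroup.iff_card.1 hG
  obtain ⟨k, hk⟩ := IsPGroup.iff_card.1 (hG.to_subgroup A)
  have hkn : k < n := by
    by_contra hcon
    push Not at hcon
    refine hA (Subgroup.eq_top_of_le_card _ ?_)
    rw [hn, hk]
    exact Nat.pow_le_pow_right hp.pos hcon
  obtain ⟨M, hM, hAM⟩ := Sylow.exists_subgroup_card_pow_prime_le (G := G) p (n := k) (m := n - 1)
    (by rw [hn]; exact pow_dvd_pow p (Nat.sub_le n 1)) A hk (by omega)
  have hidx : M.index = p := by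
    have h1 := M.card_mul_index
    rw [hM, hn] at h1
    have h2 : p ^ n = p ^ (n - 1) * p := by
      rw [← pow_succ]
      congr 1
      omega
    rw [h2] at h1
    exact Nat.eq_of_mul_eq_mul_left (Nat.pow_pos hp.pos) h1
  have hmf : M.index = (Nat.card G).minFac := by
    rw [hidx, hn, hp.pow_minFac (by omega)]
  exact ⟨M, hAM, Subgroup.normal_of_index_eq_minFac_card hmf, hidx⟩

/-- QA -/
theorem exists_J {G : Type u} [Group G] [Finite G] {p : ℕ} (hp : p.Prime) (hG : IsPGroup p G)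
    (Q K : Subgroup G) [Q.Normal] [K.Normal] (h : ¬ K ≤ Q) :
    ∃ J : Subgroup G, J.Normal ∧ Q ≤ J ∧ J ≤ Q ⊔ K ∧ ¬ K ≤ J ∧ ⁅Q ⊔ K, (⊤ : Subgroup G)⁆ ≤ J ∧
      J.relIndex (Q ⊔ K) = p ∧ ∀ x ∈ Q ⊔ K, x ^ p ∈ J := by
  have : Fact p.Prime := ⟨hp⟩
  have hnil : Group.IsNilpotent G := hG.isNilpotent
  have hS : (Q ⊔ K).Normal := inferInstance
  -- the maximal `J`
  let X : Set (Subgroup G) := {J | J.Normal ∧ Q ≤ J ∧ J < Q ⊔ K}
  have hX : X.Nonempty := ⟨Q, inferInstance, le_rfl, lt_of_le_of_ne le_sup_left fun e => h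
    (by rw [e]; exact le_sup_right)⟩
  obtain ⟨J, hJ⟩ := (Set.toFinite X).exists_maximal hX
  obtain ⟨hJn, hQJ, hJS⟩ := hJ.prop
  have hmax : ∀ M : Subgroup G, M.Normal → J ≤ M → M < Q ⊔ K → M = J := fun M h1 h2 h3 =>
    le_antisymm (hJ.le_of_ge ⟨h1, hQJ.trans h2, h3⟩ h2) h2
  have hcomm : ⁅Q ⊔ K, (⊤ : Subgroup G)⁆ ≤ J := by
    have h1 : (J ⊔ ⁅Q ⊔ K, (⊤ : Subgroup G)⁆).Normal := inferInstance
    have h2 : J ⊔ ⁅Q ⊔ K, (⊤ : Subgroup G)⁆ ≤ Q ⊔ K :=
      sup_le hJS.le (commutator_le_left _ _)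
    rcases h2.lt_or_eq with h3 | h3
    · have := hmax _ h1 le_sup_left h3
      rw [← this]
      exact le_sup_right
    · exact absurd (PA_nil (Q ⊔ K) J h3.ge) hJS.not_ge
  -- the index
  have hne : J.subgroupOf (Q ⊔ K) ≠ ⊤ := fun e => hJS.not_ge (subgroupOf_eq_top.1 e)
  obtain ⟨M, hM1, hM2, hM3⟩ := QA_max hp (hG.to_subgroup (Q ⊔ K)) hne
  have hMS : M.map (Q ⊔ K).subtype ≤ Q ⊔ K := map_subtype_le M
  have hJM : J ≤ M.map (Q ⊔ K).subtype := fun a ha => ⟨⟨a, hJS.le ha⟩, hM1 ha, rfl⟩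
  have hMn : (M.map (Q ⊔ K).subtype).Normal := by
    refine ⟨fun m hm g => ?_⟩
    have h1 : ⁅m, g⁆ ∈ ⁅Q ⊔ K, (⊤ : Subgroup G)⁆ :=
      commutator_mem_commutator (hMS hm) (mem_top g)
    have h2 : g * m * g⁻¹ = ⁅m, g⁆⁻¹ * m := by
      rw [commutatorElement_def]
      group
    rw [h2]
    exact mul_mem (inv_mem (hJM (hcomm h1))) hm
  have hMlt : M.map (Q ⊔ K).subtype < Q ⊔ K := by
    refine lt_of_le_of_ne hMS fun e => ?_
    have h1 : M = ⊤ := by
      rw [eq_top_iff]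
      intro x _
      have hx : (x : G) ∈ M.map (Q ⊔ K).subtype := by rw [e]; exact x.2
      obtain ⟨y, hy, hyx⟩ := hx
      have : y = x := Subtype.ext hyx
      rwa [← this]
    rw [h1, index_top] at hM3
    exact hp.one_lt.ne hM3
  have hMJ := hmax _ hMn hJM hMlt
  have hsub : J.subgroupOf (Q ⊔ K) = M := by
    rw [← hMJ]
    exact comap_map_eq_self_of_injective (Q ⊔ K).subtype_injective M
  refine ⟨J, hJn, hQJ, hJS.le, fun e => hJS.not_ge (sup_le hQJ e), hcomm, ?_, ?_⟩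
  · rw [relIndex, hsub, hM3]
  · intro x hx
    have h1 := M.pow_index_mem ⟨x, hx⟩
    rw [hM3, ← hsub] at h1
    exact h1

/-- QB (from QA) -/
theorem le_of_frattini {G : Type u} [Group G] [Finite G] {p : ℕ} (hp : p.Prime)
    (hG : IsPGroup p G) (Q K : Subgroup G) [Q.Normal] [K.Normal]
    (h : K ≤ Q ⊔ (⁅K, (⊤ : Subgroup G)⁆ ⊔ pths p K)) : K ≤ Q := by
  by_contra hcon
  obtain ⟨J, hJn, hQJ, hJS, hKJ, hcomm, -, hpow⟩ := exists_J hp hG Q K hcon
  refine hKJ (h.trans (sup_le hQJ (sup_le ?_ ?_)))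
  · exact (commutator_mono le_sup_right le_rfl).trans hcomm
  · unfold pths
    rw [closure_le]
    rintro z ⟨s, hs, rfl⟩
    exact hpow s (mem_sup_right hs)

end Pool.Agent.PWR
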