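import Pool.Agent.PWR.QA

/-!
# Commutators with a subgroup that centralises all small elementary abelian sections
-/

set_option autoImplicit false

namespace Pool.Agent.PWR

open Subgroup
open scoped commutatorElement

universe u

/-- the subgroup generated by the `p`-th powers of a normal subgroup is normal -/
private theorem qc_pths_normal {G : Type u} [Group G] (p : ℕ) (N : Subgroup G) (hN : N.Normal) :
    (pths p N).Normal := by
  unfold pths
  refine ⟨fun n hn g => ?_⟩
  have h1 : ∀ z ∈ closure {z | ∃ s ∈ N, s ^ p = z}, g * z * g⁻¹ ∈ closure {z | ∃ s ∈ N, s ^ p = z} := by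
    intro z hz
    induction hz using Subgroup.closure_induction with
    | mem x hx =>
      obtain ⟨s, hs, rfl⟩ := hx
      exact subset_closure ⟨g * s * g⁻¹, hN.conj_mem s hs g, conj_pow⟩
    | one => rw [mul_one, mul_inv_cancel]; exact one_mem _
    | mul x y _ _ hx hy =>
      have : g * (x * y) * g⁻¹ = (g * x * g⁻¹) * (g * y * g⁻¹) := by group
      rw [this]
      exact mul_mem hx hy
    | inv x _ hx =>
      have : g * x⁻¹ * g⁻¹ = (g * x * g⁻¹)⁻¹ := by group
      rw [this]
      exact inv_mem hx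
  exact h1 n hn

private theorem qc_pths_le {G : Type u} [Group G] (p : ℕ) (N : Subgroup G) : pths p N ≤ N := by
  unfold pths
  rw [closure_le]
  rintro _ ⟨s, hs, rfl⟩
  exact pow_mem hs p

/-- commutator modulo `J` -/
private theorem qc_comm_iff {G : Type u} [Group G] (A B J : Subgroup G) [J.Normal] :
    ⁅A, B⁆ ≤ J ↔ A.map (QuotientGroup.mk' J) ≤ centralizer (B.map (QuotientGroup.mk' J)) := by
  rw [← commutator_eq_bot_iff_le_centralizer, ← map_commutator, Subgroup.map_eq_bot_iff,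
    QuotientGroup.ker_mk']

/-- a central subgroup with a cyclic extension -/
private theorem qc_abelian {G : Type u} [Group G] (M V J : Subgroup G) [J.Normal] (x : G)
    (hMV : ⁅M, V⁆ ≤ J) (h1 : M ⊔ zpowers x ≤ V) :
    ⁅M ⊔ zpowers x, M ⊔ zpowers x⁆ ≤ J := by
  rw [qc_comm_iff] at hMV ⊢
  have hM : M.map (QuotientGroup.mk' J) ≤
      centralizer ((M ⊔ zpowers x).map (QuotientGroup.mk' J)) :=
    hMV.trans (centralizer_le (by exact_mod_cast map_mono h1))
  rw [Subgroup.map_sup]
  refine sup_le ?_ ?_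
  · rw [← Subgroup.map_sup]; exact hM
  · rw [le_centralizer_iff, sup_le_iff]
    constructor
    · refine hM.trans (centralizer_le ?_)
      exact_mod_cast map_mono le_sup_right
    · rw [MonoidHom.map_zpowers]
      intro y hy
      rw [mem_centralizer_iff]
      intro z hz
      obtain ⟨i, rfl⟩ := mem_zpowers_iff.1 hy
      obtain ⟨j, rfl⟩ := mem_zpowers_iff.1 hz
      rw [← zpow_add, ← zpow_add, add_comm]

private theorem qc_pos {G : Type u} [Group G] [Finite G] (A B : Subgroup G) :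
    0 < A.relIndex B :=
  Nat.pos_of_ne_zero (index_ne_zero_of_finite (H := A.subgroupOf B))

/-- QC (from QA) -/
theorem comm_le_pths {G : Type u} [Group G] [Finite G] {p : ℕ} (hp : p.Prime)
    (hG : IsPGroup p G) {r : ℕ} (V N : Subgroup G) [V.Normal] [N.Normal] (hV : VP p r V)
    (hNV : N ≤ V) (hd : (phi p N).relIndex N ≤ p ^ r) : ⁅N, V⁆ ≤ pths p N := by
  by_contra hK
  have hQn : (pths p N).Normal := qc_pths_normal p N inferInstance
  obtain ⟨J, hJn, hQJ, hJW, hKJ, hWJ, hind, -⟩ := exists_J hp hG (pths p N) ⁅N, V⁆ hK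
  have hW : pths p N ⊔ ⁅N, V⁆ ≤ N := sup_le (qc_pths_le p N) (commutator_le_left N V)
  have hJN : J ≤ N := hJW.trans hW
  -- the largest normal subgroup which is central modulo `J`
  obtain ⟨M, hM⟩ := Set.Finite.exists_maximal
    (s := {M : Subgroup G | M.Normal ∧ J ≤ M ∧ M ≤ N ∧ ⁅M, V⁆ ≤ J}) (Set.toFinite _)
    ⟨J, hJn, le_rfl, hJN, (commutator_le_left J V)⟩
  obtain ⟨⟨hMn, hJM, hMN, hMV⟩, hmax⟩ := hM
  have hne : ¬ N ≤ M := by
    intro h
    apply hKJ
    exact (commutator_mono h le_rfl).trans hMV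
  -- a minimal normal subgroup above `M`
  obtain ⟨M1, hM1⟩ := Set.Finite.exists_minimal
    (s := {L : Subgroup G | L.Normal ∧ M ≤ L ∧ L ≤ N ∧ ¬ L ≤ M}) (Set.toFinite _)
    ⟨N, inferInstance, hMN, le_rfl, hne⟩
  obtain ⟨⟨hM1n, hMM1, hM1N, hM1M⟩, hmin⟩ := hM1
  obtain ⟨J', hJ'n, h1, h2, h3, h4, h5, -⟩ := exists_J hp hG M M1 hM1M
  rw [sup_eq_right.2 hMM1] at h2 h4 h5
  have hJ'M : J' = M := by
    by_contra hc
    have h6 : ¬ J' ≤ M := fun h => hc (le_antisymm h h1)
    exact h3 (hmin ⟨hJ'n, h1, h2.trans hM1N, h6⟩ h2)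
  rw [hJ'M] at h5
  -- `M1 = M ⟨x⟩`
  obtain ⟨x, hx1, hx2⟩ := Set.not_subset.1 hM1M
  have hM1x : M ⊔ zpowers x = M1 := by
    refine le_antisymm (sup_le hMM1 ?_) ?_
    · rw [zpowers_le]; exact hx1
    · have h6 : M.relIndex (M ⊔ zpowers x) * (M ⊔ zpowers x).relIndex M1 = p := by
        rw [relIndex_mul_relIndex _ _ _ le_sup_left (sup_le hMM1 (by rw [zpowers_le]; exact hx1)), h5]
      rcases (Nat.dvd_prime hp).1 ⟨_, h6.symm⟩ with h7 | h7
      · exfalso
        rw [relIndex_eq_one] at h7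
        exact hx2 (h7 (mem_sup_right (mem_zpowers x)))
      · rw [h7] at h6
        have h8 : (M ⊔ zpowers x).relIndex M1 = 1 :=
          Nat.eq_of_mul_eq_mul_left hp.pos (by rw [h6, mul_one])
        rwa [relIndex_eq_one] at h8
  have hab : ⁅M1, M1⁆ ≤ J := by
    have := qc_abelian M V J x hMV (by rw [hM1x]; exact hM1N.trans hNV)
    rwa [hM1x] at this
  have hphi : phi p M1 ≤ J := by
    refine sup_le ?_ hab
    refine le_trans ?_ hQJ
    unfold pths
    exact closure_mono fun z ⟨s, hs, hz⟩ => ⟨s, hM1N hs, hz⟩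
  -- the index
  have hcard : J.relIndex M1 ≤ p ^ r := by
    have e1 : J.relIndex M1 * M1.relIndex N = J.relIndex N :=
      relIndex_mul_relIndex _ _ _ (hJM.trans hMM1) hM1N
    have pos1 : 0 < M1.relIndex N := qc_pos _ _
    by_cases hN2 : ⁅N, N⁆ ≤ J
    · have h6 : phi p N ≤ J := sup_le hQJ hN2
      have e2 : (phi p N).relIndex J * J.relIndex N = (phi p N).relIndex N :=
        relIndex_mul_relIndex _ _ _ h6 hJN
      have pos2 : 0 < (phi p N).relIndex J := qc_pos _ _
      calc J.relIndex M1 ≤ J.relIndex M1 * M1.relIndex N := Nat.le_mul_of_pos_right _ pos1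
        _ = J.relIndex N := e1
        _ ≤ (phi p N).relIndex J * J.relIndex N := Nat.le_mul_of_pos_left _ pos2
        _ = (phi p N).relIndex N := e2
        _ ≤ p ^ r := hd
    · have h6 : phi p N ≤ pths p N ⊔ ⁅N, V⁆ :=
        sup_le le_sup_left ((commutator_mono le_rfl hNV).trans le_sup_right)
      have e2 : (phi p N).relIndex (pths p N ⊔ ⁅N, V⁆) * (pths p N ⊔ ⁅N, V⁆).relIndex N =
          (phi p N).relIndex N := relIndex_mul_relIndex _ _ _ h6 hW
      have e3 : J.relIndex (pths p N ⊔ ⁅N, V⁆) * (pths p N ⊔ ⁅N, V⁆).relIndex N =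
          J.relIndex N := relIndex_mul_relIndex _ _ _ hJW hW
      have pos2 : 0 < (phi p N).relIndex (pths p N ⊔ ⁅N, V⁆) :=
        qc_pos _ _
      have h7 : (pths p N ⊔ ⁅N, V⁆).relIndex N ≤ p ^ r := by
        calc (pths p N ⊔ ⁅N, V⁆).relIndex N ≤ _ := Nat.le_mul_of_pos_left _ pos2
          _ = (phi p N).relIndex N := e2
          _ ≤ p ^ r := hd
      have h8 : p ≤ M1.relIndex N := by
        have : Fact p.Prime := ⟨hp⟩
        obtain ⟨n, hn⟩ := IsPGroup.iff_card.1 (hG.to_subgroup N)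
        have h9 : M1.relIndex N ∣ p ^ n := by
          rw [← hn]
          exact relIndex_dvd_card M1 N
        obtain ⟨k, -, hk⟩ := (Nat.dvd_prime_pow hp).1 h9
        have hk0 : k ≠ 0 := by
          rintro rfl
          rw [pow_zero, relIndex_eq_one] at hk
          apply hN2
          exact (commutator_mono hk hk).trans hab
        rw [hk]
        calc p = p ^ 1 := (pow_one p).symm
          _ ≤ p ^ k := Nat.pow_le_pow_right hp.pos (by omega)
      rw [hind] at e3
      have h9 : J.relIndex M1 * p ≤ p ^ r * p := by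
        calc J.relIndex M1 * p ≤ J.relIndex M1 * M1.relIndex N := Nat.mul_le_mul_left _ h8
          _ = p * (pths p N ⊔ ⁅N, V⁆).relIndex N := by rw [e1, e3]
          _ ≤ p * p ^ r := Nat.mul_le_mul_left _ h7
          _ = p ^ r * p := mul_comm _ _
      exact Nat.le_of_mul_le_mul_right h9 hp.pos
  -- the contradiction
  have h6 := hV M1 J ⟨hM1n, hJn, hJM.trans hMM1, hphi, hcard⟩
  exact hM1M (hmax ⟨hM1n, hJM.trans hMM1, hM1N, h6⟩ hMM1)

end Pool.Agent.PWR
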