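import Pool.Agent.PWR.QB

set_option autoImplicit false

namespace Pool.Agent.PWR

open Subgroup
open scoped commutatorElement

universe u

theorem qd_pths_normal {G : Type u} [Group G] (p : ℕ) (N : Subgroup G) [hN : N.Normal] :
    (pths p N).Normal := by
  constructor
  intro n hn g
  unfold pths at hn ⊢
  induction hn using closure_induction with
  | mem x hx =>
    obtain ⟨s, hs, rfl⟩ := hx
    exact subset_closure ⟨g * s * g⁻¹, hN.conj_mem s hs g, by rw [conj_pow]⟩
  | one => simp
  | mul x y _ _ hx hy =>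
    have : g * (x * y) * g⁻¹ = (g * x * g⁻¹) * (g * y * g⁻¹) := by group
    rw [this]
    exact mul_mem hx hy
  | inv x _ hx =>
    have : g * x⁻¹ * g⁻¹ = (g * x * g⁻¹)⁻¹ := by group
    rw [this]
    exact inv_mem hx

theorem qd_pths_le {G : Type u} [Group G] (p : ℕ) (N : Subgroup G) : pths p N ≤ N := by
  unfold pths
  rw [closure_le]
  rintro _ ⟨s, hs, rfl⟩
  exact pow_mem hs p

theorem qd_phi_normal {G : Type u} [Group G] (p : ℕ) (N : Subgroup G) [N.Normal] :
    (phi p N).Normal := by
  haveI := qd_pths_normal p N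
  unfold phi
  infer_instance

theorem qd_phi_le {G : Type u} [Group G] (p : ℕ) (N : Subgroup G) [N.Normal] : phi p N ≤ N := by
  unfold phi
  exact sup_le (qd_pths_le p N) (commutator_le_left N N)

/-- QD (from QB) -/
theorem comm_le_pths_two {G : Type u} [Group G] [Finite G] (hG : IsPGroup 2 G) {r : ℕ}
    (V N : Subgroup G) [V.Normal] [N.Normal] (hV : VP 2 r V) (hNV : N ≤ pths 2 V)
    (hd : (phi 2 N).relIndex N ≤ 2 ^ r) : ⁅N, pths 2 V⁆ ≤ pths 4 N := by
  haveI hWn := qd_pths_normal 2 V
  haveI hQn := qd_pths_normal 4 N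
  haveI hPn := qd_phi_normal 2 N
  set W := pths 2 V with hW
  have hNVphi : ⁅N, V⁆ ≤ phi 2 N :=
    hV N (phi 2 N) ⟨inferInstance, inferInstance, qd_phi_le 2 N, le_rfl, hd⟩
  set K := ⁅N, W⁆ with hK
  haveI hKn : K.Normal := by rw [hK]; infer_instance
  haveI hK2 := qd_pths_normal 2 K
  refine le_of_frattini Nat.prime_two hG (pths 4 N) K ?_
  set T := pths 4 N ⊔ (⁅K, (⊤ : Subgroup G)⁆ ⊔ pths 2 K) with hT
  haveI hTn : T.Normal := by rw [hT]; infer_instance
  have hKN : K ≤ N := commutator_le_left N W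
  have hKW : K ≤ W := hKN.trans hNV
  have mT : ∀ g : G, g ∈ T ↔ (g : G ⧸ T) = 1 := fun g => (QuotientGroup.eq_one_iff g).symm
  -- F1
  have F1 : ∀ k ∈ K, ∀ g : G, (k : G ⧸ T) * (g : G ⧸ T) = (g : G ⧸ T) * (k : G ⧸ T) := by
    intro k hk g
    have h1 : ⁅k, g⁆ ∈ T := by
      rw [hT]
      exact mem_sup_right (mem_sup_left (commutator_mem_commutator hk (mem_top g)))
    rw [mT, commutatorElement_def] at h1
    simp only [QuotientGroup.mk_mul, QuotientGroup.mk_inv] at h1
    rw [mul_inv_eq_one, mul_inv_eq_iff_eq_mul] at h1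
    exact h1
  -- F2
  have F2 : ∀ k ∈ K, (k : G ⧸ T) ^ 2 = 1 := by
    intro k hk
    rw [← QuotientGroup.mk_pow, ← mT, hT]
    exact mem_sup_right (mem_sup_right (subset_closure ⟨k, hk, rfl⟩))
  -- F3
  have F3 : ∀ x ∈ N, (x : G ⧸ T) ^ 4 = 1 := by
    intro k hk
    rw [← QuotientGroup.mk_pow, ← mT, hT]
    exact mem_sup_left (subset_closure ⟨k, hk, rfl⟩)
  have hcm : ∀ a b : G, (a : G ⧸ T) * b = (⁅a, b⁆ : G) * b * a := by
    intro a b
    rw [commutatorElement_def]
    simp only [QuotientGroup.mk_mul, QuotientGroup.mk_inv]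
    group
  -- F5
  have F5 : ∀ x ∈ N, ∀ w ∈ W, (x : G ⧸ T) ^ 2 * w = w * (x : G ⧸ T) ^ 2 := by
    intro x hx w hw
    have hk : ⁅x, w⁆ ∈ K := commutator_mem_commutator hx hw
    set k := ⁅x, w⁆ with hkd
    have e := hcm x w
    rw [← hkd] at e
    calc (x : G ⧸ T) ^ 2 * w = x * (x * w) := by rw [pow_two, mul_assoc]
      _ = x * (k * w * x) := by rw [e]
      _ = (x * k) * w * x := by simp only [mul_assoc]
      _ = (k * x) * w * x := by rw [F1 k hk x]
      _ = k * (x * w) * x := by simp only [mul_assoc]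
      _ = k * (k * w * x) * x := by rw [e]
      _ = (k : G ⧸ T) ^ 2 * w * x ^ 2 := by simp only [mul_assoc, pow_two]
      _ = w * (x : G ⧸ T) ^ 2 := by rw [F2 k hk, one_mul]
  -- F6
  have F6 : ∀ c ∈ phi 2 N, c ∈ W ∧ (∀ w ∈ W, (c : G ⧸ T) * w = w * c) ∧ (c : G ⧸ T) ^ 2 = 1 := by
    let D : Subgroup G :=
      { carrier := {c | c ∈ W ∧ (∀ w ∈ W, (c : G ⧸ T) * w = w * c) ∧ (c : G ⧸ T) ^ 2 = 1}
        mul_mem' := by
          rintro a b ⟨a1, a2, a3⟩ ⟨b1, b2, b3⟩
          refine ⟨mul_mem a1 b1, fun w hw => ?_, ?_⟩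
          · rw [QuotientGroup.mk_mul, mul_assoc, b2 w hw, ← mul_assoc, a2 w hw, mul_assoc]
          · rw [QuotientGroup.mk_mul, (show Commute (a : G ⧸ T) b from a2 b b1).mul_pow, a3, b3,
              one_mul]
        one_mem' := ⟨one_mem _, fun w hw => by simp, by simp⟩
        inv_mem' := by
          rintro a ⟨a1, a2, a3⟩
          refine ⟨inv_mem a1, fun w hw => ?_, ?_⟩
          · rw [QuotientGroup.mk_inv]
            exact (show Commute (a : G ⧸ T) w from a2 w hw).inv_left
          · rw [QuotientGroup.mk_inv, inv_pow, a3, inv_one] }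
    have hD : phi 2 N ≤ D := by
      unfold phi
      refine sup_le ?_ ?_
      · unfold pths
        rw [closure_le]
        rintro _ ⟨x, hx, rfl⟩
        refine ⟨hNV (pow_mem hx 2), fun w hw => ?_, ?_⟩
        · rw [QuotientGroup.mk_pow]
          exact F5 x hx w hw
        · rw [QuotientGroup.mk_pow, ← pow_mul]
          exact F3 x hx
      · intro k hk
        have hk' : k ∈ K := commutator_mono le_rfl hNV hk
        exact ⟨hKW hk', fun w _ => F1 k hk' w, F2 k hk'⟩
    intro c hc
    exact hD hc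
  -- F7
  have F7 : ∀ c ∈ phi 2 N, ∀ v ∈ V, (c : G ⧸ T) * v = v * c := by
    let E : Subgroup G :=
      { carrier := {c | ∀ v ∈ V, (c : G ⧸ T) * v = v * c}
        mul_mem' := by
          intro a b a2 b2 w hw
          rw [QuotientGroup.mk_mul, mul_assoc, b2 w hw, ← mul_assoc, a2 w hw, mul_assoc]
        one_mem' := fun w hw => by simp
        inv_mem' := by
          intro a a2 w hw
          rw [QuotientGroup.mk_inv]
          exact (show Commute (a : G ⧸ T) w from a2 w hw).inv_left }
    have hE : phi 2 N ≤ E := by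
      unfold phi
      refine sup_le ?_ ?_
      · unfold pths
        rw [closure_le]
        rintro _ ⟨x, hx, rfl⟩ v hv
        have hc : ⁅x, v⁆ ∈ phi 2 N := hNVphi (commutator_mem_commutator hx hv)
        set c := ⁅x, v⁆ with hcd
        obtain ⟨c1, c2, c3⟩ := F6 c hc
        have e := hcm x v
        rw [← hcd] at e
        rw [QuotientGroup.mk_pow]
        calc (x : G ⧸ T) ^ 2 * v = x * (x * v) := by rw [pow_two, mul_assoc]
          _ = x * (c * v * x) := by rw [e]
          _ = (x * c) * v * x := by simp only [mul_assoc]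
          _ = (c * x) * v * x := by rw [c2 x (hNV hx)]
          _ = c * (x * v) * x := by simp only [mul_assoc]
          _ = c * (c * v * x) * x := by rw [e]
          _ = (c : G ⧸ T) ^ 2 * v * x ^ 2 := by simp only [mul_assoc, pow_two]
          _ = v * (x : G ⧸ T) ^ 2 := by rw [c3, one_mul]
      · intro k hk v _
        exact F1 k (commutator_mono le_rfl hNV hk) v
    intro c hc
    exact hE hc
  -- F8
  rw [hK, commutator_le]
  intro n hn w hw
  rw [hW] at hw
  have key : ∀ w ∈ pths 2 V, (n : G ⧸ T) * w = w * n := by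
    intro w hw
    unfold pths at hw
    induction hw using closure_induction with
    | mem x hx =>
      obtain ⟨v, hv, rfl⟩ := hx
      have hc : ⁅n, v⁆ ∈ phi 2 N := hNVphi (commutator_mem_commutator hn hv)
      set c := ⁅n, v⁆ with hcd
      obtain ⟨c1, c2, c3⟩ := F6 c hc
      have e := hcm n v
      rw [← hcd] at e
      rw [QuotientGroup.mk_pow]
      calc (n : G ⧸ T) * v ^ 2 = (n * v) * v := by rw [pow_two, mul_assoc]
        _ = (c * v * n) * v := by rw [e]
        _ = c * v * (n * v) := by simp only [mul_assoc]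
        _ = c * v * (c * v * n) := by rw [e]
        _ = c * (v * c) * v * n := by simp only [mul_assoc]
        _ = c * (c * v) * v * n := by rw [F7 c hc v hv]
        _ = (c : G ⧸ T) ^ 2 * v ^ 2 * n := by simp only [mul_assoc, pow_two]
        _ = v ^ 2 * n := by rw [c3, one_mul]
    | one => simp
    | mul x y _ _ hx hy =>
      rw [QuotientGroup.mk_mul, ← mul_assoc, hx, mul_assoc, hy, mul_assoc]
    | inv x _ hx =>
      rw [QuotientGroup.mk_inv]
      exact (show Commute (n : G ⧸ T) x from hx).inv_right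
  rw [mT, commutatorElement_def]
  simp only [QuotientGroup.mk_mul, QuotientGroup.mk_inv]
  rw [key w hw]
  group

end Pool.Agent.PWR
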