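import Pool.Agent.PWR.TDefs
import Pool.Agent.PWR.PA

/-!
Squares of subgroups that centralise modulo the fourth powers (`p = 2`).
-/

set_option autoImplicit false

namespace Pool.Agent.PWR

open Subgroup
open scoped commutatorElement

universe u

theorem TA_le {G : Type u} [Group G] {X N : Subgroup G} (h : X ≤ N) (p : ℕ) :
    pths p X ≤ N := by
  unfold pths
  rw [Subgroup.closure_le]
  rintro _ ⟨s, hs, rfl⟩
  exact N.pow_mem (h hs) p

/-- if `[n, g]` commutes with `n` and has order dividing `2` modulo `T`, for all `n ∈ X` and all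
`g`, then the squares of the elements of `X` are central modulo `T` -/
theorem TA_sq {G : Type u} [Group G] (T X : Subgroup G) [T.Normal]
    (h1 : ∀ n ∈ X, ∀ g : G, QuotientGroup.mk' T (n⁻¹ * g⁻¹ * n * g) * QuotientGroup.mk' T n =
      QuotientGroup.mk' T n * QuotientGroup.mk' T (n⁻¹ * g⁻¹ * n * g))
    (h2 : ∀ n ∈ X, ∀ g : G, QuotientGroup.mk' T (n⁻¹ * g⁻¹ * n * g) ^ 2 = 1) :
    ⁅pths 2 X, (⊤ : Subgroup G)⁆ ≤ T := by
  rw [PA_le_iff]
  unfold pths
  rw [Subgroup.closure_le]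
  rintro _ ⟨n, hn, rfl⟩
  change n ^ 2 ∈ (center (G ⧸ T)).comap (QuotientGroup.mk' T)
  rw [Subgroup.mem_comap, Subgroup.mem_center_iff]
  intro y
  obtain ⟨g, rfl⟩ := QuotientGroup.mk'_surjective T y
  have e1 := h1 n hn g
  have e2 := h2 n hn g
  obtain ⟨v, hv⟩ : ∃ v, v = n⁻¹ * g⁻¹ * n * g := ⟨_, rfl⟩
  rw [← hv] at e1 e2
  have h3 : n ^ 2 * g = g * (n * v) ^ 2 := by
    rw [hv, pow_two, pow_two]
    group
  have h4 : QuotientGroup.mk' T ((n * v) ^ 2) = QuotientGroup.mk' T (n ^ 2) := by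
    rw [map_pow, map_mul, map_pow]
    have h5 : Commute (QuotientGroup.mk' T n) (QuotientGroup.mk' T v) := e1.symm
    rw [h5.mul_pow, e2, mul_one]
  rw [← map_mul, ← map_mul, h3, map_mul, map_mul, h4]

/-- TA -/
theorem pe_step2 {G : Type u} [Group G] [Finite G] (hG : IsPGroup 2 G) (N : Subgroup G) [N.Normal]
    (hN : ⁅N, (⊤ : Subgroup G)⁆ ≤ pths 2 (pths 2 N)) :
    ⁅pths 2 N, (⊤ : Subgroup G)⁆ ≤ pths 2 (pths 2 (pths 2 N)) := by
  have : Fact (Nat.Prime 2) := ⟨Nat.prime_two⟩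
  have : Group.IsNilpotent G := hG.isNilpotent
  have hN1n : (pths 2 N).Normal := PA_pths_normal 2 N
  have hN2n : (pths 2 (pths 2 N)).Normal := PA_pths_normal 2 (pths 2 N)
  have hN3n : (pths 2 (pths 2 (pths 2 N))).Normal := PA_pths_normal 2 (pths 2 (pths 2 N))
  obtain ⟨N1, hN1⟩ : ∃ M, M = pths 2 N := ⟨_, rfl⟩
  rw [← hN1] at hN hN1n hN2n hN3n ⊢
  obtain ⟨N2, hN2⟩ : ∃ M, M = pths 2 N1 := ⟨_, rfl⟩
  rw [← hN2] at hN hN2n hN3n ⊢
  refine PA_nil _ _ ?_
  obtain ⟨K, hK⟩ : ∃ K, K = ⁅N1, (⊤ : Subgroup G)⁆ := ⟨_, rfl⟩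
  have hKn : K.Normal := by
    rw [hK]
    infer_instance
  rw [← hK]
  obtain ⟨T, hT⟩ : ∃ T, T = pths 2 N2 ⊔ ⁅K, (⊤ : Subgroup G)⁆ := ⟨_, rfl⟩
  have hTn : T.Normal := by
    rw [hT]
    infer_instance
  rw [← hT]
  have hN1N : N1 ≤ N := by
    rw [hN1]
    exact TA_le le_rfl 2
  have hKN2 : K ≤ N2 := by
    rw [hK]
    exact (Subgroup.commutator_mono hN1N le_rfl).trans hN
  have hsq : ∀ z ∈ N2, QuotientGroup.mk' T z ^ 2 = 1 := by
    intro z hz
    rw [← map_pow]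
    refine (QuotientGroup.eq_one_iff _).2 ?_
    rw [hT]
    exact Subgroup.mem_sup_left (Subgroup.subset_closure ⟨z, hz, rfl⟩)
  have hcen : ∀ X : Subgroup G, ⁅X, (⊤ : Subgroup G)⁆ ≤ T → ∀ z ∈ X, ∀ n : G,
      QuotientGroup.mk' T z * QuotientGroup.mk' T n =
        QuotientGroup.mk' T n * QuotientGroup.mk' T z := by
    intro X hX z hz n
    rw [PA_le_iff] at hX
    have h2 := hX hz
    rw [Subgroup.mem_comap, Subgroup.mem_center_iff] at h2
    exact (h2 _).symm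
  have hcomm : ∀ (X : Subgroup G) (n g : G), n ∈ X →
      n⁻¹ * g⁻¹ * n * g ∈ ⁅X, (⊤ : Subgroup G)⁆ := by
    intro X n g hn
    have h1 := Subgroup.commutator_mem_commutator (inv_mem hn) (Subgroup.mem_top g⁻¹)
    have h2 : ⁅n⁻¹, g⁻¹⁆ = n⁻¹ * g⁻¹ * n * g := by
      rw [commutatorElement_def]
      group
    rwa [h2] at h1
  have hKT : ⁅K, (⊤ : Subgroup G)⁆ ≤ T := by
    rw [hT]
    exact le_sup_right
  -- the squares of the elements of `N1` are central modulo `T`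
  have hN2T : ⁅N2, (⊤ : Subgroup G)⁆ ≤ T := by
    rw [hN2]
    refine TA_sq T N1 (fun n hn g => ?_) (fun n hn g => ?_)
    · refine hcen K hKT _ ?_ n
      rw [hK]
      exact hcomm N1 n g hn
    · refine hsq _ (hKN2 ?_)
      rw [hK]
      exact hcomm N1 n g hn
  -- the squares of the elements of `N` are central modulo `T`
  rw [hK, hN1]
  refine TA_sq T N (fun n hn g => ?_) (fun n hn g => ?_)
  · exact hcen N2 hN2T _ (hN (hcomm N n g hn)) n
  · exact hsq _ (hN (hcomm N n g hn))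

end Pool.Agent.PWR
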