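import Pool.Agent.PWR.TDefs
import Pool.Agent.PWR.PE
import Pool.Agent.PWR.TA

set_option autoImplicit false

namespace Pool.Agent.PWR

open Subgroup
open scoped commutatorElement

universe u

section

variable {G : Type u} [Group G] [Finite G] (hG : IsPGroup 2 G) (hP : Powerful2 G)

include hG hP

/-- TE (from TA by induction) -/
theorem qs_comm2 (i : ℕ) : ⁅qs 2 G i, (⊤ : Subgroup G)⁆ ≤ qs 2 G (i + 2) := by
  induction i with
  | zero =>
    refine le_trans hP ?_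
    unfold pw
    rw [closure_le]
    rintro _ ⟨y, rfl⟩
    have h1 : y ^ 2 ∈ qs 2 G 1 := subset_closure ⟨y, mem_top y, rfl⟩
    refine subset_closure ⟨y ^ 2, h1, ?_⟩
    rw [← pow_mul]
    norm_num
  | succ i ih =>
    have := qs_normal (G := G) 2 i
    exact pe_step2 hG (qs 2 G i) ih

/-- TC (from TE) -/
theorem qs_mul_pow2 (i : ℕ) (x y : G) (hy : y ∈ qs 2 G i) :
    ∃ q ∈ qs 2 G (i + 2), (x * y) ^ 2 = x ^ 2 * y ^ 2 * q := by
  have hn := qs_normal (G := G) 2 (i + 2)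
  have h1 : x⁻¹ * y * x * y⁻¹ ∈ qs 2 G (i + 2) := by
    refine qs_comm2 hG hP i ?_
    rw [commutator_comm]
    have := commutator_mem_commutator (H₁ := (⊤ : Subgroup G)) (H₂ := qs 2 G i)
      (mem_top x⁻¹) hy
    rwa [commutatorElement_def, inv_inv] at this
  refine ⟨(y ^ 2)⁻¹ * (x⁻¹ * y * x * y⁻¹) * ((y ^ 2)⁻¹)⁻¹, hn.conj_mem _ h1 _, ?_⟩
  rw [pow_two, pow_two, pow_two]
  group

end

end Pool.Agent.PWR
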