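import Pool.Agent.PWR.PE
import Pool.Agent.PWR.TE

set_option autoImplicit false

namespace Pool.Agent.PWR

open Subgroup
open scoped commutatorElement

universe u


section

variable {G : Type u} [Group G] [Finite G] (hG : IsPGroup 2 G) (hP : Powerful2 G)

include hG hP

/-- the elements of `Q_(i+1)` are `y ^ 2 * q`, `y` in `Q_i` and `q` in `Q_(i+2)` -/
theorem td_mem (i : ℕ) (z : G) (hz : z ∈ qs 2 G (i + 1)) :
    ∃ y ∈ qs 2 G i, ∃ q ∈ qs 2 G (i + 2), z = y ^ 2 * q := by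
  have hn : (qs 2 G (i + 2)).Normal := qs_normal 2 (i + 2)
  have hz' : z ∈ closure {z | ∃ s ∈ qs 2 G i, s ^ 2 = z} := hz
  induction hz' using closure_induction with
  | mem x hx =>
    obtain ⟨s, hs, rfl⟩ := hx
    exact ⟨s, hs, 1, one_mem _, (mul_one _).symm⟩
  | one => exact ⟨1, one_mem _, 1, one_mem _, by simp⟩
  | mul a b ha hb iha ihb =>
    obtain ⟨y1, hy1, q1, hq1, rfl⟩ := iha ha
    obtain ⟨y2, hy2, q2, hq2, rfl⟩ := ihb hb
    obtain ⟨q3, hq3, h3⟩ := qs_mul_pow2 hG hP i y1 y2 hy2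
    refine ⟨y1 * y2, mul_mem hy1 hy2, q3⁻¹ * ((y2 ^ 2)⁻¹ * q1 * (y2 ^ 2)) * q2, ?_, ?_⟩
    · refine mul_mem (mul_mem (inv_mem hq3) ?_) hq2
      have := hn.conj_mem q1 hq1 (y2 ^ 2)⁻¹
      rwa [inv_inv] at this
    · rw [h3]
      group
  | inv a ha iha =>
    obtain ⟨y, hy, q, hq, rfl⟩ := iha ha
    refine ⟨y⁻¹, inv_mem hy, y ^ 2 * q⁻¹ * (y ^ 2)⁻¹, hn.conj_mem _ (inv_mem hq) _, ?_⟩
    rw [inv_pow]
    group

/-- TD1 (from TC, as PD) -/
theorem qs_exists2 (i : ℕ) (x z : G) (hz : z ∈ qs 2 G (i + 1)) :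
    ∃ m ∈ qs 2 G i, x ^ 2 * z = (x * m) ^ 2 := by
  obtain ⟨n, hn⟩ := qs_bot (G := G) Nat.prime_two hG
  have hbot : ∀ k, n ≤ k → qs 2 G k = ⊥ := by
    intro k hk
    induction k, hk using Nat.le_induction with
    | base => exact hn
    | succ k _ ih => exact le_bot_iff.1 ((qs_succ_le 2 k).trans ih.le)
  have key : ∀ d i : ℕ, n ≤ i + 1 + d → ∀ x z : G, z ∈ qs 2 G (i + 1) →
      ∃ m ∈ qs 2 G i, x ^ 2 * z = (x * m) ^ 2 := by
    intro d
    induction d with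
    | zero =>
      intro i hi x z hz
      rw [hbot (i + 1) hi, mem_bot] at hz
      exact ⟨1, one_mem _, by rw [hz, mul_one, mul_one]⟩
    | succ d ih =>
      intro i hi x z hz
      obtain ⟨y, hy, q, hq, rfl⟩ := td_mem hG hP i z hz
      obtain ⟨q1, hq1, h1⟩ := qs_mul_pow2 hG hP i x y hy
      obtain ⟨m, hm, h2⟩ := ih (i + 1) (by omega) (x * y) (q1⁻¹ * q) (mul_mem (inv_mem hq1) hq)
      refine ⟨y * m, mul_mem hy (qs_succ_le 2 i hm), ?_⟩
      rw [← mul_assoc x y m, ← h2, h1]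
      group
  exact key n i (by omega) x z hz

/-- TD2 -/
theorem mem_qs_add2 (i j : ℕ) (z : G) :
    z ∈ qs 2 G (i + j) ↔ ∃ x ∈ qs 2 G i, x ^ 2 ^ j = z := by
  induction j generalizing z with
  | zero =>
    rw [pow_zero, add_zero]
    exact ⟨fun h => ⟨z, h, pow_one z⟩, fun ⟨x, hx, h⟩ => by rw [← h, pow_one]; exact hx⟩
  | succ j ih =>
    constructor
    · intro hz
      obtain ⟨m, hm, h⟩ := qs_exists2 hG hP (i + j) 1 z hz
      obtain ⟨x, hx, rfl⟩ := (ih m).1 hm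
      refine ⟨x, hx, ?_⟩
      rw [one_pow, one_mul, one_mul] at h
      rw [h, ← pow_mul, pow_succ]
    · rintro ⟨x, hx, rfl⟩
      rw [pow_succ, pow_mul]
      exact subset_closure ⟨x ^ 2 ^ j, (ih _).2 ⟨x, hx, rfl⟩, rfl⟩

end

end Pool.Agent.PWR
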