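import Pool.Agent.PWR.PF
import Pool.Agent.PWR.TE
import Pool.Agent.PWR.TD

/-! Row TF: `p = 2`, the subgroups generated by `u` and `Q_1`; quotients. -/

set_option autoImplicit false

namespace Pool.Agent.PWR

open Subgroup
open scoped commutatorElement

universe u

/-- TF4 -/
theorem Powerful2.quotient {G : Type u} [Group G] (hP : Powerful2 G) (N : Subgroup G) [N.Normal] :
    Powerful2 (G ⧸ N) := by
  unfold Powerful2 at hP ⊢
  have h1 : _root_.commutator (G ⧸ N) = (_root_.commutator G).map (QuotientGroup.mk' N) := by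
    rw [_root_.commutator_def, _root_.commutator_def, Subgroup.map_commutator,
      Subgroup.map_top_of_surjective _ (QuotientGroup.mk'_surjective N)]
  rw [h1]
  refine (Subgroup.map_mono hP).trans ?_
  rw [Subgroup.map_le_iff_le_comap]
  unfold pw
  rw [closure_le]
  rintro z ⟨y, rfl⟩
  exact subset_closure ⟨QuotientGroup.mk' N y, (map_pow _ _ _).symm⟩

section

variable {G : Type u} [Group G] [Finite G] (hG : IsPGroup 2 G) (hP : Powerful2 G)

include hG hP

/-- TF1 -/
theorem vu_proper2 (u : G) :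
    (∀ a b : G, a * b = b * a) ∨ closure (insert u (qs 2 G 1 : Set G)) < ⊤ := by
  by_cases hu : zpowers u = ⊤
  · left
    intro a b
    have ha : a ∈ zpowers u := by rw [hu]; exact mem_top a
    have hb : b ∈ zpowers u := by rw [hu]; exact mem_top b
    obtain ⟨k, rfl⟩ := mem_zpowers_iff.1 ha
    obtain ⟨l, rfl⟩ := mem_zpowers_iff.1 hb
    rw [← zpow_add, ← zpow_add, add_comm]
  · right
    obtain ⟨M, hM, hMt, hMp⟩ := pf_max Nat.prime_two hG hu
    refine lt_of_le_of_lt ?_ (lt_top_iff_ne_top.2 hMt)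
    rw [closure_le]
    rintro z (rfl | hz)
    · exact hM (mem_zpowers z)
    · have h1 : qs 2 G 1 ≤ M := by
        show pths 2 ⊤ ≤ M
        unfold pths
        rw [closure_le]
        rintro y ⟨s, _, rfl⟩
        exact hMp s
      exact h1 hz

theorem tf_powerful {V : Subgroup G} (hV : qs 2 G 1 ≤ V) (h : ⁅V, V⁆ ≤ qs 2 G 3) :
    Powerful2 V := by
  unfold Powerful2
  have h0 : qs 2 G 3 ≤ (pw 2 V 2).map V.subtype := by
    intro z hz
    obtain ⟨x, hx, rfl⟩ := (mem_qs_add2 hG hP 1 2 z).1 hz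
    exact ⟨⟨x, hV hx⟩ ^ 2 ^ 2, subset_closure ⟨⟨x, hV hx⟩, rfl⟩, rfl⟩
  have h1 : (_root_.commutator V).map V.subtype ≤ (pw 2 V 2).map V.subtype := by
    rw [Subgroup.map_subtype_commutator]
    exact h.trans h0
  exact (Subgroup.map_le_map_iff_of_injective V.subtype_injective).1 h1

/-- TF2 -/
theorem vu_powerful2 (u : G) : Powerful2 ↥(closure (insert u (qs 2 G 1 : Set G))) := by
  have h2 : ⁅qs 2 G 1, (⊤ : Subgroup G)⁆ ≤ qs 2 G 3 := qs_comm2 hG hP 1
  refine tf_powerful hG hP (fun z hz => subset_closure (Set.mem_insert_of_mem _ hz)) ?_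
  refine comm_closure (qs 2 G 3) _ ?_ ?_
  · intro h _ t ht
    exact (qs_normal 2 3).conj_mem t ht h
  · intro a ha b hb
    rcases ha with rfl | ha
    · rcases hb with rfl | hb
      · rw [commutatorElement_self]
        exact one_mem _
      · rw [← commutatorElement_inv]
        exact inv_mem (h2 (commutator_mem_commutator hb (mem_top _)))
    · exact h2 (commutator_mem_commutator ha (mem_top _))

/-- TF3 -/
theorem q1_powerful2 : Powerful2 ↥(qs 2 G 1) := by
  have h2 : ⁅qs 2 G 1, (⊤ : Subgroup G)⁆ ≤ qs 2 G 3 := qs_comm2 hG hP 1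
  exact tf_powerful hG hP le_rfl ((commutator_mono le_rfl le_top).trans h2)

end

end Pool.Agent.PWR
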