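import Pool.Agent.PWR.PE
import Pool.Agent.PWR.TE
import Pool.Agent.PWR.TD

set_option autoImplicit false

namespace Pool.Agent.PWR

open Subgroup
open scoped commutatorElement

universe u


section

variable {G : Type u} [Group G] [Finite G] (hG : IsPGroup 2 G) (hP : Powerful2 G)

include hG hP

theorem TG1A_key (hV : ∀ u : G, KT ↥(closure (insert u (qs 2 G 1 : Set G)))) (y v : G)
    (hv : v ∈ qs 2 G 2) (hy : y ^ 2 = 1) (h : y⁻¹ * v * y = v⁻¹) (j : ℕ) :
    v ^ 2 ∈ qs 2 G (j + 3) := by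
  have anti : Antitone (qs 2 G) := antitone_nat_of_succ_le (qs_succ_le 2)
  induction j with
  | zero => exact subset_closure ⟨v, hv, rfl⟩
  | succ j ih =>
    obtain ⟨m, hm, hm2⟩ := qs_exists2 hG hP (j + 2) v (v ^ 2)⁻¹ (inv_mem ih)
    rw [mul_inv_cancel] at hm2
    have hs : v * m ∈ qs 2 G 2 := mul_mem hv (anti (by omega : 2 ≤ j + 2) hm)
    obtain ⟨w, hw, hws⟩ := (mem_qs_add2 hG hP 1 1 (v * m)).1 hs
    rw [pow_one] at hws
    have hc := (hV y).k1 ⟨w, subset_closure (Or.inr hw)⟩ ⟨y, subset_closure (Or.inl rfl)⟩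
      (Subtype.ext (by
        show w ^ 2 ^ 2 = 1
        rw [pow_two 2, pow_mul, hws, ← hm2])) (Subtype.ext hy)
    have h1 : w ^ 2 * y = y * w ^ 2 := congrArg Subtype.val hc.eq
    rw [hws] at h1
    have h2 : v ^ 2 = y⁻¹ * m * y * m⁻¹ := by
      have a1 : y⁻¹ * (v * m) * y = v * m := by
        rw [mul_assoc, h1, inv_mul_cancel_left]
      have a2 : (y⁻¹ * v * y) * (y⁻¹ * m * y) = v * m := by
        rw [← a1]; group
      rw [h] at a2
      have a3 : y⁻¹ * m * y = v * (v * m) := by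
        rw [← a2, mul_inv_cancel_left]
      rw [a3, pow_two]; group
    have h3 := qs_comm2 hG hP (j + 2)
    rw [commutator_comm] at h3
    have h4 := h3 (commutator_mem_commutator (mem_top y⁻¹) hm)
    rw [commutatorElement_def, inv_inv] at h4
    rw [h2]
    exact h4

/-- TG1A -/
theorem kt_inv (hV : ∀ u : G, KT ↥(closure (insert u (qs 2 G 1 : Set G)))) (y v : G)
    (hv : v ∈ qs 2 G 2) (hy : y ^ 2 = 1) (h : y⁻¹ * v * y = v⁻¹) : v ^ 2 = 1 := by
  have anti : Antitone (qs 2 G) := antitone_nat_of_succ_le (qs_succ_le 2)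
  obtain ⟨m, hm⟩ := qs_bot Nat.prime_two hG
  have h1 := anti (by omega : m ≤ m + 3) (TG1A_key hG hP hV y v hv hy h m)
  rw [hm, mem_bot] at h1
  exact h1

end

end Pool.Agent.PWR
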