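import Pool.Agent.PWR.TE
import Pool.Agent.PWR.TD
import Pool.Agent.PWR.TG1A

set_option autoImplicit false

namespace Pool.Agent.PWR

open Subgroup
open scoped commutatorElement

universe u

section

variable {G : Type u} [Group G] [Finite G] (hG : IsPGroup 2 G) (hP : Powerful2 G)

include hG hP

/-- TG1 -/
theorem kt_k1 (hV : ∀ u : G, KT ↥(closure (insert u (qs 2 G 1 : Set G))))
    (h2 : ∀ x y : G, x ^ 2 ^ 3 = 1 → y ^ 2 ^ 2 = 1 → Commute (x ^ 2 ^ 2) y) (x y : G)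
    (hx : x ^ 2 ^ 2 = 1) (hy : y ^ 2 = 1) : Commute (x ^ 2) y := by
  have hyy : y * y = 1 := by rw [← pow_two]; exact hy
  have hyi : y⁻¹ = y := inv_eq_of_mul_eq_one_left hyy
  set v : G := x⁻¹ * y⁻¹ * x * y with hv
  have hvQ : v ∈ qs 2 G 2 := by
    have h := qs_comm2 hG hP 0
      (commutator_mem_commutator (mem_top x⁻¹ : x⁻¹ ∈ qs 2 G 0) (mem_top y⁻¹))
    rw [commutatorElement_def, inv_inv, inv_inv] at h
    exact h
  have hvy : y⁻¹ * v * y = v⁻¹ := by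
    calc y⁻¹ * v * y = y⁻¹ * x⁻¹ * y⁻¹ * x * (y * y) := by rw [hv]; group
      _ = y⁻¹ * x⁻¹ * y * x := by rw [hyy, mul_one, hyi]
      _ = v⁻¹ := by rw [hv]; group
  have hv2 : v ^ 2 = 1 := kt_inv hG hP hV y v hvQ hy hvy
  obtain ⟨n, -, hn⟩ := (mem_qs_add2 hG hP 0 2 v).1 (by rw [zero_add]; exact hvQ)
  have hvx : Commute v x := by
    have := h2 n x (by rw [pow_succ 2 2, pow_mul, hn, hv2]) hx
    rwa [hn] at this
  have hxv : x * v = y⁻¹ * x * y := by rw [hv]; group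
  have h3 : (x * v) ^ 2 = x ^ 2 := by rw [hvx.symm.mul_pow, hv2, mul_one]
  have h4 : (y⁻¹ * x * y) ^ 2 = y⁻¹ * x ^ 2 * y := by
    have := conj_pow (i := 2) (a := y⁻¹) (b := x)
    rwa [inv_inv] at this
  rw [hxv, h4] at h3
  show x ^ 2 * y = y * x ^ 2
  calc x ^ 2 * y = y * (y⁻¹ * x ^ 2 * y) := by group
    _ = y * x ^ 2 := by rw [h3]

end

end Pool.Agent.PWR
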