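import Pool.Agent.PWR.TDefs
import Pool.Agent.PWR.PE
import Pool.Agent.PWR.TE
import Pool.Agent.PWR.TD

/-! Row TG2. -/

set_option autoImplicit false

namespace Pool.Agent.PWR

open Subgroup
open scoped commutatorElement

universe u

section

variable {G : Type u} [Group G] [Finite G] (hG : IsPGroup 2 G) (hP : Powerful2 G)

include hG hP

/-- TG2 -/
theorem kt_k2 (hN : KT ↥(qs 2 G 1))
    (hV : ∀ u : G, KT ↥(closure (insert u (qs 2 G 1 : Set G))))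
    (hQ : ∀ R : Subgroup G, ∀ _ : R.Normal, R ≠ ⊥ → KT (G ⧸ R)) (x y : G)
    (hx : x ^ 2 ^ 3 = 1) (hy : y ^ 2 ^ 2 = 1) : Commute (x ^ 2 ^ 2) y := by
  have hn1 : (qs 2 G 1).Normal := qs_normal 2 1
  have hpow : ∀ g : G, g ^ 2 ∈ qs 2 G 1 := fun g =>
    Subgroup.subset_closure ⟨g, Subgroup.mem_top g, rfl⟩
  have e2 : ∀ g : G, g ^ 2 ^ 2 = (g ^ 2) ^ 2 := fun g => by rw [← pow_mul]; norm_num
  have e3 : ∀ g : G, g ^ 2 ^ 3 = (g ^ 2 ^ 2) ^ 2 := fun g => by rw [← pow_mul]; norm_num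
  have e3' : ∀ g : G, g ^ 2 ^ 3 = (g ^ 2) ^ 2 ^ 2 := fun g => by rw [← pow_mul]; norm_num
  have hcomm : ∀ a b : G, a ∈ qs 2 G 1 → a ^ 2 = 1 → b ∈ qs 2 G 1 → b ^ 2 = 1 →
      a * b = b * a := by
    intro a b ha ha' hb hb'
    have h0 : a ∈ qs 2 G (0 + 1) := ha
    obtain ⟨w, _, hw⟩ := (mem_qs_add2 hG hP 0 1 a).mp h0
    rw [pow_one] at hw
    have h1 := (hV w).k1 ⟨w, Subgroup.subset_closure (Set.mem_insert _ _)⟩
      ⟨b, Subgroup.subset_closure (Set.mem_insert_of_mem _ hb)⟩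
      (Subtype.ext (by
        show w ^ 2 ^ 2 = 1
        rw [e2, hw, ha']))
      (Subtype.ext (by
        show b ^ 2 = 1
        exact hb'))
    have h2 := congrArg Subtype.val h1.eq
    have h3 : w ^ 2 * b = b * w ^ 2 := h2
    rwa [hw] at h3
  let R : Subgroup G :=
    { carrier := {z | z ∈ qs 2 G 1 ∧ z ^ 2 = 1}
      one_mem' := ⟨one_mem _, one_pow 2⟩
      mul_mem' := by
        rintro a b ⟨ha, ha'⟩ ⟨hb, hb'⟩
        refine ⟨mul_mem ha hb, ?_⟩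
        have h1 : Commute a b := hcomm a b ha ha' hb hb'
        rw [h1.mul_pow, ha', hb', one_mul]
      inv_mem' := by
        rintro a ⟨ha, ha'⟩
        exact ⟨inv_mem ha, by rw [inv_pow, ha', inv_one]⟩ }
  have hRmem : ∀ z : G, z ∈ R ↔ z ∈ qs 2 G 1 ∧ z ^ 2 = 1 := fun z => Iff.rfl
  have hRn : R.Normal := by
    refine ⟨fun z hz g => ?_⟩
    rw [hRmem] at hz ⊢
    exact ⟨hn1.conj_mem z hz.1 g, by rw [conj_pow, hz.2]; simp⟩
  have hxR : x ^ 2 ^ 2 ∈ R := ⟨by rw [e2]; exact hpow _, by rw [← e3]; exact hx⟩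
  have hyR : y ^ 2 ∈ R := ⟨hpow _, by rw [← e2]; exact hy⟩
  by_cases hR : R = ⊥
  · rw [hR, Subgroup.mem_bot] at hxR
    rw [hxR]
    exact Commute.one_left y
  have hk := (hQ R hRn hR).k1 (x : G ⧸ R) (y : G ⧸ R)
    (by rw [← QuotientGroup.mk_pow]; exact (QuotientGroup.eq_one_iff _).mpr hxR)
    (by rw [← QuotientGroup.mk_pow]; exact (QuotientGroup.eq_one_iff _).mpr hyR)
  set X : G := x ^ 2 with hX
  set e : G := X⁻¹ * (y⁻¹ * X * y) with he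
  have heR : e ∈ R := by
    rw [← QuotientGroup.eq_one_iff]
    have h1 : ((X : G) : G ⧸ R) = (x : G ⧸ R) ^ 2 := by rw [hX, QuotientGroup.mk_pow]
    have h2 : ((y : G ⧸ R))⁻¹ * (X : G ⧸ R) * (y : G ⧸ R) = (X : G ⧸ R) := by
      rw [h1, mul_assoc, hk.eq, inv_mul_cancel_left]
    rw [he, QuotientGroup.mk_mul, QuotientGroup.mk_mul, QuotientGroup.mk_mul,
      QuotientGroup.mk_inv, QuotientGroup.mk_inv, h2, inv_mul_cancel]
  have hXe : y⁻¹ * X * y = X * e := by rw [he]; group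
  have hX1 : X ∈ qs 2 G 1 := hpow x
  have he3 : e ∈ qs 2 G (1 + 2) := by
    have h1 : ⁅X⁻¹, y⁻¹⁆ ∈ qs 2 G (1 + 2) :=
      qs_comm2 hG hP 1 (Subgroup.commutator_mem_commutator (inv_mem hX1)
        (Subgroup.mem_top _))
    have h2 : ⁅X⁻¹, y⁻¹⁆ = e := by rw [commutatorElement_def, he]; group
    rwa [h2] at h1
  obtain ⟨n, hn, hne⟩ := (mem_qs_add2 hG hP 1 2 e).mp he3
  have c1 : Commute X e := by
    have h1 := hN.k2 ⟨n, hn⟩ ⟨X, hX1⟩
      (Subtype.ext (by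
        show n ^ 2 ^ 3 = 1
        rw [e3, hne, heR.2]))
      (Subtype.ext (by
        show X ^ 2 ^ 2 = 1
        rw [hX, ← e3', hx]))
    have h2 := congrArg Subtype.val h1.eq
    have h3 : n ^ 2 ^ 2 * X = X * n ^ 2 ^ 2 := h2
    rw [hne] at h3
    exact h3.symm
  have h1 : (X * e) ^ 2 = X ^ 2 := by rw [c1.mul_pow, heR.2, mul_one]
  rw [← hXe] at h1
  have h2 : (y⁻¹ * X * y) ^ 2 = y⁻¹ * X ^ 2 * y := by
    have := conj_pow (i := 2) (a := y⁻¹) (b := X)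
    rwa [inv_inv] at this
  rw [h2] at h1
  have h3 : X ^ 2 * y = y * X ^ 2 := by
    have := congrArg (fun z => y * z) h1
    rw [← mul_assoc, ← mul_assoc, mul_inv_cancel, one_mul] at this
    exact this
  rw [e2]
  exact h3

end

end Pool.Agent.PWR
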