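import Pool.Agent.PWR.PG
import Pool.Agent.PWR.TF
import Pool.Agent.PWR.TG1
import Pool.Agent.PWR.TG2

set_option autoImplicit false

namespace Pool.Agent.PWR

open Subgroup
open scoped commutatorElement

universe u

theorem tg_comm {G : Type u} [Group G] (h : ∀ a b : G, a * b = b * a) : KT G where
  k1 := fun _ _ _ _ => h _ _
  k2 := fun _ _ _ _ => h _ _

theorem kt_all (n : ℕ) :
    ∀ (G : Type u) [Group G] [Finite G], Nat.card G = n → IsPGroup 2 G → Powerful2 G → KT G := by
  induction n using Nat.strong_induction_on with
  | _ n ih =>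
    intro G _ _ hn hG hP
    by_cases hc : ∀ a b : G, a * b = b * a
    · exact tg_comm hc
    · have hV : ∀ u : G, KT ↥(closure (insert u (qs 2 G 1 : Set G))) := by
        intro u
        rcases vu_proper2 hG hP u with h | h
        · exact absurd h hc
        · refine ih _ ?_ _ rfl (hG.to_subgroup _) (vu_powerful2 hG hP u)
          rw [← hn]
          exact pg_card_lt h
      have hN : KT ↥(qs 2 G 1) := by
        refine ih _ ?_ _ rfl (hG.to_subgroup _) (q1_powerful2 hG hP)
        rcases vu_proper2 hG hP 1 with h | h
        · exact absurd h hc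
        · rw [← hn]
          refine pg_card_lt (lt_of_le_of_lt ?_ h)
          exact fun x hx => subset_closure (Set.mem_insert_of_mem _ hx)
      have hQ : ∀ R : Subgroup G, ∀ _ : R.Normal, R ≠ ⊥ → KT (G ⧸ R) := by
        intro R hRn hR
        refine ih _ ?_ _ rfl (hG.to_quotient _) (Powerful2.quotient hP R)
        rw [← hn]
        exact pg_quotient_or R hR
      have h2 := kt_k2 hG hP hN hV hQ
      have h1 := kt_k1 hG hP hV h2
      exact ⟨h1, h2⟩

end Pool.Agent.PWR
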