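import Pool.Agent.PWR.TF
import Pool.Agent.PWR.TD
import Pool.Agent.PWR.TG

set_option autoImplicit false

namespace Pool.Agent.PWR

open Subgroup
open scoped commutatorElement

universe u

theorem ti1_sq {G : Type u} [Group G] [Finite G] (hG : IsPGroup 2 G) (hP : Powerful2 G) (z : G) :
    z ∈ qs 2 G 1 ↔ ∃ a : G, a ^ 2 = z := by
  have h := mem_qs_add2 hG hP 0 1 z
  rw [zero_add] at h
  rw [h]
  constructor
  · rintro ⟨a, -, ha⟩
    exact ⟨a, by rw [← ha, pow_one]⟩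
  · rintro ⟨a, ha⟩
    exact ⟨a, mem_top a, by rw [pow_one]; exact ha⟩

/-- the subgroup of the elements `z` of `Q_1` with `z ^ 2 = 1` -/
def ti1_om {G : Type u} [Group G] [Finite G] (hG : IsPGroup 2 G) (hP : Powerful2 G)
    (h : KT G) : Subgroup G where
  carrier := {z | z ∈ qs 2 G 1 ∧ z ^ 2 = 1}
  one_mem' := ⟨one_mem _, one_pow 2⟩
  mul_mem' := by
    rintro z w ⟨hz, hz2⟩ ⟨hw, hw2⟩
    refine ⟨mul_mem hz hw, ?_⟩
    obtain ⟨a, rfl⟩ := (ti1_sq hG hP z).1 hz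
    have h4 : a ^ 2 ^ 2 = 1 := by
      rw [show (2 : ℕ) ^ 2 = 2 * 2 from rfl, pow_mul]
      exact hz2
    have hc := h.k1 a w h4 hw2
    rw [hc.mul_pow, hz2, hw2, one_mul]
  inv_mem' := by
    rintro z ⟨hz, hz2⟩
    exact ⟨inv_mem hz, by rw [inv_pow, hz2, inv_one]⟩

theorem ti1_mul (j : ℕ) :
    ∀ (G : Type u) [Group G] [Finite G], IsPGroup 2 G → Powerful2 G → ∀ x y : G,
      x ∈ qs 2 G 1 → y ∈ qs 2 G 1 → x ^ 2 ^ j = 1 → y ^ 2 ^ j = 1 → (x * y) ^ 2 ^ j = 1 := by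
  induction j with
  | zero =>
    intro G _ _ _ _ x y _ _ hx hy
    rw [pow_zero, pow_one] at hx hy ⊢
    rw [hx, hy, one_mul]
  | succ j ih =>
    intro G _ _ hG hP x y hxq hyq hx hy
    let N : Subgroup G := ti1_om hG hP (kt_all _ G rfl hG hP)
    have hN : ∀ z : G, z ∈ N ↔ z ∈ qs 2 G 1 ∧ z ^ 2 = 1 := fun z => Iff.rfl
    haveI : N.Normal := ⟨fun n hn g => by
      rw [hN] at hn ⊢
      refine ⟨(qs_normal (G := G) 2 1).conj_mem n hn.1 g, ?_⟩
      rw [conj_pow, hn.2, mul_one, mul_inv_cancel]⟩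
    have key : ∀ z : G, z ∈ qs 2 G 1 → (z ^ 2 ^ (j + 1) = 1 ↔ ((z : G ⧸ N)) ^ 2 ^ j = 1) := by
      intro z hz
      rw [← QuotientGroup.mk_pow, QuotientGroup.eq_one_iff, hN, ← pow_mul, ← pow_succ]
      exact ⟨fun h => ⟨pow_mem hz _, h⟩, fun h => h.2⟩
    have hGN := hG.to_quotient N
    have hPN := hP.quotient N
    have hq : ∀ z : G, z ∈ qs 2 G 1 → (z : G ⧸ N) ∈ qs 2 (G ⧸ N) 1 := by
      intro z hz
      obtain ⟨a, rfl⟩ := (ti1_sq hG hP z).1 hz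
      exact (ti1_sq hGN hPN _).2 ⟨(a : G ⧸ N), by rw [← QuotientGroup.mk_pow]⟩
    rw [key x hxq] at hx
    rw [key y hyq] at hy
    rw [key _ (mul_mem hxq hyq), QuotientGroup.mk_mul]
    exact ih (G ⧸ N) hGN hPN _ _ (hq x hxq) (hq y hyq) hx hy

section

variable {G : Type u} [Group G] [Finite G] (hG : IsPGroup 2 G) (hP : Powerful2 G)

include hG hP

/-- TI1 (induction on `j` for all `G`, quotient by `omq G 1`; `j = 1` from KT.k1) -/
theorem mem_omq_iff (j : ℕ) (x : G) : x ∈ omq G j ↔ x ∈ qs 2 G 1 ∧ x ^ 2 ^ j = 1 := by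
  constructor
  · intro hx
    unfold omq at hx
    induction hx using Subgroup.closure_induction with
    | mem y hy => exact hy
    | one => exact ⟨one_mem _, one_pow _⟩
    | mul a b _ _ ha hb =>
      exact ⟨mul_mem ha.1 hb.1, ti1_mul j G hG hP a b ha.1 hb.1 ha.2 hb.2⟩
    | inv a _ ha => exact ⟨inv_mem ha.1, by rw [inv_pow, ha.2, inv_one]⟩
  · intro hx
    exact Subgroup.subset_closure hx

end

end Pool.Agent.PWR
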