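import Pool.Agent.PWR.PI2

set_option autoImplicit false

namespace Pool.Agent.PWR

open Subgroup

universe u

theorem PI2_qs_map {G H : Type u} [Group G] [Group H] (f : G →* H)
    (hf : Function.Surjective f) (p i : ℕ) : (qs p G i).map f = qs p H i :=
  pi2_map_qs f hf i

theorem PI2_card_map {G H : Type u} [Group G] [Group H] (f : G →* H) (X : Subgroup G) :
    Nat.card (X.map f) * Nat.card ↥(X ⊓ f.ker) = Nat.card X := by
  have h1 := (f.comp X.subtype).ker.card_eq_card_quotient_mul_card_subgroup
  have h2 : Nat.card (X ⧸ (f.comp X.subtype).ker) = Nat.card (X.map f) := by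
    rw [Nat.card_congr (QuotientGroup.quotientKerEquivRange (f.comp X.subtype)).toEquiv,
      MonoidHom.range_comp, range_subtype]
  have h3 : Nat.card (f.comp X.subtype).ker = Nat.card ↥(X ⊓ f.ker) := by
    have h4 : (f.comp X.subtype).ker = f.ker.subgroupOf X := rfl
    rw [h4, ← inf_subgroupOf_left]
    exact Nat.card_congr (subgroupOfEquivOfLe inf_le_left).toEquiv
  rw [h1, h2, h3]

end Pool.Agent.PWR
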