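import Pool.Agent.PWR.PE
import Pool.Agent.PWR.TH
import Pool.Agent.PWR.TI1
import Pool.Agent.PWR.TF
import Pool.Agent.PWR.TM

set_option autoImplicit false

namespace Pool.Agent.PWR

open Subgroup
open scoped commutatorElement

universe u


theorem TI2_normal {G : Type u} [Group G] (j : ℕ) : (omq G j).Normal := by
  refine normal_closure_conj _ ?_
  rintro x ⟨hx, hx2⟩ g
  exact ⟨(qs_normal 2 1).conj_mem x hx g, by rw [conj_pow, hx2, mul_one, mul_inv_cancel]⟩

theorem TI2_main (j : ℕ) :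
    ∀ (G : Type u) [Group G] [Finite G], IsPGroup 2 G → Powerful2 G → ∀ i : ℕ, 1 ≤ i →
      Nat.card ↥(qs 2 G i ⊓ omq G j) * Nat.card (qs 2 G (i + j)) = Nat.card (qs 2 G i) := by
  induction j with
  | zero =>
    intro G _ _ hG hP i hi
    have h0 : omq G 0 = ⊥ := by
      rw [omq, closure_eq_bot_iff]
      rintro x ⟨_, hx⟩
      simpa using hx
    rw [h0, inf_bot_eq, Nat.add_zero, Subgroup.card_bot, one_mul]
  | succ j ih =>
    intro G _ _ hG hP i hi
    have hNn : (omq G 1).Normal := TI2_normal 1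
    have anti : Antitone (qs 2 G) := antitone_nat_of_succ_le (qs_succ_le 2)
    have anti' : Antitone (qs 2 (G ⧸ omq G 1)) := antitone_nat_of_succ_le (qs_succ_le 2)
    have hπ := QuotientGroup.mk'_surjective (omq G 1)
    have hker : (QuotientGroup.mk' (omq G 1)).ker = omq G 1 := QuotientGroup.ker_mk' _
    have ihN := ih (G ⧸ omq G 1) (hG.to_quotient _) (hP.quotient _) i hi
    have h1 : ∀ k, 1 ≤ k → Nat.card (qs 2 (G ⧸ omq G 1) k) = Nat.card (qs 2 G (k + 1)) := by
      intro k hk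
      have a1 := PI2_card_map (QuotientGroup.mk' (omq G 1)) (qs 2 G k)
      rw [PI2_qs_map _ hπ, hker] at a1
      have a2 := card_q_omq1 hG hP k hk
      have a3 : 0 < Nat.card ↥(qs 2 G k ⊓ omq G 1) := Nat.card_pos
      exact Nat.eq_of_mul_eq_mul_right a3 (by rw [a1, mul_comm, a2])
    have h2 : qs 2 (G ⧸ omq G 1) i ⊓ omq (G ⧸ omq G 1) j =
        (qs 2 G i ⊓ omq G (j + 1)).map (QuotientGroup.mk' (omq G 1)) := by
      ext z
      constructor
      · rintro ⟨hz1, hz2⟩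
        rw [SetLike.mem_coe, ← PI2_qs_map _ hπ] at hz1
        obtain ⟨y, hy, rfl⟩ := hz1
        refine ⟨y, ⟨hy, ?_⟩, rfl⟩
        have h5 := ((mem_omq_iff (hG.to_quotient (omq G 1)) (hP.quotient (omq G 1)) j _).1 hz2).2
        rw [← map_pow] at h5
        have h6 : y ^ 2 ^ j ∈ (QuotientGroup.mk' (omq G 1)).ker := h5
        rw [hker, mem_omq_iff hG hP 1, pow_one, ← pow_mul, ← pow_succ] at h6
        exact (mem_omq_iff hG hP (j + 1) y).2 ⟨anti hi hy, h6.2⟩
      · rintro ⟨y, ⟨hy1, hy2⟩, rfl⟩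
        have hyq : QuotientGroup.mk' (omq G 1) y ∈ qs 2 (G ⧸ omq G 1) i := by
          rw [← PI2_qs_map _ hπ]
          exact mem_map_of_mem _ hy1
        refine ⟨hyq, ?_⟩
        refine (mem_omq_iff (hG.to_quotient (omq G 1)) (hP.quotient (omq G 1)) j _).2
          ⟨anti' hi hyq, ?_⟩
        have h6 := (mem_omq_iff hG hP (j + 1) y).1 hy2
        rw [← map_pow]
        show y ^ 2 ^ j ∈ (QuotientGroup.mk' (omq G 1)).ker
        rw [hker, mem_omq_iff hG hP 1, pow_one, ← pow_mul, ← pow_succ]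
        exact ⟨pow_mem h6.1 _, h6.2⟩
    have h3 := PI2_card_map (QuotientGroup.mk' (omq G 1)) (qs 2 G i ⊓ omq G (j + 1))
    have h4 : qs 2 G i ⊓ omq G (j + 1) ⊓ omq G 1 = qs 2 G i ⊓ omq G 1 := by
      rw [inf_assoc]
      congr 1
      refine inf_eq_right.2 ?_
      intro x hx
      rw [mem_omq_iff hG hP] at hx ⊢
      rw [pow_one] at hx
      exact ⟨hx.1, by rw [pow_succ, mul_comm, pow_mul, hx.2, one_pow]⟩
    rw [← h2, hker, h4] at h3
    rw [h1 _ hi, h1 _ (by omega)] at ihN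
    have h5 := card_q_omq1 hG hP i hi
    have h6 : i + (j + 1) = i + j + 1 := rfl
    rw [h6, ← h3, ← h5, ← ihN]
    ring

/-- TI2 -/
theorem card_q_omq {G : Type u} [Group G] [Finite G] (hG : IsPGroup 2 G) (hP : Powerful2 G)
    (i j : ℕ) (hi : 1 ≤ i) :
    Nat.card ↥(qs 2 G i ⊓ omq G j) * Nat.card (qs 2 G (i + j)) = Nat.card (qs 2 G i) :=
  TI2_main j G hG hP i hi

end Pool.Agent.PWR
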