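import Pool.Agent.PWR.TDefs
import Pool.Agent.PWR.PJ
import Pool.Agent.PWR.TE

set_option autoImplicit false

namespace Pool.Agent.PWR

open Subgroup
open scoped commutatorElement

universe u

section

variable {G : Type u} [Group G] [Finite G] (hG : IsPGroup 2 G) (hP : Powerful2 G)

include hG hP

/-- TJ -/
theorem qs_comm_qs2 (i j : ℕ) : ⁅qs 2 G i, qs 2 G j⁆ ≤ qs 2 G (i + j) := by
  have hc : ∀ k, ⁅qs 2 G k, (⊤ : Subgroup G)⁆ ≤ qs 2 G (k + 1) := fun k =>
    le_trans (qs_comm2 hG hP k) (qs_succ_le 2 (k + 1))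
  induction i with
  | zero =>
    rw [Nat.zero_add, commutator_comm]
    refine le_trans (commutator_mono le_rfl le_top) ?_
    exact le_trans (hc j) (qs_succ_le 2 j)
  | succ i ih =>
    haveI := qs_normal (G := G) 2 (i + 1 + j)
    have e : i + 1 + j = (i + j) + 1 := by omega
    refine pj_step 2 _ (qs 2 G (i + j)) (qs 2 G i) (qs 2 G j) ?_ ?_ ih
    · rw [e]; exact hc (i + j)
    · rw [e]; exact le_rfl

end

end Pool.Agent.PWR
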