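import Pool.Agent.PWR.PE
import Pool.Agent.PWR.TJ
import Pool.Agent.PWR.TI2

/-! Row TK: the subgroup generated by the squares of a powerful `2`-group is power regular. -/

set_option autoImplicit false

namespace Pool.Agent.PWR

open Subgroup
open scoped commutatorElement

universe u

section

variable {G : Type u} [Group G] [Finite G] (hG : IsPGroup 2 G) (hP : Powerful2 G)

omit [Finite G] in
theorem tk_om (j : ℕ) : (om 2 ↥(qs 2 G 1) j).map (qs 2 G 1).subtype = omq G j := by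
  unfold om omq
  rw [MonoidHom.map_closure]
  congr 1
  ext z
  constructor
  · rintro ⟨x, hx, rfl⟩
    exact ⟨x.2, by
      have := congrArg Subtype.val (show x ^ 2 ^ j = 1 from hx)
      simpa using this⟩
  · rintro ⟨hz, h⟩
    exact ⟨⟨z, hz⟩, Subtype.ext (by simpa using h), rfl⟩

include hG hP

theorem tk_pw (i : ℕ) : (pw 2 ↥(qs 2 G 1) i).map (qs 2 G 1).subtype = qs 2 G (1 + i) := by
  apply le_antisymm
  · unfold pw
    rw [MonoidHom.map_closure, closure_le]
    rintro z ⟨x, ⟨y, rfl⟩, rfl⟩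
    exact (mem_qs_add2 hG hP 1 i _).2 ⟨y, y.2, by simp⟩
  · intro z hz
    obtain ⟨x, hx, rfl⟩ := (mem_qs_add2 hG hP 1 i z).1 hz
    exact ⟨⟨x, hx⟩ ^ 2 ^ i, subset_closure ⟨⟨x, hx⟩, rfl⟩, rfl⟩

/-- TK: the subgroup generated by the squares is power regular -/
theorem q1_powerRegular : PowerRegular 2 ↥(qs 2 G 1) := by
  have hinj : Function.Injective (qs 2 G 1).subtype := (qs 2 G 1).subtype_injective
  refine ⟨fun i j _ _ => ?_, fun i j _ _ => ?_⟩
  · rw [← Subgroup.map_le_map_iff_of_injective hinj, Subgroup.map_commutator, tk_pw hG hP,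
      tk_pw hG hP, tk_pw hG hP]
    refine (qs_comm_qs2 hG hP (1 + i) (1 + j)).trans ?_
    have h : 1 + i + (1 + j) = 1 + (i + j) + 1 := by omega
    rw [h]
    exact qs_succ_le 2 _
  · have h1 := card_q_omq hG hP (1 + i) j (by omega)
    have e1 : Nat.card ((pw 2 ↥(qs 2 G 1) i ⊓ om 2 ↥(qs 2 G 1) j).map (qs 2 G 1).subtype) =
        Nat.card ↥(pw 2 ↥(qs 2 G 1) i ⊓ om 2 ↥(qs 2 G 1) j) :=
      Subgroup.card_map_of_injective hinj
    have e2 : Nat.card ((pw 2 ↥(qs 2 G 1) (i + j)).map (qs 2 G 1).subtype) =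
        Nat.card (pw 2 ↥(qs 2 G 1) (i + j)) := Subgroup.card_map_of_injective hinj
    have e3 : Nat.card ((pw 2 ↥(qs 2 G 1) i).map (qs 2 G 1).subtype) =
        Nat.card (pw 2 ↥(qs 2 G 1) i) := Subgroup.card_map_of_injective hinj
    rw [Subgroup.map_inf _ _ _ hinj, tk_pw hG hP, tk_om] at e1
    rw [tk_pw hG hP] at e2 e3
    rw [← e1, ← e2, ← e3, ← add_assoc]
    exact h1

end

end Pool.Agent.PWR
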