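import Pool.Agent.PWR.TF
import Pool.Agent.PWR.TK

set_option autoImplicit false

namespace Pool.Agent.PWR

open Subgroup
open scoped commutatorElement

universe u

/-- a section of a subgroup is a section -/
theorem HasAbSection.of_subgroup {G : Type u} [Group G] (N : Subgroup G) {P : ℕ → Prop}
    (h : HasAbSection N P) : HasAbSection G P := by
  obtain ⟨K, H, h1, h2, h3, h4⟩ := h
  refine ⟨K.map N.subtype, H.map N.subtype, map_mono h1, ?_, ?_, ?_⟩
  · refine ⟨fun n hn g => ?_⟩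
    obtain ⟨⟨_, ⟨n0, hn0, rfl⟩⟩, g', hg'⟩ : ∃ n' : H.map N.subtype, ∃ g' : H.map N.subtype,
        n' = n ∧ g' = g := ⟨n, g, rfl, rfl⟩
    obtain ⟨hn1, rfl⟩ := hg'
    subst hn1
    obtain ⟨g0, hg0, hg1⟩ := g'.2
    obtain ⟨m, hm, hm1⟩ := (mem_subgroupOf.1 hn)
    have hmn : m = n0 := N.subtype_injective hm1
    subst hmn
    have h5 := h2.conj_mem ⟨m, hn0⟩ (mem_subgroupOf.2 hm) ⟨g0, hg0⟩
    rw [mem_subgroupOf] at h5
    rw [mem_subgroupOf]
    refine ⟨_, h5, ?_⟩
    simp only [← hg1, Subgroup.coe_mul, Subgroup.coe_inv, map_mul, map_inv]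
  · rintro _ ⟨a, ha, rfl⟩ _ ⟨b, hb, rfl⟩
    refine ⟨_, h3 a ha b hb, ?_⟩
    simp only [map_mul, map_inv]
  · rw [relIndex_map_map_of_injective _ _ N.subtype_injective]
    exact h4

section

variable {G : Type u} [Group G] [Finite G] (hG : IsPGroup 2 G) (hP : Powerful2 G)

include hG hP

theorem powerful2_q1 :
    HasAbSection G fun n => Nat.card G ≤ n ^ 11 ∧ (Nontrivial G → Nat.card G < n ^ 12) := by
  have hR := q1_powerRegular hG hP
  have h0 : pw 2 ↥(qs 2 G 1) 2 ≤ pw 2 ↥(qs 2 G 1) 1 := by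
    unfold pw
    rw [closure_le]
    rintro x ⟨y, rfl⟩
    refine subset_closure ⟨y ^ 2, ?_⟩
    rw [← pow_mul]
    norm_num
  have h1 := final_three Nat.prime_two (hG.to_subgroup _) hR ((q1_powerful2 hG hP).trans h0)
  have hn : (qs 2 G 1).Normal := qs_normal 2 1
  have hcard := (qs 2 G 1).card_eq_card_quotient_mul_card_subgroup
  obtain ⟨K, H, a1, a2, a3, a4, -⟩ := h1.of_subgroup
  have hpos : 0 < Nat.card G := Nat.card_pos
  rcases le_total (K.relIndex H) ((qs 2 G 1).relIndex ⊤) with hle | hle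
  · refine ⟨qs 2 G 1, ⊤, le_top, inferInstance, ?_, ?_⟩
    · intro a _ b _
      have h3 : ⁅a, b⁆ ∈ commutator G := commutator_mem_commutator (mem_top a) (mem_top b)
      have h4 : pw 2 G 2 ≤ qs 2 G 1 := by
        unfold pw
        rw [closure_le]
        rintro x ⟨y, rfl⟩
        refine subset_closure ⟨y ^ 2, mem_top _, ?_⟩
        rw [← pow_mul]
        norm_num
      exact h4 (hP h3)
    · have h5 : (qs 2 G 1).relIndex ⊤ = Nat.card (G ⧸ qs 2 G 1) := by
        rw [relIndex_top_right]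
        rfl
      have h6 : Nat.card G ≤ ((qs 2 G 1).relIndex ⊤) ^ 11 := by
        rw [hcard, ← h5, pow_succ' _ 10]
        exact Nat.mul_le_mul le_rfl (a4.trans (Nat.pow_le_pow_left hle 10))
      refine ⟨h6, fun hnt => ?_⟩
      have h7 : 1 < Nat.card G := Finite.one_lt_card
      have h8 : 1 < (qs 2 G 1).relIndex ⊤ := by
        by_contra hcon
        have : (qs 2 G 1).relIndex ⊤ ^ 11 ≤ 1 := Nat.pow_le_one_iff (by norm_num) |>.2 (not_lt.1 hcon)
        omega
      exact lt_of_le_of_lt h6 (Nat.pow_lt_pow_right h8 (by norm_num))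
  · refine ⟨K, H, a1, a2, a3, ?_⟩
    have h5 : (qs 2 G 1).relIndex ⊤ = Nat.card (G ⧸ qs 2 G 1) := by
      rw [relIndex_top_right]
      rfl
    have h6 : Nat.card G ≤ (K.relIndex H) ^ 11 := by
      rw [hcard, ← h5, pow_succ' _ 10]
      exact Nat.mul_le_mul hle a4
    refine ⟨h6, fun hnt => ?_⟩
    have h7 : 1 < Nat.card G := Finite.one_lt_card
    have h8 : 1 < K.relIndex H := by
      by_contra hcon
      have : K.relIndex H ^ 11 ≤ 1 := Nat.pow_le_one_iff (by norm_num) |>.2 (not_lt.1 hcon)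
      omega
    exact lt_of_le_of_lt h6 (Nat.pow_lt_pow_right h8 (by norm_num))

end

end Pool.Agent.PWR
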