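import Pool.Agent.PWR.PFin
import Pool.Agent.PWR.TL

set_option autoImplicit false

namespace Pool.Agent.PWR

open Subgroup
open scoped commutatorElement

universe u

/-- the subgroup generated by the `p`-th powers and the commutators of the elements of `N` -/
def phi (p : ℕ) {G : Type*} [Group G] (N : Subgroup G) : Subgroup G :=
  pths p N ⊔ ⁅N, N⁆

/-- `A / B` is a normal elementary abelian section of order at most `p ^ r` -/
structure Sec (p r : ℕ) {G : Type*} [Group G] (A B : Subgroup G) : Prop where
  nA : A.Normal
  nB : B.Normal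
  le : B ≤ A
  phi_le : phi p A ≤ B
  card : B.relIndex A ≤ p ^ r

/-- the descending series of `A / B`: commutators with `G` -/
def ech {G : Type*} [Group G] (A B : Subgroup G) : ℕ → Subgroup G
  | 0 => A
  | j + 1 => ⁅ech A B j, ⊤⁆ ⊔ B

/-- `V` centralises the normal elementary abelian sections of order at most `p ^ r` -/
def VP (p r : ℕ) {G : Type*} [Group G] (V : Subgroup G) : Prop :=
  ∀ A B : Subgroup G, Sec p r A B → ⁅A, V⁆ ≤ B

/-- the elements that move the series of all sections `A / B` down by `k` steps -/
def vset (p r : ℕ) (G : Type*) [Group G] (k : ℕ) : Set G :=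
  {g | ∀ A B : Subgroup G, Sec p r A B → ∀ j : ℕ, ∀ a ∈ ech A B j, ⁅a, g⁆ ∈ ech A B (j + k)}

/-- every subgroup of `G` is generated by at most `r` elements -/
def HasRank (G : Type*) [Group G] (r : ℕ) : Prop :=
  ∀ H : Subgroup G, ∃ s : Finset G, s.card ≤ r ∧ closure (s : Set G) = H

end Pool.Agent.PWR
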