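import Pool.Agent.PWR.QDefs

set_option autoImplicit false

namespace Pool.Agent.PWR

open Subgroup
open scoped commutatorElement

universe u

private theorem qe_card_sup_le {Q : Type*} [CommGroup Q] [Finite Q] (H K : Subgroup Q) :
    Nat.card ↥(H ⊔ K) ≤ Nat.card H * Nat.card K := by
  have h1 : (⊥ : Subgroup Q).relIndex K * K.relIndex (H ⊔ K) = (⊥ : Subgroup Q).relIndex (H ⊔ K) :=
    relIndex_mul_relIndex _ _ _ bot_le le_sup_right
  rw [relIndex_bot_left, relIndex_bot_left] at h1
  have h2 : K.relIndex (H ⊔ K) = K.relIndex H := by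
    rw [relIndex_sup_right]
  rw [h2] at h1
  rw [← h1, mul_comm]
  refine Nat.mul_le_mul_right _ ?_
  exact Nat.le_of_dvd Nat.card_pos (relIndex_dvd_card K H)

private theorem qe_card_closure {Q : Type*} [CommGroup Q] [Finite Q] {p : ℕ} (hp : p.Prime)
    (h : ∀ x : Q, x ^ p = 1) (T : Finset Q) :
    Nat.card (closure (T : Set Q)) ≤ p ^ T.card := by
  classical
  induction T using Finset.induction_on with
  | empty => simp
  | insert a T ha ih =>
    rw [Finset.coe_insert, Set.insert_eq, Subgroup.closure_union, ← zpowers_eq_closure,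
      Finset.card_insert_of_notMem ha, pow_succ, mul_comm (p ^ _) p]
    refine (qe_card_sup_le _ _).trans (Nat.mul_le_mul ?_ ih)
    rw [Nat.card_zpowers]
    exact Nat.le_of_dvd hp.pos (orderOf_dvd_of_pow_eq_one (h a))

/-- QE -/
theorem relIndex_phi_le {G : Type u} [Group G] [Finite G] {p : ℕ} (hp : p.Prime) (s : Finset G) :
    (phi p (closure (s : Set G))).relIndex (closure (s : Set G)) ≤ p ^ s.card := by
  classical
  set N : Subgroup G := closure (s : Set G) with hN
  set Φ : Subgroup N := (phi p N).subgroupOf N with hΦ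
  have hc : ∀ a b : N, a * b * a⁻¹ * b⁻¹ ∈ Φ := by
    intro a b
    rw [hΦ, mem_subgroupOf]
    refine (le_sup_right : ⁅N, N⁆ ≤ phi p N) ?_
    have := commutator_mem_commutator (H₁ := N) (H₂ := N) a.2 b.2
    simpa [commutatorElement_def] using this
  have hpw : ∀ a : N, a ^ p ∈ Φ := by
    intro a
    rw [hΦ, mem_subgroupOf]
    refine (le_sup_left : pths p N ≤ phi p N) ?_
    exact subset_closure ⟨a, a.2, by simp⟩
  have hn : Φ.Normal := by
    refine ⟨fun x hx g => ?_⟩
    have h1 : g * x * g⁻¹ = (g * x * g⁻¹ * x⁻¹) * x := by group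
    rw [h1]
    exact mul_mem (hc g x) hx
  have hcomm : ∀ x y : N ⧸ Φ, x * y = y * x := by
    intro x y
    induction x using QuotientGroup.induction_on with
    | H a =>
      induction y using QuotientGroup.induction_on with
      | H b =>
        rw [← QuotientGroup.mk_mul, ← QuotientGroup.mk_mul, QuotientGroup.eq]
        have h1 := hc b⁻¹ a⁻¹
        have h2 : (a * b)⁻¹ * (b * a) = b⁻¹ * a⁻¹ * b⁻¹⁻¹ * a⁻¹⁻¹ := by group
        rw [h2]
        exact h1
  let _ : CommGroup (N ⧸ Φ) := { (inferInstance : Group (N ⧸ Φ)) with mul_comm := hcomm }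
  have hexp : ∀ x : N ⧸ Φ, x ^ p = 1 := by
    intro x
    induction x using QuotientGroup.induction_on with
    | H a =>
      rw [← QuotientGroup.mk_pow, QuotientGroup.eq_one_iff]
      exact hpw a
  let T : Finset (N ⧸ Φ) :=
    s.attach.image fun x => QuotientGroup.mk' Φ ⟨x.1, subset_closure x.2⟩
  have hT : closure (T : Set (N ⧸ Φ)) = ⊤ := by
    have h1 : closure ((↑) ⁻¹' (s : Set G) : Set N) = ⊤ := closure_closure_coe_preimage
    have h2 := congrArg (Subgroup.map (QuotientGroup.mk' Φ)) h1
    rw [MonoidHom.map_closure, Subgroup.map_top_of_surjective _ (QuotientGroup.mk'_surjective Φ)] at h2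
    rw [← h2]
    congr 1
    ext y
    simp only [T, Finset.coe_image, Set.mem_image, Finset.mem_coe, Finset.mem_attach, true_and,
      Subtype.exists, Set.mem_preimage]
    constructor
    · rintro ⟨a, ha, rfl⟩
      exact ⟨a, subset_closure ha, ha, rfl⟩
    · rintro ⟨a, _, ha, rfl⟩
      exact ⟨a, ha, rfl⟩
  have h3 := qe_card_closure hp hexp T
  rw [hT] at h3
  have h4 : Nat.card (⊤ : Subgroup (N ⧸ Φ)) = Nat.card (N ⧸ Φ) := Subgroup.card_top
  rw [h4] at h3
  have h5 : (phi p N).relIndex N = Nat.card (N ⧸ Φ) := rfl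
  rw [h5]
  refine h3.trans (Nat.pow_le_pow_right hp.pos ?_)
  exact Finset.card_image_le.trans (by rw [Finset.card_attach])

end Pool.Agent.PWR
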