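import Pool.Agent.PWR.QB

set_option autoImplicit false

namespace Pool.Agent.PWR

open Subgroup
open scoped commutatorElement

universe u

/-- QF1 -/
theorem ech_normal {G : Type u} [Group G] {p r : ℕ} {A B : Subgroup G} (h : Sec p r A B) (j : ℕ) :
    (ech A B j).Normal := by
  induction j with
  | zero => exact h.nA
  | succ j ih =>
    have hB := h.nB
    exact inferInstanceAs (⁅ech A B j, (⊤ : Subgroup G)⁆ ⊔ B).Normal

/-- QF2 -/
theorem ech_le {G : Type u} [Group G] {p r : ℕ} {A B : Subgroup G} (h : Sec p r A B) (j : ℕ) :
    B ≤ ech A B j ∧ ech A B (j + 1) ≤ ech A B j ∧ ech A B j ≤ A := by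
  have h1 : ∀ j, B ≤ ech A B j := by
    intro j
    cases j with
    | zero => exact h.le
    | succ j => exact le_sup_right
  have h2 : ∀ j, ech A B (j + 1) ≤ ech A B j := by
    intro j
    have hn := ech_normal h j
    exact sup_le (commutator_le_left _ _) (h1 j)
  refine ⟨h1 j, h2 j, ?_⟩
  induction j with
  | zero => exact le_rfl
  | succ j ih => exact (h2 j).trans ih

/-- QF3 -/
theorem ech_bot {G : Type u} [Group G] [Finite G] {p r : ℕ} (hp : p.Prime) (hG : IsPGroup p G)
    {A B : Subgroup G} (h : Sec p r A B) (j : ℕ) (hj : r ≤ j) : ech A B j ≤ B := by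
  have : Fact p.Prime := ⟨hp⟩
  have key : ∀ j, ech A B j ≤ B ∨ B.relIndex (ech A B j) * p ^ j ≤ p ^ r := by
    intro j
    induction j with
    | zero =>
      right
      rw [pow_zero, mul_one]
      exact h.card
    | succ j ih =>
      rcases ih with ih | ih
      · exact Or.inl ((ech_le h j).2.1.trans ih)
      · by_cases hB : ech A B j ≤ B
        · exact Or.inl ((ech_le h j).2.1.trans hB)
        · right
          have hnB := h.nB
          have hn := ech_normal h j
          obtain ⟨n, hd⟩ := (hG.to_subgroup (ech A B j)).index
            ((ech A B (j + 1)).subgroupOf (ech A B j))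
          have hd' : (ech A B (j + 1)).relIndex (ech A B j) = p ^ n := hd
          have hn0 : n ≠ 0 := by
            rintro rfl
            rw [pow_zero, relIndex_eq_one] at hd'
            apply hB
            apply le_of_frattini hp hG B (ech A B j)
            refine hd'.trans ?_
            exact sup_le (le_sup_left.trans le_sup_right) le_sup_left
          have hpd : p ≤ (ech A B (j + 1)).relIndex (ech A B j) := by
            rw [hd']
            exact Nat.le_self_pow hn0 p
          have hm := relIndex_mul_relIndex B (ech A B (j + 1)) (ech A B j) (ech_le h (j + 1)).1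
            (ech_le h j).2.1
          calc B.relIndex (ech A B (j + 1)) * p ^ (j + 1)
              = B.relIndex (ech A B (j + 1)) * p * p ^ j := by ring
            _ ≤ B.relIndex (ech A B (j + 1)) * (ech A B (j + 1)).relIndex (ech A B j) * p ^ j :=
                Nat.mul_le_mul_right _ (Nat.mul_le_mul_left _ hpd)
            _ = B.relIndex (ech A B j) * p ^ j := by rw [hm]
            _ ≤ p ^ r := ih
  have hr : ech A B r ≤ B := by
    rcases key r with h1 | h1
    · exact h1
    · have hp0 : 0 < p ^ r := Nat.pow_pos hp.pos
      have h2 : B.relIndex (ech A B r) ≤ 1 := by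
        by_contra hc
        have h3 : 2 * p ^ r ≤ B.relIndex (ech A B r) * p ^ r :=
          Nat.mul_le_mul_right _ (by omega)
        omega
      have h3 : B.relIndex (ech A B r) ≠ 0 := by
        unfold relIndex
        exact index_ne_zero_of_finite
      exact relIndex_eq_one.1 (by omega)
  induction j, hj using Nat.le_induction with
  | base => exact hr
  | succ j _ ih => exact (ech_le h j).2.1.trans ih

end Pool.Agent.PWR
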