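import Pool.Agent.PWR.QF

set_option autoImplicit false

namespace Pool.Agent.PWR

open Subgroup
open scoped commutatorElement

universe u

theorem exists_vv {G : Type u} [Group G] (p r k : ℕ) :
    ∃ V : Subgroup G, V.Normal ∧ ∀ g : G, g ∈ V ↔ g ∈ vset p r G k := by
  let V : Subgroup G :=
    { carrier := vset p r G k
      one_mem' := by
        intro A B hS j a ha
        simp
      mul_mem' := by
        intro g h hg hh A B hS j a ha
        have hn := ech_normal hS (j + k)
        have e : ⁅a, g * h⁆ = ⁅a, g⁆ * (g * ⁅a, h⁆ * g⁻¹) := by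
          simp only [commutatorElement_def]; group
        rw [e]
        exact mul_mem (hg A B hS j a ha) (hn.conj_mem _ (hh A B hS j a ha) g)
      inv_mem' := by
        intro g hg A B hS j a ha
        have hn := ech_normal hS (j + k)
        have e : ⁅a, g⁻¹⁆ = g⁻¹ * ⁅a, g⁆⁻¹ * g⁻¹⁻¹ := by
          simp only [commutatorElement_def]; group
        show ⁅a, g⁻¹⁆ ∈ _
        rw [e]
        exact hn.conj_mem _ (inv_mem (hg A B hS j a ha)) g⁻¹ }
  refine ⟨V, ⟨?_⟩, fun g => Iff.rfl⟩
  intro g hg x A B hS j a ha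
  have hn := ech_normal hS (j + k)
  have hn2 := ech_normal hS j
  have e : ⁅a, x * g * x⁻¹⁆ = x * ⁅x⁻¹ * a * x⁻¹⁻¹, g⁆ * x⁻¹ := by
    simp only [commutatorElement_def]; group
  rw [e]
  exact hn.conj_mem _ (hg A B hS j _ (hn2.conj_mem _ ha x⁻¹)) x

end Pool.Agent.PWR
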