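import Pool.Agent.PWR.QV

set_option autoImplicit false

namespace Pool.Agent.PWR

open Subgroup
open scoped commutatorElement

universe u

theorem vv_one {G : Type u} [Group G] (p r : ℕ) : vv p r G 1 = ⊤ := by
  rw [eq_top_iff]
  intro g _
  rw [mem_vv]
  intro A B hS j a ha
  exact (le_sup_left : ⁅ech A B j, (⊤ : Subgroup G)⁆ ≤ ech A B (j + 1))
    (commutator_mem_commutator ha (mem_top g))

theorem vv_VP {G : Type u} [Group G] [Finite G] {p r : ℕ} (hp : p.Prime) (hG : IsPGroup p G)
    (k : ℕ) (hk : r ≤ k) : VP p r (vv p r G k) := by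
  intro A B hS
  rw [commutator_le]
  intro a ha g hg
  have h1 := (mem_vv.1 hg) A B hS 0 a ha
  rw [zero_add] at h1
  exact ech_bot hp hG hS k hk h1

end Pool.Agent.PWR
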