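import Pool.Agent.PWR.QG

set_option autoImplicit false

namespace Pool.Agent.PWR

open Subgroup
open scoped commutatorElement

universe u

/-- the subgroup with underlying set `vset p r G k` -/
noncomputable def vv (p r : ℕ) (G : Type u) [Group G] (k : ℕ) : Subgroup G :=
  (exists_vv (G := G) p r k).choose

theorem vv_normal {G : Type u} [Group G] (p r k : ℕ) : (vv p r G k).Normal :=
  (exists_vv (G := G) p r k).choose_spec.1

theorem mem_vv {G : Type u} [Group G] {p r k : ℕ} {g : G} :
    g ∈ vv p r G k ↔ g ∈ vset p r G k :=
  (exists_vv (G := G) p r k).choose_spec.2 g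

end Pool.Agent.PWR
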