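import Pool.Agent.PWR.QF
import Pool.Agent.PWR.QV

/-! Row QI1. -/

set_option autoImplicit false

namespace Pool.Agent.PWR

open Subgroup
open scoped commutatorElement

universe u

theorem qi1_three {G : Type u} [Group G] (N : Subgroup G) [N.Normal] (V E : Subgroup G)
    (h : ⁅⁅E, V⁆, V⁆ ≤ N) : ⁅⁅V, V⁆, E⁆ ≤ N := by
  have key : ∀ K : Subgroup G, K ≤ N ↔ K.map (QuotientGroup.mk' N) = ⊥ := by
    intro K
    rw [Subgroup.map_eq_bot_iff, QuotientGroup.ker_mk']
  rw [key] at h ⊢
  rw [Subgroup.map_commutator, Subgroup.map_commutator] at h ⊢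
  apply Subgroup.commutator_commutator_eq_bot_of_rotate
  · rw [Subgroup.commutator_comm (V.map _) (E.map _)]
    exact h
  · exact h

theorem qi1_ech {G : Type u} [Group G] {p r k : ℕ} {A B : Subgroup G} (h : Sec p r A B) (j : ℕ) :
    ⁅ech A B j, vv p r G k⁆ ≤ ech A B (j + k) := by
  rw [Subgroup.commutator_le]
  intro a ha g hg
  exact mem_vv.mp hg A B h j a ha

/-- QI1 -/
theorem vv_comm {G : Type u} [Group G] (p r k : ℕ) :
    ⁅vv p r G k, vv p r G k⁆ ≤ vv p r G (2 * k) := by
  intro g hg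
  rw [mem_vv]
  intro A B h j a ha
  have hn : (ech A B (j + 2 * k)).Normal := ech_normal h _
  have h1 : ⁅⁅ech A B j, vv p r G k⁆, vv p r G k⁆ ≤ ech A B (j + 2 * k) := by
    refine (Subgroup.commutator_mono (qi1_ech h j) le_rfl).trans ?_
    have h2 := qi1_ech (k := k) h (j + k)
    have h3 : j + k + k = j + 2 * k := by ring
    rwa [h3] at h2
  have h2 := qi1_three _ _ _ h1
  rw [Subgroup.commutator_comm] at h2
  exact h2 (Subgroup.commutator_mem_commutator ha hg)

end Pool.Agent.PWR
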