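import Pool.Agent.PWR.QF
import Pool.Agent.PWR.QV

set_option autoImplicit false

namespace Pool.Agent.PWR

open Subgroup
open scoped commutatorElement

universe u

/-- QI2 -/
theorem vv_pow {G : Type u} [Group G] (p r k : ℕ) (hp : p.Prime) (g : G) (hg : g ∈ vv p r G k) :
    g ^ p ∈ vv p r G (2 * k) := by
  have _ := hp
  rw [mem_vv] at hg ⊢
  intro A B h j a ha
  have hT : (ech A B (j + 2 * k)).Normal := ech_normal h (j + 2 * k)
  have hc : ⁅a, g⁆ ∈ ech A B (j + k) := hg A B h j a ha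
  have hcg : ⁅⁅a, g⁆, g⁆ ∈ ech A B (j + 2 * k) := by
    have h1 := hg A B h (j + k) ⁅a, g⁆ hc
    rwa [show j + k + k = j + 2 * k by ring] at h1
  have hcp : ⁅a, g⁆ ^ p ∈ ech A B (j + 2 * k) :=
    (ech_le h (j + 2 * k)).1 (h.phi_le ((le_sup_left : pths p A ≤ phi p A)
      (subset_closure ⟨⁅a, g⁆, (ech_le h (j + k)).2.2 hc, rfl⟩)))
  rw [← QuotientGroup.eq_one_iff] at hcg hcp ⊢
  have e1 : ∀ x y : G, ((⁅x, y⁆ : G) : G ⧸ ech A B (j + 2 * k)) =
      ⁅(x : G ⧸ ech A B (j + 2 * k)), (y : G ⧸ ech A B (j + 2 * k))⁆ :=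
    fun x y => map_commutatorElement (QuotientGroup.mk' (ech A B (j + 2 * k))) x y
  have hcomm : Commute ((⁅a, g⁆ : G) : G ⧸ ech A B (j + 2 * k))
      (g : G ⧸ ech A B (j + 2 * k)) := by
    rw [e1] at hcg
    exact commutatorElement_eq_one_iff_commute.1 hcg
  have h2 : (a : G ⧸ ech A B (j + 2 * k)) * (g : G ⧸ ech A B (j + 2 * k)) *
      (a : G ⧸ ech A B (j + 2 * k))⁻¹ =
      ((⁅a, g⁆ : G) : G ⧸ ech A B (j + 2 * k)) * (g : G ⧸ ech A B (j + 2 * k)) := by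
    rw [e1, commutatorElement_def]
    group
  have h3 := congrArg (fun t => t ^ p) h2
  rw [conj_pow, hcomm.mul_pow, ← QuotientGroup.mk_pow _ ⁅a, g⁆, hcp, one_mul] at h3
  rw [e1, QuotientGroup.mk_pow, commutatorElement_def, h3, mul_inv_cancel]

end Pool.Agent.PWR
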