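import Pool.Agent.PWR.QW
import Pool.Agent.PWR.QH
import Pool.Agent.PWR.QI1
import Pool.Agent.PWR.QI2

set_option autoImplicit false

namespace Pool.Agent.PWR

open Subgroup
open scoped commutatorElement

universe u

/-- `phi (vv k)` lies in `vv (2 k)` -/
theorem phi_vv_le {G : Type u} [Group G] {p : ℕ} (hp : p.Prime) (r k : ℕ) :
    phi p (vv p r G k) ≤ vv p r G (2 * k) := by
  refine sup_le ?_ (vv_comm p r k)
  refine (closure_le _).2 ?_
  rintro z ⟨s, hs, rfl⟩
  exact vv_pow p r k hp s hs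

theorem phi_le_self {G : Type u} [Group G] (p : ℕ) (V : Subgroup G) : phi p V ≤ V := by
  refine sup_le ?_ ?_
  · refine (closure_le _).2 ?_
    rintro z ⟨s, hs, rfl⟩
    exact V.pow_mem hs p
  · refine commutator_le.2 ?_
    intro a ha b hb
    exact V.mul_mem (V.mul_mem (V.mul_mem ha hb) (V.inv_mem ha)) (V.inv_mem hb)

/-- QJ (from QE, QI, QH1) -/
theorem vv_index {G : Type u} [Group G] [Finite G] {p : ℕ} (hp : p.Prime) (r : ℕ)
    (hr : PhiRank p G r) (m : ℕ) : (vv p r G (2 ^ m)).index ≤ p ^ (r * m) := by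
  induction m with
  | zero =>
    rw [pow_zero, vv_one, index_top, Nat.mul_zero, pow_zero]
  | succ m ih =>
    have h1 : phi p (vv p r G (2 ^ m)) ≤ vv p r G (2 ^ (m + 1)) := by
      have := phi_vv_le (G := G) hp r (2 ^ m)
      rwa [show 2 * 2 ^ m = 2 ^ (m + 1) by rw [pow_succ]; ring] at this
    have h2 : (vv p r G (2 ^ (m + 1))).index ≤ (phi p (vv p r G (2 ^ m))).index :=
      Nat.le_of_dvd (Nat.pos_of_ne_zero index_ne_zero_of_finite) (index_dvd_of_le h1)
    have h3 := relIndex_mul_index (phi_le_self p (vv p r G (2 ^ m)))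
    calc (vv p r G (2 ^ (m + 1))).index ≤ (phi p (vv p r G (2 ^ m))).index := h2
      _ = (phi p (vv p r G (2 ^ m))).relIndex (vv p r G (2 ^ m)) * (vv p r G (2 ^ m)).index := h3.symm
      _ ≤ p ^ r * p ^ (r * m) := Nat.mul_le_mul (hr _) ih
      _ = p ^ (r * (m + 1)) := by rw [← pow_add]; congr 1; ring

end Pool.Agent.PWR
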