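import Pool.Agent.PWR.QE

set_option autoImplicit false

namespace Pool.Agent.PWR

open Subgroup
open scoped commutatorElement

universe u

/-- every subgroup `N` of `G` has index at most `p ^ r` over the subgroup generated by its `p`-th
powers and commutators -/
def PhiRank (p : ℕ) (G : Type*) [Group G] (r : ℕ) : Prop :=
  ∀ N : Subgroup G, (phi p N).relIndex N ≤ p ^ r

theorem HasRank.phiRank {G : Type u} [Group G] [Finite G] {p : ℕ} (hp : p.Prime) {r : ℕ}
    (hr : HasRank G r) : PhiRank p G r := by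
  intro V
  obtain ⟨s, hs, rfl⟩ := hr V
  exact (relIndex_phi_le hp s).trans (Nat.pow_le_pow_right hp.pos hs)

theorem phi_subgroupOf_normal {G : Type u} [Group G] (p : ℕ) (N : Subgroup G) :
    ((phi p N).subgroupOf N).Normal := by
  refine ⟨fun n hn g => ?_⟩
  rw [mem_subgroupOf] at hn ⊢
  have h1 : ⁅(g : G), (n : G)⁆ ∈ phi p N :=
    (le_sup_right : ⁅N, N⁆ ≤ phi p N) (commutator_mem_commutator g.2 n.2)
  have e : ((g * n * g⁻¹ : N) : G) = ⁅(g : G), (n : G)⁆ * (n : G) := by
    simp [commutatorElement_def]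
  rw [e]
  exact mul_mem h1 hn

end Pool.Agent.PWR
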