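import Pool.Agent.PWR.QC
import Pool.Agent.PWR.QD
import Pool.Agent.PWR.QW
import Pool.Agent.PWR.QH

set_option autoImplicit false

namespace Pool.Agent.PWR

open Subgroup
open scoped commutatorElement

universe u

theorem qk_transfer {G : Type u} [Group G] {q p i : ℕ} (hq : q = p ^ i) (V : Subgroup G)
    (h : ⁅V, V⁆ ≤ pths q V) : _root_.commutator ↥V ≤ pw p ↥V i := by
  subst hq
  have h1 : (_root_.commutator ↥V).map V.subtype ≤ (pw p ↥V i).map V.subtype := by
    have e1 : (_root_.commutator ↥V).map V.subtype = ⁅V, V⁆ := by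
      rw [_root_.commutator_def, map_commutator, ← MonoidHom.range_eq_map, range_subtype]
    rw [e1]
    refine h.trans ?_
    unfold pths
    rw [closure_le]
    rintro z ⟨s, hs, rfl⟩
    exact ⟨(⟨s, hs⟩ : ↥V) ^ p ^ i, subset_closure ⟨⟨s, hs⟩, rfl⟩, rfl⟩
  exact (map_le_map_iff_of_injective V.subtype_injective).mp h1

/-- QK1 (from QC, QE, QH2): `vv` is powerful, `p` odd -/
theorem vv_powerful {G : Type u} [Group G] [Finite G] {p : ℕ} (hp : p.Prime)
    (hG : IsPGroup p G) (r : ℕ) (hr : PhiRank p G r) (k : ℕ) (hk : r ≤ k) :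
    Powerful p ↥(vv p r G k) := by
  have := vv_normal (G := G) p r k
  exact qk_transfer (pow_one p).symm _ (comm_le_pths hp hG _ _ (vv_VP hp hG k hk) le_rfl
    (hr _))

theorem qk_pths_normal {G : Type*} [Group G] (p : ℕ) (N : Subgroup G) [hN : N.Normal] :
    (pths p N).Normal := by
  refine normal_closure_conj _ ?_
  rintro x ⟨y, hy, rfl⟩ g
  exact ⟨g * y * g⁻¹, hN.conj_mem y hy g, by rw [conj_pow]⟩

theorem qk_comm_le_sq {G : Type*} [Group G] (V : Subgroup G) : ⁅V, V⁆ ≤ pths 2 V := by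
  rw [commutator_le]
  intro a ha b hb
  have e : ⁅a, b⁆ = a ^ 2 * ((a⁻¹ * b) ^ 2 * (b⁻¹) ^ 2) := by
    rw [commutatorElement_def, pow_two, pow_two, pow_two]
    group
  rw [e]
  unfold pths
  refine mul_mem (subset_closure ⟨a, ha, rfl⟩) (mul_mem (subset_closure
    ⟨a⁻¹ * b, mul_mem (inv_mem ha) hb, rfl⟩) (subset_closure ⟨b⁻¹, inv_mem hb, rfl⟩))

/-- QK2 (from QD, QE, QH2): the subgroup of squares of `vv` is powerful, `p = 2` -/
theorem vv_powerful2 {G : Type u} [Group G] [Finite G] (hG : IsPGroup 2 G) (r : ℕ)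
    (hr : PhiRank 2 G r) (k : ℕ) (hk : r ≤ k) : Powerful2 ↥(pths 2 (vv 2 r G k)) := by
  have := vv_normal (G := G) 2 r k
  have := qk_pths_normal 2 (vv 2 r G k)
  exact qk_transfer (i := 2) (by norm_num) _ (comm_le_pths_two hG (vv 2 r G k) _
    (vv_VP Nat.prime_two hG k hk) le_rfl (hr _))

/-- QK3 (from QE): its index -/
theorem sq_relIndex {G : Type u} [Group G] [Finite G] (r : ℕ) (hr : PhiRank 2 G r)
    (V : Subgroup G) : (pths 2 V).relIndex V ≤ 2 ^ r := by
  have h := hr V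
  have e : phi 2 V = pths 2 V := sup_eq_left.mpr (qk_comm_le_sq V)
  rwa [e] at h

end Pool.Agent.PWR
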