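import Pool.Agent.PWR.QJ
import Pool.Agent.PWR.QK

set_option autoImplicit false

namespace Pool.Agent.PWR

open Subgroup
open scoped commutatorElement

universe u

theorem ql_finish {c f n : ℕ} (h : c ≤ f * n ^ 11) (hf : f ^ 12 < c) : c < n ^ 12 := by
  have h1 : f < n := by
    by_contra hcon
    have h2 : n ≤ f := not_lt.1 hcon
    have h3 : f * n ^ 11 ≤ f * f ^ 11 := Nat.mul_le_mul le_rfl (Nat.pow_le_pow_left h2 11)
    have h4 : f * f ^ 11 = f ^ 12 := by ring
    omega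
  have h5 : 0 < n := by omega
  calc c ≤ f * n ^ 11 := h
    _ < n * n ^ 11 := Nat.mul_lt_mul_of_pos_right h1 (pow_pos h5 11)
    _ = n ^ 12 := by ring

theorem phiRank_q1 {G : Type u} [Group G] [Finite G] {p : ℕ} (hp : p.Prime) (hG : IsPGroup p G)
    (r : ℕ) (hr : PhiRank p G r) :
    HasAbSection G fun n => Nat.card G ≤ p ^ (r * (Nat.clog 2 r + 1)) * n ^ 11 := by
  have hk : r ≤ 2 ^ Nat.clog 2 r := Nat.le_pow_clog (by norm_num) r
  have hidx := vv_index hp r hr (Nat.clog 2 r)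
  have hcard := (vv p r G (2 ^ Nat.clog 2 r)).card_eq_card_quotient_mul_card_subgroup
  have key : HasAbSection G fun n => Nat.card G ≤ p ^ (r * (Nat.clog 2 r + 1)) * n ^ 11 := by
    rcases hp.eq_two_or_odd' with h2 | h2
    · subst h2
      have hW := powerful2_q1 (hG.to_subgroup _) (vv_powerful2 hG r hr _ hk)
      obtain ⟨K, H, a1, a2, a3, a4, -⟩ := hW.of_subgroup
      refine ⟨K, H, a1, a2, a3, ?_⟩
      have e1 := sq_relIndex r hr (vv 2 r G (2 ^ Nat.clog 2 r))
      have hle : pths 2 (vv 2 r G (2 ^ Nat.clog 2 r)) ≤ vv 2 r G (2 ^ Nat.clog 2 r) := by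
        unfold pths
        rw [closure_le]
        rintro x ⟨y, hy, rfl⟩
        exact pow_mem hy 2
      have e2 : (pths 2 (vv 2 r G (2 ^ Nat.clog 2 r))).relIndex (vv 2 r G (2 ^ Nat.clog 2 r)) *
          Nat.card (pths 2 (vv 2 r G (2 ^ Nat.clog 2 r))) =
          Nat.card (vv 2 r G (2 ^ Nat.clog 2 r)) := by
        have := ((pths 2 (vv 2 r G (2 ^ Nat.clog 2 r))).subgroupOf
          (vv 2 r G (2 ^ Nat.clog 2 r))).card_eq_card_quotient_mul_card_subgroup
        rw [this]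
        congr 1
        exact (Nat.card_congr (subgroupOfEquivOfLe hle).toEquiv).symm
      calc Nat.card G = (vv 2 r G (2 ^ Nat.clog 2 r)).index *
            Nat.card (vv 2 r G (2 ^ Nat.clog 2 r)) := hcard
        _ ≤ 2 ^ (r * Nat.clog 2 r) * (2 ^ r * (K.relIndex H) ^ 11) := by
            refine Nat.mul_le_mul hidx ?_
            rw [← e2]
            exact Nat.mul_le_mul e1 a4
        _ = 2 ^ (r * (Nat.clog 2 r + 1)) * (K.relIndex H) ^ 11 := by
            rw [← mul_assoc, ← pow_add]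
            ring_nf
    · have hW := powerful_q1 hp h2 (hG.to_subgroup _) (vv_powerful hp hG r hr _ hk)
      obtain ⟨K, H, a1, a2, a3, a4, -⟩ := hW.of_subgroup
      refine ⟨K, H, a1, a2, a3, ?_⟩
      calc Nat.card G = (vv p r G (2 ^ Nat.clog 2 r)).index *
            Nat.card (vv p r G (2 ^ Nat.clog 2 r)) := hcard
        _ ≤ p ^ (r * Nat.clog 2 r) * (K.relIndex H) ^ 10 := Nat.mul_le_mul hidx a4
        _ ≤ p ^ (r * (Nat.clog 2 r + 1)) * (K.relIndex H) ^ 11 := by
            refine Nat.mul_le_mul ?_ ?_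
            · exact Nat.pow_le_pow_right hp.pos (by nlinarith)
            · exact Nat.pow_le_pow_right (rel_pos K H) (by norm_num)
  exact key

/-- `P / K` for the larger of two sections -/
theorem HasAbSection.max {G : Type u} [Group G] {P Q : ℕ → Prop} (h1 : HasAbSection G P)
    (h2 : HasAbSection G Q) (hP : ∀ m n, m ≤ n → P m → P n) (hQ : ∀ m n, m ≤ n → Q m → Q n) :
    HasAbSection G fun n => P n ∧ Q n := by
  obtain ⟨K, H, a1, a2, a3, a4⟩ := h1
  obtain ⟨K', H', b1, b2, b3, b4⟩ := h2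
  rcases le_total (K.relIndex H) (K'.relIndex H') with h | h
  · exact ⟨K', H', b1, b2, b3, hP _ _ h a4, b4⟩
  · exact ⟨K, H, a1, a2, a3, a4, hQ _ _ h b4⟩

/-- the section `N / phi N` of largest order -/
theorem exists_phiRank {G : Type u} [Group G] [Finite G] {p : ℕ} (hp : p.Prime)
    (hG : IsPGroup p G) (r : ℕ) (hr : PhiRank p G r) :
    ∃ r0 ≤ r, PhiRank p G r0 ∧ HasAbSection G fun n => p ^ r0 ≤ n := by
  have := Fact.mk hp
  classical
  have hex : ∃ s, PhiRank p G s := ⟨r, hr⟩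
  refine ⟨Nat.find hex, Nat.find_min' hex hr, Nat.find_spec hex, ?_⟩
  rcases Nat.eq_zero_or_pos (Nat.find hex) with h0 | h0
  · rw [h0]
    refine ⟨⊥, ⊥, le_rfl, inferInstance, ?_, by simp⟩
    intro a ha b hb
    rw [mem_bot] at ha hb ⊢
    simp [ha, hb]
  · have hnot : ¬ PhiRank p G (Nat.find hex - 1) := Nat.find_min hex (by omega)
    unfold PhiRank at hnot
    push Not at hnot
    obtain ⟨N, hN⟩ := hnot
    refine ⟨phi p N, N, phi_le_self p N, phi_subgroupOf_normal p N, ?_, ?_⟩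
    · intro a ha b hb
      exact (le_sup_right : ⁅N, N⁆ ≤ phi p N) (commutator_mem_commutator ha hb)
    · obtain ⟨e, he⟩ := IsPGroup.iff_card.1 (hG.to_subgroup N)
      have hd : (phi p N).relIndex N ∣ p ^ e := by
        rw [← he]
        exact (phi p N).relIndex_dvd_card N
      obtain ⟨m, -, hm⟩ := (Nat.dvd_prime_pow hp).1 hd
      rw [hm] at hN ⊢
      have h1 : Nat.find hex - 1 < m := (Nat.pow_lt_pow_iff_right hp.one_lt).1 hN
      exact Nat.pow_le_pow_right hp.pos (by omega)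

/-- the rank form -/
theorem rank_q1 {G : Type u} [Group G] [Finite G] {p : ℕ} (hp : p.Prime) (hG : IsPGroup p G)
    (r : ℕ) (hr : HasRank G r) :
    HasAbSection G fun n =>
      Nat.card G ≤ n ^ (Nat.clog 2 r + 12) ∧
      (Nontrivial G → Nat.card G < n ^ (Nat.clog 2 r + 13)) ∧
      Nat.card G ≤ p ^ (r * (Nat.clog 2 r + 1)) * n ^ 11 ∧
      (p ^ (12 * (r * (Nat.clog 2 r + 1))) < Nat.card G → Nat.card G < n ^ 12) := by
  obtain ⟨r0, hr0, hphi, hsec⟩ := exists_phiRank hp hG r (hr.phiRank hp)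
  have h1 := phiRank_q1 hp hG r0 hphi
  obtain ⟨K, H, a1, a2, a3, a4, a5⟩ := h1.max hsec
    (fun m n hmn h => h.trans (Nat.mul_le_mul le_rfl (Nat.pow_le_pow_left hmn 11)))
    (fun m n hmn h => h.trans hmn)
  have hn : 1 ≤ K.relIndex H := rel_pos K H
  have hcl : Nat.clog 2 r0 ≤ Nat.clog 2 r := Nat.clog_mono_right 2 hr0
  have b1 : Nat.card G ≤ (K.relIndex H) ^ (Nat.clog 2 r + 12) :=
    calc Nat.card G ≤ p ^ (r0 * (Nat.clog 2 r0 + 1)) * (K.relIndex H) ^ 11 := a4
      _ = (p ^ r0) ^ (Nat.clog 2 r0 + 1) * (K.relIndex H) ^ 11 := by rw [pow_mul]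
      _ ≤ (K.relIndex H) ^ (Nat.clog 2 r0 + 1) * (K.relIndex H) ^ 11 :=
          Nat.mul_le_mul (Nat.pow_le_pow_left a5 _) le_rfl
      _ = (K.relIndex H) ^ (Nat.clog 2 r0 + 12) := by rw [← pow_add]
      _ ≤ (K.relIndex H) ^ (Nat.clog 2 r + 12) := Nat.pow_le_pow_right hn (by omega)
  have b2 : Nat.card G ≤ p ^ (r * (Nat.clog 2 r + 1)) * (K.relIndex H) ^ 11 :=
    a4.trans (Nat.mul_le_mul (Nat.pow_le_pow_right hp.pos (Nat.mul_le_mul hr0 (by omega))) le_rfl)
  refine ⟨K, H, a1, a2, a3, b1, fun hnt => ?_, b2, fun h => ql_finish b2 ?_⟩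
  · have h7 : 1 < Nat.card G := Finite.one_lt_card
    have h8 : 1 < K.relIndex H := by
      by_contra hcon
      have : K.relIndex H ^ (Nat.clog 2 r + 12) ≤ 1 :=
        Nat.pow_le_one_iff (by omega) |>.2 (not_lt.1 hcon)
      omega
    exact lt_of_le_of_lt b1 (Nat.pow_lt_pow_right h8 (by omega))
  · rw [← pow_mul, mul_comm]
    exact h

end Pool.Agent.PWR
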