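import Pool.Agent.PWR.QL

set_option autoImplicit false

namespace Pool.Agent.PWR

open Subgroup
open scoped commutatorElement

universe u

/-- `(1 - T) ^ p = 1 - T ^ p` in characteristic `p` -/
theorem qn_linear {M : Type u} [AddCommGroup M] {p : ℕ} [Fact p.Prime] [Module (ZMod p) M]
    (T : Module.End (ZMod p) M) (x : M) : ((1 - T) ^ p) x = x - (T ^ p) x := by
  have h := congrArg (Polynomial.aeval T)
    (sub_pow_char (p := p) (1 : Polynomial (ZMod p)) Polynomial.X)
  simp only [map_pow, map_sub, map_one, Polynomial.aeval_X, one_pow] at h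
  rw [h]
  rfl

theorem qn_core {M : Type u} [CommGroup M] {p : ℕ} [hp : Fact p.Prime] (hM : ∀ x : M, x ^ p = 1)
    (τ : M →* M) (x : M) : (fun y => y * (τ y)⁻¹)^[p] x = x * (τ^[p] x)⁻¹ := by
  let _ : Module (ZMod p) (Additive M) := AddCommGroup.zmodModule (n := p) (fun y => hM y.toMul)
  let T : Module.End (ZMod p) (Additive M) := (MonoidHom.toAdditive τ).toZModLinearMap p
  have hT : ∀ y : M, T (Additive.ofMul y) = Additive.ofMul (τ y) := fun y => rfl
  have h1 : ∀ (n : ℕ) (y : M), ((1 - T) ^ n) (Additive.ofMul y) =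
      Additive.ofMul ((fun y => y * (τ y)⁻¹)^[n] y) := by
    intro n
    induction n with
    | zero => intro y; rfl
    | succ n ih =>
      intro y
      have h2 : (1 - T) (Additive.ofMul y) = Additive.ofMul (y * (τ y)⁻¹) := by
        rw [LinearMap.sub_apply, hT, ofMul_mul, ofMul_inv, sub_eq_add_neg]
        rfl
      rw [pow_succ, Module.End.mul_apply, h2, ih, Function.iterate_succ_apply]
  have h2 : ∀ (n : ℕ) (y : M), (T ^ n) (Additive.ofMul y) = Additive.ofMul (τ^[n] y) := by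
    intro n
    induction n with
    | zero => intro y; rfl
    | succ n ih =>
      intro y
      rw [pow_succ, Module.End.mul_apply, hT, ih, Function.iterate_succ_apply]
  have h3 := qn_linear T (Additive.ofMul x)
  rw [h1, h2] at h3
  refine Additive.ofMul.injective ?_
  rw [h3, ofMul_mul, ofMul_inv, sub_eq_add_neg]

/-- the `p`-th power of an element of `vv k` lies in `vv (p * k)` -/
theorem qn_pow {G : Type u} [Group G] {p r k : ℕ} (hp : p.Prime) {g : G} (hg : g ∈ vv p r G k) :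
    g ^ p ∈ vv p r G (p * k) := by
  have : Fact p.Prime := ⟨hp⟩
  rw [mem_vv] at hg ⊢
  intro A B h j a ha
  have hB := h.nB
  have hE : (A.map (QuotientGroup.mk' B)).Normal :=
    h.nA.map (QuotientGroup.mk' B) (QuotientGroup.mk'_surjective B)
  have hcomm : ∀ x y : ↥(A.map (QuotientGroup.mk' B)), x * y = y * x := by
    rintro ⟨_, a, ha, rfl⟩ ⟨_, b, hb, rfl⟩
    apply Subtype.ext
    change QuotientGroup.mk' B a * QuotientGroup.mk' B b =
      QuotientGroup.mk' B b * QuotientGroup.mk' B a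
    have h1 : ⁅a, b⁆ ∈ B := h.phi_le
      ((le_sup_right : ⁅A, A⁆ ≤ phi p A) (commutator_mem_commutator ha hb))
    have h2 : QuotientGroup.mk' B ⁅a, b⁆ = 1 := (QuotientGroup.eq_one_iff _).2 h1
    rw [map_commutatorElement, commutatorElement_eq_one_iff_mul_comm] at h2
    exact h2
  have hexp : ∀ x : ↥(A.map (QuotientGroup.mk' B)), x ^ p = 1 := by
    rintro ⟨_, a, ha, rfl⟩
    apply Subtype.ext
    change (QuotientGroup.mk' B a) ^ p = 1
    rw [← map_pow]
    exact (QuotientGroup.eq_one_iff _).2 (h.phi_le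
      ((le_sup_left : pths p A ≤ phi p A) (subset_closure ⟨a, ha, rfl⟩)))
  let _ : CommGroup ↥(A.map (QuotientGroup.mk' B)) :=
    { (inferInstance : Group ↥(A.map (QuotientGroup.mk' B))) with mul_comm := hcomm }
  obtain ⟨τ, hτ⟩ : ∃ τ : ↥(A.map (QuotientGroup.mk' B)) →* ↥(A.map (QuotientGroup.mk' B)),
      ∀ x, ((τ x : ↥(A.map (QuotientGroup.mk' B))) : G ⧸ B) =
        QuotientGroup.mk' B g * x * (QuotientGroup.mk' B g)⁻¹ :=
    ⟨(MulAut.conjNormal (QuotientGroup.mk' B g)).toMonoidHom, fun x => rfl⟩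
  have hstep : ∀ (i : ℕ) (x : ↥(A.map (QuotientGroup.mk' B))),
      (∃ b ∈ ech A B i, QuotientGroup.mk' B b = x) →
      ∃ b ∈ ech A B (i + k), QuotientGroup.mk' B b =
        ((x * (τ x)⁻¹ : ↥(A.map (QuotientGroup.mk' B))) : G ⧸ B) := by
    rintro i x ⟨b, hb, hbx⟩
    refine ⟨⁅b, g⁆, hg A B h i b hb, ?_⟩
    change _ = (x : G ⧸ B) * ((τ x : ↥(A.map (QuotientGroup.mk' B))) : G ⧸ B)⁻¹
    rw [hτ, ← hbx, map_commutatorElement, commutatorElement_def]
    group
  have hiter : ∀ (n i : ℕ) (x : ↥(A.map (QuotientGroup.mk' B))),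
      (∃ b ∈ ech A B i, QuotientGroup.mk' B b = x) →
      ∃ b ∈ ech A B (i + n * k), QuotientGroup.mk' B b =
        (((fun y => y * (τ y)⁻¹)^[n] x : ↥(A.map (QuotientGroup.mk' B))) : G ⧸ B) := by
    intro n
    induction n with
    | zero =>
      intro i x hx
      simpa using hx
    | succ n ih =>
      intro i x hx
      have h1 := ih (i + k) _ (hstep i x hx)
      rw [Function.iterate_succ_apply]
      rwa [show i + (n + 1) * k = i + k + n * k by ring]
  have hτn : ∀ (n : ℕ) (x : ↥(A.map (QuotientGroup.mk' B))),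
      ((τ^[n] x : ↥(A.map (QuotientGroup.mk' B))) : G ⧸ B) =
        QuotientGroup.mk' B (g ^ n) * x * (QuotientGroup.mk' B (g ^ n))⁻¹ := by
    intro n
    induction n with
    | zero => intro x; simp
    | succ n ih =>
      intro x
      rw [Function.iterate_succ_apply, ih, hτ, pow_succ, map_mul]
      group
  obtain ⟨b, hb, hbx⟩ := hiter p j ⟨QuotientGroup.mk' B a, a, (ech_le h j).2.2 ha, rfl⟩
    ⟨a, ha, rfl⟩
  rw [qn_core hexp τ] at hbx
  have h4 : QuotientGroup.mk' B b = QuotientGroup.mk' B ⁅a, g ^ p⁆ := by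
    rw [hbx]
    change QuotientGroup.mk' B a * ((τ^[p] _ : ↥(A.map (QuotientGroup.mk' B))) : G ⧸ B)⁻¹ = _
    rw [hτn, map_commutatorElement, commutatorElement_def]
    group
  have h5 : b⁻¹ * ⁅a, g ^ p⁆ ∈ B := QuotientGroup.eq.1 h4
  have h6 := mul_mem hb ((ech_le h (j + p * k)).1 h5)
  rwa [mul_inv_cancel_left] at h6

theorem qn_pow_pow {G : Type u} [Group G] {p : ℕ} (r : ℕ) (hp : p.Prime) (g : G) (k : ℕ) :
    g ^ p ^ k ∈ vv p r G (p ^ k) := by
  induction k with
  | zero =>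
    rw [pow_zero, vv_one]
    exact mem_top _
  | succ k ih =>
    have h := qn_pow hp ih
    rwa [← pow_mul, ← pow_succ, ← pow_succ'] at h

/-- `|P ^ (p ^ k)| ≤ |A| ^ 12` if all subgroups of `P` are generated by `p ^ k` elements -/
theorem qn_one {G : Type u} [Group G] [Finite G] {p : ℕ} (hp : p.Prime) (hG : IsPGroup p G)
    (k : ℕ) (hr : HasRank G (p ^ k)) :
    HasAbSection G fun n => Nat.card (pw p G k) ≤ n ^ 12 := by
  obtain ⟨r, hk, hphi, hsec⟩ := exists_phiRank hp hG (p ^ k) (hr.phiRank hp)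
  have hle : pw p G k ≤ vv p r G (p ^ k) := by
    unfold pw
    rw [closure_le]
    rintro x ⟨y, rfl⟩
    exact qn_pow_pow r hp y k
  have hcard : Nat.card (pw p G k) ≤ Nat.card (vv p r G (p ^ k)) := card_le_of_le hle
  have key : HasAbSection G fun n => Nat.card (vv p r G (p ^ k)) ≤ p ^ r * n ^ 11 := by
    rcases hp.eq_two_or_odd' with h2 | h2
    · subst h2
      have hW := powerful2_q1 (hG.to_subgroup _) (vv_powerful2 hG r hphi _ hk)
      obtain ⟨K, H, a1, a2, a3, a4, -⟩ := hW.of_subgroup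
      refine ⟨K, H, a1, a2, a3, ?_⟩
      have e1 := sq_relIndex r hphi (vv 2 r G (2 ^ k))
      have hle : pths 2 (vv 2 r G (2 ^ k)) ≤ vv 2 r G (2 ^ k) := by
        unfold pths
        rw [closure_le]
        rintro x ⟨y, hy, rfl⟩
        exact pow_mem hy 2
      have e2 : (pths 2 (vv 2 r G (2 ^ k))).relIndex (vv 2 r G (2 ^ k)) *
          Nat.card (pths 2 (vv 2 r G (2 ^ k))) = Nat.card (vv 2 r G (2 ^ k)) := by
        have := ((pths 2 (vv 2 r G (2 ^ k))).subgroupOf
          (vv 2 r G (2 ^ k))).card_eq_card_quotient_mul_card_subgroup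
        rw [this]
        congr 1
        exact (Nat.card_congr (subgroupOfEquivOfLe hle).toEquiv).symm
      rw [← e2]
      exact Nat.mul_le_mul e1 a4
    · have hW := powerful_q1 hp h2 (hG.to_subgroup _) (vv_powerful hp hG r hphi _ hk)
      obtain ⟨K, H, a1, a2, a3, a4, -⟩ := hW.of_subgroup
      refine ⟨K, H, a1, a2, a3, a4.trans ?_⟩
      calc (K.relIndex H) ^ 10 ≤ (K.relIndex H) ^ 11 :=
            Nat.pow_le_pow_right (rel_pos K H) (by norm_num)
        _ = 1 * (K.relIndex H) ^ 11 := (one_mul _).symm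
        _ ≤ p ^ r * (K.relIndex H) ^ 11 :=
            Nat.mul_le_mul (Nat.one_le_pow _ _ hp.pos) le_rfl
  obtain ⟨K, H, a1, a2, a3, a4, a5⟩ := key.max hsec
    (fun m n hmn h => h.trans (Nat.mul_le_mul le_rfl (Nat.pow_le_pow_left hmn 11)))
    (fun m n hmn h => h.trans hmn)
  refine ⟨K, H, a1, a2, a3, (hcard.trans a4).trans ?_⟩
  calc p ^ r * (K.relIndex H) ^ 11 ≤ K.relIndex H * (K.relIndex H) ^ 11 :=
        Nat.mul_le_mul a5 le_rfl
    _ = (K.relIndex H) ^ 12 := by ring

theorem qn_comb {G : Type u} [Group G] [Finite G] {p : ℕ} (hp : p.Prime) (hG : IsPGroup p G)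
    (k : ℕ) (hr : HasRank G (p ^ k)) (c : ℝ) (hc : 0 ≤ c)
    (h2 : HasAbSection G fun n => (Nat.card (G ⧸ pw p G k) : ℝ) ≤ (n : ℝ) ^ c) :
    HasAbSection G fun n => (Nat.card G : ℝ) ≤ (n : ℝ) ^ (c + 12) := by
  have h1 : HasAbSection G fun n => (Nat.card (pw p G k) : ℝ) ≤ (n : ℝ) ^ 12 :=
    (qn_one hp hG k hr).mono fun n h => by exact_mod_cast h
  obtain ⟨K, H, a1, a2, a3, a4, a5⟩ := h1.max h2
    (fun m n hmn h => h.trans (by gcongr))
    (fun m n hmn h => h.trans (Real.rpow_le_rpow (Nat.cast_nonneg m) (by exact_mod_cast hmn) hc))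
  refine ⟨K, H, a1, a2, a3, ?_⟩
  have hn : (0 : ℝ) < (K.relIndex H : ℝ) := by exact_mod_cast rel_pos K H
  have hcard : (Nat.card G : ℝ) = (Nat.card (pw p G k) : ℝ) * (Nat.card (G ⧸ pw p G k) : ℝ) := by
    have := (pw p G k).card_eq_card_quotient_mul_card_subgroup
    rw [this]
    push_cast
    ring
  change (Nat.card G : ℝ) ≤ (K.relIndex H : ℝ) ^ (c + 12)
  rw [hcard, Real.rpow_add hn, mul_comm ((K.relIndex H : ℝ) ^ c)]
  refine mul_le_mul ?_ a5 (Nat.cast_nonneg _) (Real.rpow_nonneg hn.le _)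
  have e : (12 : ℝ) = ((12 : ℕ) : ℝ) := by norm_num
  rw [e, Real.rpow_natCast]
  exact a4

theorem qn_two {G : Type u} [Group G] [Finite G] {p : ℕ} (hp : p.Prime) (hG : IsPGroup p G)
    (k : ℕ) (hr : HasRank G (p ^ k)) (c : ℝ) (hc : 0 ≤ c)
    (hA : HasAbSection (G ⧸ pw p G k) fun n => (Nat.card (G ⧸ pw p G k) : ℝ) ≤ (n : ℝ) ^ c) :
    HasAbSection G fun n => (Nat.card G : ℝ) ≤ (n : ℝ) ^ (c + 12) :=
  qn_comb hp hG k hr c hc (HasAbSection.of_quotient (pw p G k) hA)

/-- from `|P| ≤ |A| ^ c` to a strict inequality -/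
theorem qn_strict {G : Type u} [Group G] [Finite G] {c d : ℝ} (hcd : c < d)
    (h : HasAbSection G fun n => (Nat.card G : ℝ) ≤ (n : ℝ) ^ c) (hn : Nontrivial G) :
    HasAbSection G fun n => (Nat.card G : ℝ) < (n : ℝ) ^ d := by
  obtain ⟨K, H, a1, a2, a3, a4⟩ := h
  refine ⟨K, H, a1, a2, a3, a4.trans_lt ?_⟩
  have h6 : (1 : ℝ) < (Nat.card G : ℝ) := by exact_mod_cast (Finite.one_lt_card : 1 < Nat.card G)
  have h7 : (1 : ℝ) < (K.relIndex H : ℝ) := by
    by_contra hcon
    have h8 : K.relIndex H = 1 := by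
      have : K.relIndex H ≤ 1 := by
        have := not_lt.1 hcon
        exact_mod_cast this
      exact le_antisymm this (rel_pos K H)
    rw [h8] at a4
    simp at a4
    have : (Nat.card G : ℝ) ≤ 1 := by exact_mod_cast a4
    linarith
  exact Real.rpow_lt_rpow_of_exponent_lt h7 hcd

/-- the whole question: it suffices to bound `|P / P_k|` for some `k` with `rank P ≤ p ^ k` -/
theorem qn_four :
    (∃ c : ℝ, ∀ (G : Type u) [Group G] [Finite G] (p : ℕ), p.Prime → IsPGroup p G →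
      Nontrivial G → HasAbSection G fun n => (Nat.card G : ℝ) < (n : ℝ) ^ c) ↔
    (∃ c : ℝ, ∀ (G : Type u) [Group G] [Finite G] (p : ℕ), p.Prime → IsPGroup p G →
      Nontrivial G → ∃ k : ℕ, HasRank G (p ^ k) ∧
      HasAbSection G fun n => (Nat.card (G ⧸ pw p G k) : ℝ) ≤ (n : ℝ) ^ c) := by
  constructor
  · rintro ⟨c, h⟩
    refine ⟨c, fun G _ _ p hp hpG hn => ?_⟩
    have := Fact.mk hp
    classical
    obtain ⟨m, hm⟩ := IsPGroup.iff_card.1 hpG
    refine ⟨m, ?_, (h G p hp hpG hn).mono fun n hn => ?_⟩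
    · intro H
      have hf : (H : Set G).Finite := Set.toFinite _
      refine ⟨hf.toFinset, ?_, ?_⟩
      · rw [← hm, ← Set.ncard_eq_toFinset_card (H : Set G) hf]
        exact H.card_le_card_group
      · rw [hf.coe_toFinset]
        exact closure_eq H
    · have h1 : Nat.card (G ⧸ pw p G m) ≤ Nat.card G :=
        Nat.card_le_card_of_surjective _ (QuotientGroup.mk'_surjective (pw p G m))
      have h2 : (Nat.card (G ⧸ pw p G m) : ℝ) ≤ (Nat.card G : ℝ) := by exact_mod_cast h1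
      exact h2.trans hn.le
  · rintro ⟨c, h⟩
    refine ⟨max c 0 + 13, fun G _ _ p hp hpG hn => ?_⟩
    obtain ⟨k, hk, K, H, a1, a2, a3, a4⟩ := h G p hp hpG hn
    refine qn_strict (by linarith) (qn_comb hp hpG k hk (max c 0) (le_max_right _ _)
      ⟨K, H, a1, a2, a3, a4.trans ?_⟩) hn
    refine Real.rpow_le_rpow_of_exponent_le ?_ (le_max_left _ _)
    exact_mod_cast rel_pos K H

theorem HasRank.quotient {G : Type u} [Group G] {r : ℕ} (h : HasRank G r) (N : Subgroup G)
    [N.Normal] : HasRank (G ⧸ N) r := by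
  classical
  intro H
  obtain ⟨s, hs, hcl⟩ := h (H.comap (QuotientGroup.mk' N))
  refine ⟨s.image (QuotientGroup.mk' N), Finset.card_image_le.trans hs, ?_⟩
  rw [Finset.coe_image, ← MonoidHom.map_closure, hcl]
  exact map_comap_eq_self_of_surjective (QuotientGroup.mk'_surjective N) H

/-- Q1 for the `p`-groups of rank at most `p ^ k` is Q1 for those of exponent dividing `p ^ k` -/
theorem qn_three (k : ℕ) :
    (∃ c : ℝ, ∀ (G : Type u) [Group G] [Finite G] (p : ℕ), p.Prime → IsPGroup p G →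
      HasRank G (p ^ k) → Nontrivial G → HasAbSection G fun n => (Nat.card G : ℝ) < (n : ℝ) ^ c) ↔
    (∃ c : ℝ, ∀ (G : Type u) [Group G] [Finite G] (p : ℕ), p.Prime → (∀ x : G, x ^ p ^ k = 1) →
      HasRank G (p ^ k) → Nontrivial G →
      HasAbSection G fun n => (Nat.card G : ℝ) < (n : ℝ) ^ c) := by
  constructor
  · rintro ⟨c, h⟩
    exact ⟨c, fun G _ _ p hp hx hr hn => h G p hp (fun g => ⟨k, hx g⟩) hr hn⟩
  · rintro ⟨c, h⟩
    refine ⟨max c 0 + 13, fun G _ _ p hp hpG hr hn => ?_⟩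
    have hq : HasAbSection (G ⧸ pw p G k)
        fun n => (Nat.card (G ⧸ pw p G k) : ℝ) ≤ (n : ℝ) ^ (max c 0) := by
      rcases subsingleton_or_nontrivial (G ⧸ pw p G k) with hs | hs
      · refine ⟨⊥, ⊥, le_rfl, inferInstance, ?_, ?_⟩
        · intro a _ b _
          rw [Subsingleton.elim (a * b * a⁻¹ * b⁻¹) 1]
          exact one_mem _
        · simp
      · have hx : ∀ x : G ⧸ pw p G k, x ^ p ^ k = 1 := by
          intro x
          obtain ⟨y, rfl⟩ := QuotientGroup.mk_surjective x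
          rw [← QuotientGroup.mk_pow, QuotientGroup.eq_one_iff]
          exact subset_closure ⟨y, rfl⟩
        obtain ⟨K, H, a1, a2, a3, a4⟩ := h (G ⧸ pw p G k) p hp hx (hr.quotient _) hs
        refine ⟨K, H, a1, a2, a3, a4.le.trans ?_⟩
        refine Real.rpow_le_rpow_of_exponent_le ?_ (le_max_left _ _)
        exact_mod_cast rel_pos K H
    exact qn_strict (by linarith) (qn_two hp hpG k hr (max c 0) (le_max_right _ _) hq) hn

end Pool.Agent.PWR
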