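import Pool.Agent.PWR.QN

set_option autoImplicit false

namespace Pool.Agent.PWR

open Subgroup
open scoped commutatorElement

universe u

theorem qr_one {G : Type u} [Group G] [Finite G] {p : ℕ} (hp : p.Prime) (hG : IsPGroup p G)
    (k : ℕ) (hr : PhiRank p G (p ^ k)) :
    HasAbSection G fun n => (Nat.card (pw p G k) : ℝ) ≤ (n : ℝ) ^ 12 := by
  obtain ⟨r, hk, hphi, hsec⟩ := exists_phiRank hp hG (p ^ k) hr
  have hle : pw p G k ≤ vv p r G (p ^ k) := by
    unfold pw
    rw [closure_le]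
    rintro x ⟨y, rfl⟩
    exact qn_pow_pow r hp y k
  have hcard : Nat.card (pw p G k) ≤ Nat.card (vv p r G (p ^ k)) := card_le_of_le hle
  have key : HasAbSection G fun n => Nat.card (vv p r G (p ^ k)) ≤ p ^ r * n ^ 11 := by
    rcases hp.eq_two_or_odd' with h2 | h2
    · subst h2
      have hW := powerful2_q1 (hG.to_subgroup _) (vv_powerful2 hG r hphi _ hk)
      obtain ⟨K, H, a1, a2, a3, a4, -⟩ := hW.of_subgroup
      refine ⟨K, H, a1, a2, a3, ?_⟩
      have e1 := sq_relIndex r hphi (vv 2 r G (2 ^ k))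
      have hle : pths 2 (vv 2 r G (2 ^ k)) ≤ vv 2 r G (2 ^ k) := by
        unfold pths
        rw [closure_le]
        rintro x ⟨y, hy, rfl⟩
        exact pow_mem hy 2
      have e2 : (pths 2 (vv 2 r G (2 ^ k))).relIndex (vv 2 r G (2 ^ k)) *
          Nat.card (pths 2 (vv 2 r G (2 ^ k))) = Nat.card (vv 2 r G (2 ^ k)) := by
        have := ((pths 2 (vv 2 r G (2 ^ k))).subgroupOf
          (vv 2 r G (2 ^ k))).card_eq_card_quotient_mul_card_subgroup
        rw [this]
        congr 1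
        exact (Nat.card_congr (subgroupOfEquivOfLe hle).toEquiv).symm
      rw [← e2]
      exact Nat.mul_le_mul e1 a4
    · have hW := powerful_q1 hp h2 (hG.to_subgroup _) (vv_powerful hp hG r hphi _ hk)
      obtain ⟨K, H, a1, a2, a3, a4, -⟩ := hW.of_subgroup
      refine ⟨K, H, a1, a2, a3, a4.trans ?_⟩
      calc (K.relIndex H) ^ 10 ≤ (K.relIndex H) ^ 11 :=
            Nat.pow_le_pow_right (rel_pos K H) (by norm_num)
        _ = 1 * (K.relIndex H) ^ 11 := (one_mul _).symm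
        _ ≤ p ^ r * (K.relIndex H) ^ 11 :=
            Nat.mul_le_mul (Nat.one_le_pow _ _ hp.pos) le_rfl
  obtain ⟨K, H, a1, a2, a3, a4, a5⟩ := key.max hsec
    (fun m n hmn h => h.trans (Nat.mul_le_mul le_rfl (Nat.pow_le_pow_left hmn 11)))
    (fun m n hmn h => h.trans hmn)
  refine ⟨K, H, a1, a2, a3, ?_⟩
  have h9 : Nat.card (pw p G k) ≤ (K.relIndex H) ^ 12 := by
    refine (hcard.trans a4).trans ?_
    calc p ^ r * (K.relIndex H) ^ 11 ≤ K.relIndex H * (K.relIndex H) ^ 11 :=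
          Nat.mul_le_mul a5 le_rfl
      _ = (K.relIndex H) ^ 12 := by ring
  exact_mod_cast h9

theorem qr_comb {G : Type u} [Group G] [Finite G] {p : ℕ} (k : ℕ) (c : ℝ) (hc : 0 ≤ c)
    (h1 : HasAbSection G fun n => (Nat.card (pw p G k) : ℝ) ≤ (n : ℝ) ^ 12)
    (h2 : HasAbSection G fun n => (Nat.card (G ⧸ pw p G k) : ℝ) ≤ (n : ℝ) ^ c) :
    HasAbSection G fun n => (Nat.card G : ℝ) ≤ (n : ℝ) ^ (c + 12) := by
  obtain ⟨K, H, a1, a2, a3, a4, a5⟩ := h1.max h2
    (fun m n hmn h => h.trans (by gcongr))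
    (fun m n hmn h => h.trans (Real.rpow_le_rpow (Nat.cast_nonneg m) (by exact_mod_cast hmn) hc))
  refine ⟨K, H, a1, a2, a3, ?_⟩
  have hn : (0 : ℝ) < (K.relIndex H : ℝ) := by exact_mod_cast rel_pos K H
  have hcard : (Nat.card G : ℝ) = (Nat.card (pw p G k) : ℝ) * (Nat.card (G ⧸ pw p G k) : ℝ) := by
    have := (pw p G k).card_eq_card_quotient_mul_card_subgroup
    rw [this]
    push_cast
    ring
  change (Nat.card G : ℝ) ≤ (K.relIndex H : ℝ) ^ (c + 12)
  rw [hcard, Real.rpow_add hn, mul_comm ((K.relIndex H : ℝ) ^ c)]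
  refine mul_le_mul ?_ a5 (Nat.cast_nonneg _) (Real.rpow_nonneg hn.le _)
  have e : (12 : ℝ) = ((12 : ℕ) : ℝ) := by norm_num
  rw [e, Real.rpow_natCast]
  exact a4

theorem qr_strict {G : Type u} [Group G] [Finite G] (hn : Nontrivial G) (d : ℝ)
    (h : HasAbSection G fun n => (Nat.card G : ℝ) ≤ (n : ℝ) ^ d) :
    HasAbSection G fun n => (Nat.card G : ℝ) < (n : ℝ) ^ (d + 1) := by
  obtain ⟨K, H, a1, a2, a3, a4⟩ := h
  refine ⟨K, H, a1, a2, a3, a4.trans_lt ?_⟩
  have h6 : (1 : ℝ) < (Nat.card G : ℝ) := by exact_mod_cast (Finite.one_lt_card : 1 < Nat.card G)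
  have h7 : (1 : ℝ) < (K.relIndex H : ℝ) := by
    by_contra hcon
    have h8 : K.relIndex H = 1 := by
      have : K.relIndex H ≤ 1 := by
        have := not_lt.1 hcon
        exact_mod_cast this
      exact le_antisymm this (rel_pos K H)
    rw [h8] at a4
    simp at a4
    have : (Nat.card G : ℝ) ≤ 1 := by exact_mod_cast a4
    linarith
  exact Real.rpow_lt_rpow_of_exponent_lt h7 (by linarith)

theorem qr_mono {G : Type u} [Group G] [Finite G] (m : ℕ) {c d : ℝ} (hcd : c ≤ d)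
    (h : HasAbSection G fun n => (m : ℝ) ≤ (n : ℝ) ^ c) :
    HasAbSection G fun n => (m : ℝ) ≤ (n : ℝ) ^ d := by
  obtain ⟨K, H, a1, a2, a3, a4⟩ := h
  refine ⟨K, H, a1, a2, a3, a4.trans (Real.rpow_le_rpow_of_exponent_le ?_ hcd)⟩
  exact_mod_cast rel_pos K H

/-- a section `N / phi N` of order more than `p ^ s` -/
theorem qr_sec {G : Type u} [Group G] {p s : ℕ} (h : ¬ PhiRank p G s) :
    HasAbSection G fun n => p ^ s < n := by
  unfold PhiRank at h
  push Not at h
  obtain ⟨N, hN⟩ := h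
  refine ⟨phi p N, N, phi_le_self p N, phi_subgroupOf_normal p N, ?_, hN⟩
  intro a ha b hb
  exact (le_sup_right : ⁅N, N⁆ ≤ phi p N) (commutator_mem_commutator ha hb)

theorem qr_exists {G : Type u} [Group G] [Finite G] {p : ℕ} (hp : p.Prime) :
    ∃ k, PhiRank p G (p ^ k) := by
  refine ⟨Nat.card G, fun N => ?_⟩
  have h1 : (phi p N).relIndex N ≤ Nat.card G :=
    (Nat.le_of_dvd Nat.card_pos ((phi p N).relIndex_dvd_card N)).trans
      (card_le_card_group N)
  exact h1.trans ((Nat.lt_pow_self hp.one_lt).le.trans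
    ((Nat.lt_pow_self hp.one_lt).le))

/-- Q1 for all finite `p`-groups is Q1 for those of exponent less than `(p / C) * log_p` of the
order -/
theorem qr_main (C : ℕ) :
    (∃ c : ℝ, ∀ (G : Type u) [Group G] [Finite G] (p : ℕ), p.Prime → IsPGroup p G →
      Nontrivial G → HasAbSection G fun n => (Nat.card G : ℝ) < (n : ℝ) ^ c) ↔
    (∃ c : ℝ, ∀ (G : Type u) [Group G] [Finite G] (p k : ℕ), p.Prime →
      (∀ x : G, x ^ p ^ (k + 1) = 1) → p ^ (C * p ^ k) < Nat.card G →
      HasAbSection G fun n => (Nat.card G : ℝ) < (n : ℝ) ^ c) := by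
  constructor
  · rintro ⟨c, h⟩
    refine ⟨c, fun G _ _ p k hp hx hk => h G p hp (fun g => ⟨k + 1, hx g⟩) ?_⟩
    have h1 : 1 < Nat.card G := lt_of_le_of_lt (Nat.one_le_pow _ _ hp.pos) hk
    exact Finite.one_lt_card_iff_nontrivial.1 h1
  · rintro ⟨c, h⟩
    refine ⟨max (max c 0) C + 12 + 1, fun G _ _ p hp hpG hn => ?_⟩
    classical
    have hpos : 0 ≤ max (max c 0) (C : ℝ) := (le_max_right c 0).trans (le_max_left _ _)
    refine qr_strict hn _ ?_
    have hex := qr_exists (G := G) hp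
    have hk := Nat.find_spec hex
    refine qr_comb (Nat.find hex) _ hpos (qr_one hp hpG _ hk) ?_
    rcases Nat.eq_zero_or_pos (Nat.find hex) with h0 | h0
    · -- `P_0 = P`
      have e : Nat.card (G ⧸ pw p G (Nat.find hex)) = 1 := by
        show (pw p G (Nat.find hex)).index = 1
        rw [h0, pw_zero, index_top]
      rw [e]
      refine ⟨⊥, ⊥, le_rfl, inferInstance, ?_, ?_⟩
      · intro a ha b hb
        rw [mem_bot] at ha hb ⊢
        simp [ha, hb]
      · simp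
    · obtain ⟨k, hk1⟩ : ∃ k, Nat.find hex = k + 1 := ⟨Nat.find hex - 1, by omega⟩
      have hnot : ¬ PhiRank p G (p ^ k) := Nat.find_min hex (by omega)
      rw [hk1]
      rcases Nat.lt_or_ge (p ^ (C * p ^ k)) (Nat.card (G ⧸ pw p G (k + 1))) with h1 | h1
      · have hx : ∀ x : G ⧸ pw p G (k + 1), x ^ p ^ (k + 1) = 1 := by
          intro x
          obtain ⟨y, rfl⟩ := QuotientGroup.mk_surjective x
          rw [← QuotientGroup.mk_pow, QuotientGroup.eq_one_iff]
          exact subset_closure ⟨y, rfl⟩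
        have h2 := h (G ⧸ pw p G (k + 1)) p k hp hx h1
        have h3 : HasAbSection (G ⧸ pw p G (k + 1)) fun n =>
            (Nat.card (G ⧸ pw p G (k + 1)) : ℝ) ≤ (n : ℝ) ^ c := h2.mono fun n h => h.le
        exact HasAbSection.of_quotient (pw p G (k + 1))
          (qr_mono _ ((le_max_left c 0).trans (le_max_left _ _)) h3)
      · obtain ⟨K, H, a1, a2, a3, a4⟩ := qr_sec hnot
        have h2 : HasAbSection G fun n =>
            (Nat.card (G ⧸ pw p G (k + 1)) : ℝ) ≤ (n : ℝ) ^ (C : ℝ) := by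
          refine ⟨K, H, a1, a2, a3, ?_⟩
          have h4 : Nat.card (G ⧸ pw p G (k + 1)) ≤ (K.relIndex H) ^ C := by
            refine h1.trans ?_
            rw [mul_comm, pow_mul]
            exact Nat.pow_le_pow_left a4.le C
          show (Nat.card (G ⧸ pw p G (k + 1)) : ℝ) ≤ ((K.relIndex H : ℕ) : ℝ) ^ (C : ℝ)
          rw [Real.rpow_natCast]
          exact_mod_cast h4
        exact qr_mono _ (le_max_right _ _) h2

/-- the same with a real number `C` -/
theorem qr_real (C : ℝ) :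
    (∃ c : ℝ, ∀ (G : Type u) [Group G] [Finite G] (p : ℕ), p.Prime → IsPGroup p G →
      Nontrivial G → HasAbSection G fun n => (Nat.card G : ℝ) < (n : ℝ) ^ c) ↔
    (∃ c : ℝ, ∀ (G : Type u) [Group G] [Finite G] (p k : ℕ), p.Prime →
      (∀ x : G, x ^ p ^ (k + 1) = 1) → (p : ℝ) ^ (C * (p : ℝ) ^ k) < Nat.card G →
      Nontrivial G → HasAbSection G fun n => (Nat.card G : ℝ) < (n : ℝ) ^ c) := by
  constructor
  · rintro ⟨c, h⟩
    exact ⟨c, fun G _ _ p k hp hx _ hn => h G p hp (fun g => ⟨k + 1, hx g⟩) hn⟩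
  · rintro ⟨c, h⟩
    refine (qr_main.{u} ⌈C⌉₊).2 ⟨c, fun G _ _ p k hp hx hk => ?_⟩
    have h1 : 1 < Nat.card G := lt_of_le_of_lt (Nat.one_le_pow _ _ hp.pos) hk
    refine h G p k hp hx ?_ (Finite.one_lt_card_iff_nontrivial.1 h1)
    have hp1 : (1 : ℝ) ≤ (p : ℝ) := by exact_mod_cast hp.one_lt.le
    have h2 : (p : ℝ) ^ (C * (p : ℝ) ^ k) ≤ (p : ℝ) ^ (((⌈C⌉₊ * p ^ k : ℕ)) : ℝ) := by
      refine Real.rpow_le_rpow_of_exponent_le hp1 ?_
      push_cast
      exact mul_le_mul_of_nonneg_right (Nat.le_ceil C) (by positivity)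
    refine h2.trans_lt ?_
    rw [Real.rpow_natCast]
    exact_mod_cast hk

end Pool.Agent.PWR
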