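import Pool.Agent.PWR.QR

/-! Exponent and class. -/

set_option autoImplicit false

namespace Pool.Agent.PWR

open Subgroup
open scoped commutatorElement

universe u

/-- the subgroup generated by the `p ^ k`-th powers and the term `γ_(m+1)` of the lower central
series -/
def pg (p : ℕ) (G : Type*) [Group G] (k m : ℕ) : Subgroup G :=
  pw p G k ⊔ (⊤ : Subgroup G).lowerCentralSeries m

instance pg_normal {G : Type*} [Group G] (p k m : ℕ) : (pg p G k m).Normal := by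
  unfold pg
  infer_instance

theorem qs_ech_anti {G : Type u} [Group G] {p r : ℕ} {A B : Subgroup G} (h : Sec p r A B) :
    Antitone (ech A B) :=
  antitone_nat_of_succ_le fun j => (ech_le h j).2.1

theorem qs_vv_anti {G : Type u} [Group G] (p r : ℕ) {k l : ℕ} (hkl : k ≤ l) :
    vv p r G l ≤ vv p r G k := by
  intro g hg
  rw [mem_vv] at hg ⊢
  intro A B h j a ha
  exact qs_ech_anti h (by omega) (hg A B h j a ha)

theorem qs_three {G : Type u} [Group G] (N : Subgroup G) [N.Normal] (V W E : Subgroup G)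
    (h1 : ⁅⁅E, V⁆, W⁆ ≤ N) (h2 : ⁅⁅E, W⁆, V⁆ ≤ N) : ⁅⁅V, W⁆, E⁆ ≤ N := by
  have key : ∀ K : Subgroup G, K ≤ N ↔ K.map (QuotientGroup.mk' N) = ⊥ := by
    intro K
    rw [Subgroup.map_eq_bot_iff, QuotientGroup.ker_mk']
  rw [key] at h1 h2 ⊢
  rw [Subgroup.map_commutator, Subgroup.map_commutator] at h1 h2 ⊢
  apply Subgroup.commutator_commutator_eq_bot_of_rotate
  · rw [Subgroup.commutator_comm (W.map _) (E.map _)]
    exact h2
  · exact h1

theorem qs_vv_comm {G : Type u} [Group G] (p r k : ℕ) :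
    ⁅vv p r G k, (⊤ : Subgroup G)⁆ ≤ vv p r G (k + 1) := by
  intro g hg
  rw [mem_vv]
  intro A B h j a ha
  have hn : (ech A B (j + (k + 1))).Normal := ech_normal h _
  have e1 : ∀ i, ⁅ech A B i, (⊤ : Subgroup G)⁆ ≤ ech A B (i + 1) := fun i => le_sup_left
  have h1 : ⁅⁅ech A B j, vv p r G k⁆, (⊤ : Subgroup G)⁆ ≤ ech A B (j + (k + 1)) :=
    (Subgroup.commutator_mono (qi1_ech h j) le_rfl).trans (e1 (j + k))
  have h2 : ⁅⁅ech A B j, (⊤ : Subgroup G)⁆, vv p r G k⁆ ≤ ech A B (j + (k + 1)) := by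
    refine (Subgroup.commutator_mono (e1 j) le_rfl).trans ?_
    have h3 := qi1_ech (k := k) h (j + 1)
    rwa [show j + 1 + k = j + (k + 1) by ring] at h3
  have h3 := qs_three _ _ _ _ h1 h2
  rw [Subgroup.commutator_comm] at h3
  exact h3 (Subgroup.commutator_mem_commutator ha hg)

/-- `γ_(m+1) ≤ vv (m + 1)` -/
theorem qs_lcs {G : Type u} [Group G] (p r m : ℕ) :
    (⊤ : Subgroup G).lowerCentralSeries m ≤ vv p r G (m + 1) := by
  induction m with
  | zero =>
    rw [zero_add, vv_one]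
    exact le_top
  | succ m ih =>
    rw [Subgroup.lowerCentralSeries_succ]
    exact (Subgroup.commutator_mono ih le_rfl).trans (qs_vv_comm p r (m + 1))

theorem qs_pg_le {G : Type u} [Group G] {p : ℕ} (hp : p.Prime) (r k m : ℕ) (hk : r ≤ p ^ k)
    (hm : r ≤ m + 1) : pg p G k m ≤ vv p r G r := by
  refine sup_le ?_ ((qs_lcs p r m).trans (qs_vv_anti p r hm))
  unfold pw
  rw [closure_le]
  rintro x ⟨y, rfl⟩
  exact qs_vv_anti p r hk (qn_pow_pow r hp y k)

theorem qs_core {G : Type u} [Group G] [Finite G] {p : ℕ} (hp : p.Prime) (hG : IsPGroup p G)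
    (r : ℕ) (hphi : PhiRank p G r) (hsec : HasAbSection G fun n => p ^ r ≤ n) (W : Subgroup G)
    (hW : W ≤ vv p r G r) : HasAbSection G fun n => (Nat.card W : ℝ) ≤ (n : ℝ) ^ 12 := by
  have hcard : Nat.card W ≤ Nat.card (vv p r G r) := card_le_of_le hW
  have key : HasAbSection G fun n => Nat.card (vv p r G r) ≤ p ^ r * n ^ 11 := by
    rcases hp.eq_two_or_odd' with h2 | h2
    · subst h2
      have hW := powerful2_q1 (hG.to_subgroup _) (vv_powerful2 hG r hphi _ le_rfl)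
      obtain ⟨K, H, a1, a2, a3, a4, -⟩ := hW.of_subgroup
      refine ⟨K, H, a1, a2, a3, ?_⟩
      have e1 := sq_relIndex r hphi (vv 2 r G r)
      have hle : pths 2 (vv 2 r G r) ≤ vv 2 r G r := by
        unfold pths
        rw [closure_le]
        rintro x ⟨y, hy, rfl⟩
        exact pow_mem hy 2
      have e2 : (pths 2 (vv 2 r G r)).relIndex (vv 2 r G r) *
          Nat.card (pths 2 (vv 2 r G r)) = Nat.card (vv 2 r G r) := by
        have := ((pths 2 (vv 2 r G r)).subgroupOf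
          (vv 2 r G r)).card_eq_card_quotient_mul_card_subgroup
        rw [this]
        congr 1
        exact (Nat.card_congr (subgroupOfEquivOfLe hle).toEquiv).symm
      rw [← e2]
      exact Nat.mul_le_mul e1 a4
    · have hW := powerful_q1 hp h2 (hG.to_subgroup _) (vv_powerful hp hG r hphi _ le_rfl)
      obtain ⟨K, H, a1, a2, a3, a4, -⟩ := hW.of_subgroup
      refine ⟨K, H, a1, a2, a3, a4.trans ?_⟩
      calc (K.relIndex H) ^ 10 ≤ (K.relIndex H) ^ 11 :=
            Nat.pow_le_pow_right (rel_pos K H) (by norm_num)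
        _ = 1 * (K.relIndex H) ^ 11 := (one_mul _).symm
        _ ≤ p ^ r * (K.relIndex H) ^ 11 :=
            Nat.mul_le_mul (Nat.one_le_pow _ _ hp.pos) le_rfl
  obtain ⟨K, H, a1, a2, a3, a4, a5⟩ := key.max hsec
    (fun m n hmn h => h.trans (Nat.mul_le_mul le_rfl (Nat.pow_le_pow_left hmn 11)))
    (fun m n hmn h => h.trans hmn)
  refine ⟨K, H, a1, a2, a3, ?_⟩
  have h9 : Nat.card W ≤ (K.relIndex H) ^ 12 := by
    refine (hcard.trans a4).trans ?_
    calc p ^ r * (K.relIndex H) ^ 11 ≤ K.relIndex H * (K.relIndex H) ^ 11 :=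
          Nat.mul_le_mul a5 le_rfl
      _ = (K.relIndex H) ^ 12 := by ring
  exact_mod_cast h9

theorem qs_comb {G : Type u} [Group G] [Finite G] (W : Subgroup G) [W.Normal] (c : ℝ) (hc : 0 ≤ c)
    (h1 : HasAbSection G fun n => (Nat.card W : ℝ) ≤ (n : ℝ) ^ 12)
    (h2 : HasAbSection G fun n => (Nat.card (G ⧸ W) : ℝ) ≤ (n : ℝ) ^ c) :
    HasAbSection G fun n => (Nat.card G : ℝ) ≤ (n : ℝ) ^ (c + 12) := by
  obtain ⟨K, H, a1, a2, a3, a4, a5⟩ := h1.max h2
    (fun m n hmn h => h.trans (by gcongr))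
    (fun m n hmn h => h.trans (Real.rpow_le_rpow (Nat.cast_nonneg m) (by exact_mod_cast hmn) hc))
  refine ⟨K, H, a1, a2, a3, ?_⟩
  have hn : (0 : ℝ) < (K.relIndex H : ℝ) := by exact_mod_cast rel_pos K H
  have hcard : (Nat.card G : ℝ) = (Nat.card W : ℝ) * (Nat.card (G ⧸ W) : ℝ) := by
    have := W.card_eq_card_quotient_mul_card_subgroup
    rw [this]
    push_cast
    ring
  change (Nat.card G : ℝ) ≤ (K.relIndex H : ℝ) ^ (c + 12)
  rw [hcard, Real.rpow_add hn, mul_comm ((K.relIndex H : ℝ) ^ c)]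
  refine mul_le_mul ?_ a5 (Nat.cast_nonneg _) (Real.rpow_nonneg hn.le _)
  have e : (12 : ℝ) = ((12 : ℕ) : ℝ) := by norm_num
  rw [e, Real.rpow_natCast]
  exact a4

/-- (1) `|P_k γ_(m+1)| ≤ |A| ^ 12` if the rank is at most `p ^ k` and at most `m + 1` -/
theorem qs_one {G : Type u} [Group G] [Finite G] {p : ℕ} (hp : p.Prime) (hG : IsPGroup p G)
    (k m : ℕ) (hk : HasRank G (p ^ k)) (hm : HasRank G (m + 1)) :
    HasAbSection G (fun n => Nat.card (pg p G k m) ≤ n ^ 12) ∧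
    (∀ c : ℝ, 0 ≤ c →
      HasAbSection (G ⧸ pg p G k m) (fun n => (Nat.card (G ⧸ pg p G k m) : ℝ) ≤ (n : ℝ) ^ c) →
      HasAbSection G fun n => (Nat.card G : ℝ) ≤ (n : ℝ) ^ (c + 12)) := by
  obtain ⟨r0, hr0, hphi, hsec⟩ := exists_phiRank hp hG (min (p ^ k) (m + 1)) (by
    rcases min_choice (p ^ k) (m + 1) with h | h
    · rw [h]; exact hk.phiRank hp
    · rw [h]; exact hm.phiRank hp)
  have h1 := qs_core hp hG r0 hphi hsec (pg p G k m)
    (qs_pg_le hp r0 k m (hr0.trans (min_le_left _ _)) (hr0.trans (min_le_right _ _)))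
  refine ⟨h1.mono fun n h => by exact_mod_cast h, fun c hc h2 => ?_⟩
  exact qs_comb _ c hc h1 (HasAbSection.of_quotient _ h2)

theorem qs_exp {G : Type u} [Group G] (p k m : ℕ) (x : G ⧸ pg p G k m) : x ^ p ^ k = 1 := by
  obtain ⟨y, rfl⟩ := QuotientGroup.mk_surjective x
  rw [← QuotientGroup.mk_pow, QuotientGroup.eq_one_iff]
  exact (le_sup_left : pw p G k ≤ pg p G k m) (subset_closure ⟨y, rfl⟩)

theorem qs_class {G : Type u} [Group G] (p k m : ℕ) :
    (⊤ : Subgroup (G ⧸ pg p G k m)).lowerCentralSeries m = ⊥ := by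
  have h1 := map_lowerCentralSeries (⊤ : Subgroup G) (QuotientGroup.mk' (pg p G k m)) m
  rw [map_top_of_surjective _ (QuotientGroup.mk'_surjective _)] at h1
  rw [← h1, Subgroup.map_eq_bot_iff, QuotientGroup.ker_mk']
  exact le_sup_right

theorem qs_trivial {Q : Type u} [Group Q] [Subsingleton Q] (c : ℝ) :
    HasAbSection Q fun n => (Nat.card Q : ℝ) ≤ (n : ℝ) ^ c := by
  refine ⟨⊥, ⊥, le_rfl, inferInstance, ?_, ?_⟩
  · intro a _ b _
    rw [Subsingleton.elim (a * b * a⁻¹ * b⁻¹) 1]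
    exact one_mem _
  · simp

/-- (2), second part: rank at most `p ^ k`, exponent dividing `p ^ k`, class less than `p ^ k` -/
theorem qs_three_final (k : ℕ) :
    (∃ c : ℝ, ∀ (G : Type u) [Group G] [Finite G] (p : ℕ), p.Prime → IsPGroup p G →
      HasRank G (p ^ k) → Nontrivial G → HasAbSection G fun n => (Nat.card G : ℝ) < (n : ℝ) ^ c) ↔
    (∃ c : ℝ, ∀ (G : Type u) [Group G] [Finite G] (p : ℕ), p.Prime → (∀ x : G, x ^ p ^ k = 1) →
      (⊤ : Subgroup G).lowerCentralSeries (p ^ k - 1) = ⊥ → HasRank G (p ^ k) → Nontrivial G →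
      HasAbSection G fun n => (Nat.card G : ℝ) < (n : ℝ) ^ c) := by
  constructor
  · rintro ⟨c, h⟩
    exact ⟨c, fun G _ _ p hp hx _ hr hn => h G p hp (fun g => ⟨k, hx g⟩) hr hn⟩
  · rintro ⟨c, h⟩
    refine ⟨max c 0 + 13, fun G _ _ p hp hpG hr hn => ?_⟩
    have hm : HasRank G (p ^ k - 1 + 1) := by
      rw [Nat.sub_add_cancel (Nat.one_le_pow _ _ hp.pos)]
      exact hr
    refine qn_strict (by linarith) ((qs_one hp hpG k (p ^ k - 1) hr hm).2 (max c 0)
      (le_max_right _ _) ?_) hn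
    rcases subsingleton_or_nontrivial (G ⧸ pg p G k (p ^ k - 1)) with hs | hs
    · exact qs_trivial _
    · obtain ⟨K, H, a1, a2, a3, a4⟩ := h (G ⧸ pg p G k (p ^ k - 1)) p hp (qs_exp p k _)
        (qs_class p k _) (hr.quotient _) hs
      refine ⟨K, H, a1, a2, a3, a4.le.trans ?_⟩
      refine Real.rpow_le_rpow_of_exponent_le ?_ (le_max_left _ _)
      exact_mod_cast rel_pos K H

theorem qs_main (C : ℕ) :
    (∃ c : ℝ, ∀ (G : Type u) [Group G] [Finite G] (p k m : ℕ), p.Prime →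
      (∀ x : G, x ^ p ^ (k + 1) = 1) → (⊤ : Subgroup G).lowerCentralSeries m = ⊥ →
      p ^ (C * p ^ k) < Nat.card G → p ^ (C * m) < Nat.card G →
      HasAbSection G fun n => (Nat.card G : ℝ) < (n : ℝ) ^ c) →
    (∃ c : ℝ, ∀ (G : Type u) [Group G] [Finite G] (p : ℕ), p.Prime → IsPGroup p G →
      Nontrivial G → HasAbSection G fun n => (Nat.card G : ℝ) < (n : ℝ) ^ c) := by
  rintro ⟨c, h⟩
  refine ⟨max (max c 0) C + 12 + 1, fun G _ _ p hp hpG hn => ?_⟩
  have hpos : 0 ≤ max (max c 0) (C : ℝ) := (le_max_right c 0).trans (le_max_left _ _)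
  refine qr_strict hn _ ?_
  obtain ⟨k0, hk0⟩ := qr_exists (G := G) hp
  obtain ⟨r, -, hphi, hsec⟩ := exists_phiRank hp hpG _ hk0
  have hpg : ∀ k m, r ≤ p ^ k → r ≤ m + 1 → (HasAbSection G fun n =>
      (Nat.card (G ⧸ pg p G k m) : ℝ) ≤ (n : ℝ) ^ (max (max c 0) (C : ℝ))) →
      HasAbSection G fun n => (Nat.card G : ℝ) ≤ (n : ℝ) ^ (max (max c 0) (C : ℝ) + 12) :=
    fun k m hk hm h2 => qs_comb _ _ hpos
      (qs_core hp hpG r hphi hsec (pg p G k m) (qs_pg_le hp r k m hk hm)) h2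
  rcases Nat.lt_or_ge 1 r with h1r | h1r
  · -- the main case
    have hlt := Nat.pow_pred_clog_lt_self hp.one_lt h1r
    have hle := Nat.le_pow_clog hp.one_lt r
    have hcl : 0 < Nat.clog p r := Nat.clog_pos hp.one_lt h1r
    obtain ⟨k, hk⟩ : ∃ k, Nat.clog p r = k + 1 := ⟨Nat.clog p r - 1, by omega⟩
    rw [hk] at hlt hle
    rw [Nat.pred_succ] at hlt
    refine hpg (k + 1) (r - 1) hle (by omega) ?_
    rcases Nat.lt_or_ge (p ^ (C * r)) (Nat.card (G ⧸ pg p G (k + 1) (r - 1))) with h1 | h1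
    · have h3 := h (G ⧸ pg p G (k + 1) (r - 1)) p k (r - 1) hp (qs_exp p (k + 1) _)
        (qs_class p (k + 1) _)
        (lt_of_le_of_lt (Nat.pow_le_pow_right hp.pos (Nat.mul_le_mul le_rfl hlt.le)) h1)
        (lt_of_le_of_lt (Nat.pow_le_pow_right hp.pos (Nat.mul_le_mul le_rfl (by omega))) h1)
      have h4 : HasAbSection (G ⧸ pg p G (k + 1) (r - 1)) fun n =>
          (Nat.card (G ⧸ pg p G (k + 1) (r - 1)) : ℝ) ≤ (n : ℝ) ^ c := h3.mono fun n h => h.le
      exact HasAbSection.of_quotient _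
        (qr_mono _ ((le_max_left c 0).trans (le_max_left _ _)) h4)
    · obtain ⟨K, H, a1, a2, a3, a4⟩ := hsec
      have h2 : HasAbSection G fun n =>
          (Nat.card (G ⧸ pg p G (k + 1) (r - 1)) : ℝ) ≤ (n : ℝ) ^ (C : ℝ) := by
        refine ⟨K, H, a1, a2, a3, ?_⟩
        have h4 : Nat.card (G ⧸ pg p G (k + 1) (r - 1)) ≤ (K.relIndex H) ^ C := by
          refine h1.trans ?_
          rw [mul_comm, pow_mul]
          exact Nat.pow_le_pow_left a4 C
        show (Nat.card (G ⧸ pg p G (k + 1) (r - 1)) : ℝ) ≤ ((K.relIndex H : ℕ) : ℝ) ^ (C : ℝ)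
        rw [Real.rpow_natCast]
        exact_mod_cast h4
      exact qr_mono _ (le_max_right _ _) h2
  · -- `r ≤ 1`: then `P_0 = P`
    refine hpg 0 0 (by simpa using h1r) (by omega) ?_
    have e : pg p G 0 0 = ⊤ := by
      unfold pg
      rw [pw_zero, top_sup_eq]
    have hs : Subsingleton (G ⧸ pg p G 0 0) := by
      rw [e]
      exact QuotientGroup.subsingleton_quotient_top
    exact HasAbSection.of_quotient _ (qs_trivial _)

/-- (2): Q1 for all finite `p`-groups is Q1 for those of exponent less than `(p / C) * log_p |P|` and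
class less than `(1 / C) * log_p |P|` -/
theorem qs_real (C : ℝ) :
    (∃ c : ℝ, ∀ (G : Type u) [Group G] [Finite G] (p : ℕ), p.Prime → IsPGroup p G →
      Nontrivial G → HasAbSection G fun n => (Nat.card G : ℝ) < (n : ℝ) ^ c) ↔
    (∃ c : ℝ, ∀ (G : Type u) [Group G] [Finite G] (p k m : ℕ), p.Prime →
      (∀ x : G, x ^ p ^ (k + 1) = 1) → (⊤ : Subgroup G).lowerCentralSeries m = ⊥ →
      (p : ℝ) ^ (C * (p : ℝ) ^ k) < Nat.card G → (p : ℝ) ^ (C * (m : ℝ)) < Nat.card G →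
      Nontrivial G → HasAbSection G fun n => (Nat.card G : ℝ) < (n : ℝ) ^ c) := by
  constructor
  · rintro ⟨c, h⟩
    exact ⟨c, fun G _ _ p k m hp hx _ _ _ hn => h G p hp (fun g => ⟨k + 1, hx g⟩) hn⟩
  · rintro ⟨c, h⟩
    refine qs_main.{u} ⌈C⌉₊ ⟨c, fun G _ _ p k m hp hx hm hk hkm => ?_⟩
    have h1 : 1 < Nat.card G := lt_of_le_of_lt (Nat.one_le_pow _ _ hp.pos) hk
    have hp1 : (1 : ℝ) ≤ (p : ℝ) := by exact_mod_cast hp.one_lt.le
    have h2 : (p : ℝ) ^ (C * (p : ℝ) ^ k) ≤ (p : ℝ) ^ (((⌈C⌉₊ * p ^ k : ℕ)) : ℝ) := by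
      refine Real.rpow_le_rpow_of_exponent_le hp1 ?_
      push_cast
      exact mul_le_mul_of_nonneg_right (Nat.le_ceil C) (by positivity)
    have h3 : (p : ℝ) ^ (C * (m : ℝ)) ≤ (p : ℝ) ^ (((⌈C⌉₊ * m : ℕ)) : ℝ) := by
      refine Real.rpow_le_rpow_of_exponent_le hp1 ?_
      push_cast
      exact mul_le_mul_of_nonneg_right (Nat.le_ceil C) (by positivity)
    refine h G p k m hp hx hm (h2.trans_lt ?_) (h3.trans_lt ?_)
      (Finite.one_lt_card_iff_nontrivial.1 h1)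
    · rw [Real.rpow_natCast]
      exact_mod_cast hk
    · rw [Real.rpow_natCast]
      exact_mod_cast hkm

end Pool.Agent.PWR
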