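import Pool.Agent.PWR.RDefs

set_option autoImplicit false

namespace Pool.Agent.PWR

open Subgroup
open scoped commutatorElement

universe u

/-- the derived subgroup of the subgroup generated by `S` lies in `T` as soon as `T` is normalised
by it and contains the commutators of the generators -/
theorem comm_closure {G : Type u} [Group G] (T : Subgroup G) (S : Set G)
    (hn : ∀ h ∈ closure S, ∀ t ∈ T, h * t * h⁻¹ ∈ T) (hS : ∀ a ∈ S, ∀ b ∈ S, ⁅a, b⁆ ∈ T) :
    ⁅closure S, closure S⁆ ≤ T := by
  have key : ∀ a ∈ S, ∀ g ∈ closure S, ⁅a, g⁆ ∈ T := by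
    intro a ha g hg
    induction hg using closure_induction with
    | mem x hx => exact hS a ha x hx
    | one => simp
    | mul x y hx hy ihx ihy =>
      have : ⁅a, x * y⁆ = ⁅a, x⁆ * (x * ⁅a, y⁆ * x⁻¹) := by
        simp only [commutatorElement_def]
        group
      rw [this]
      exact T.mul_mem ihx (hn x hx _ ihy)
    | inv x hx ih =>
      have : ⁅a, x⁻¹⁆ = x⁻¹ * ⁅a, x⁆⁻¹ * x⁻¹⁻¹ := by
        simp only [commutatorElement_def]
        group
      rw [this]
      exact hn x⁻¹ ((closure S).inv_mem hx) _ (T.inv_mem ih)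
  rw [commutator_le]
  intro g hg k hk
  induction hg using closure_induction with
  | mem x hx => exact key x hx k hk
  | one => simp
  | mul x y hx hy ihx ihy =>
    have : ⁅x * y, k⁆ = (x * ⁅y, k⁆ * x⁻¹) * ⁅x, k⁆ := by
      simp only [commutatorElement_def]
      group
    rw [this]
    exact T.mul_mem (hn x hx _ ihy) ihx
  | inv x hx ih =>
    have : ⁅x⁻¹, k⁆ = x⁻¹ * ⁅x, k⁆⁻¹ * x⁻¹⁻¹ := by
      simp only [commutatorElement_def]
      group
    rw [this]
    exact hn x⁻¹ ((closure S).inv_mem hx) _ (T.inv_mem ih)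

end Pool.Agent.PWR
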