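import Pool.Agent.PWR.RM
import Pool.Agent.PWR.RC

/-! Row RA: in a regular `p`-group `a ^ p = b ^ p` if and only if `(a * b⁻¹) ^ p = 1`. -/

set_option autoImplicit false

namespace Pool.Agent.PWR

open Subgroup
open scoped commutatorElement

universe u

variable {G : Type u} [Group G]

/-- The statement for the elements of `H`. -/
def RaH (p : ℕ) (H : Subgroup G) : Prop :=
  ∀ a ∈ H, ∀ b ∈ H, a ^ p = b ^ p ↔ (a * b⁻¹) ^ p = 1

theorem ra_pths_bot {p : ℕ} {X : Subgroup G} (h : ∀ s ∈ X, s ^ p = 1) {s : G}
    (hs : s ∈ pths p X) : s = 1 := by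
  have h1 : pths p X ≤ ⊥ := by
    unfold pths
    rw [closure_le]
    rintro z ⟨t, ht, rfl⟩
    rw [h t ht]
    exact one_mem _
  exact mem_bot.1 (h1 hs)

theorem ra_conj_pow (p : ℕ) (y x : G) : (y * x * y⁻¹) ^ p = y * x ^ p * y⁻¹ := conj_pow

theorem ra_core [Finite G] {p : ℕ} (hp : p.Prime) (hG : IsPGroup p G) (hR : IsRegular p G)
    {H : Subgroup G} (ih : ∀ M : Subgroup G, M < H → RaH p M) {x y : G}
    (hH : closure {x, y} = H) (hxy : (y * x * y⁻¹) ^ p = x ^ p) :
    (x * y) ^ p = x ^ p * y ^ p := by
  have hx : x ∈ H := by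
    rw [← hH]
    exact subset_closure (by simp)
  have hy : y ∈ H := by
    rw [← hH]
    exact subset_closure (by simp)
  have hle : zpowers x ≤ H := by
    rw [zpowers_le]
    exact hx
  rcases hle.eq_or_lt with h | h
  · have hy' : y ∈ zpowers x := by
      rw [h]
      exact hy
    obtain ⟨k, rfl⟩ := mem_zpowers_iff.1 hy'
    exact ((Commute.refl x).zpow_right k).mul_pow p
  · obtain ⟨M, hAM, hMH, hn, hd⟩ := exists_max hp hG h
    have hxM : x ∈ M := hAM (mem_zpowers x)
    have hM := ih M hMH
    -- the elements of `M` of order dividing `p`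
    let T : Subgroup G :=
      { carrier := {z | z ∈ M ∧ z ^ p = 1}
        mul_mem' := by
          rintro z w ⟨hz, hz1⟩ ⟨hw, hw1⟩
          refine ⟨M.mul_mem hz hw, ?_⟩
          have h1 := (hM z hz w⁻¹ (M.inv_mem hw)).1 (by rw [hz1, inv_pow, hw1, inv_one])
          rwa [inv_inv] at h1
        one_mem' := ⟨M.one_mem, one_pow p⟩
        inv_mem' := by
          rintro z ⟨hz, hz1⟩
          exact ⟨M.inv_mem hz, by rw [inv_pow, hz1, inv_one]⟩ }
    have hTm : ∀ z : G, z ∈ T ↔ z ∈ M ∧ z ^ p = 1 := fun z => Iff.rfl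
    have hTn : ∀ g ∈ closure ({x, y} : Set G), ∀ t ∈ T, g * t * g⁻¹ ∈ T := by
      intro g hg t ht
      rw [hH] at hg
      obtain ⟨ht1, ht2⟩ := (hTm t).1 ht
      exact (hTm _).2 ⟨hn g hg t ht1, by rw [ra_conj_pow, ht2, mul_one, mul_inv_cancel]⟩
    have hyx : ⁅y, x⁆ ∈ T := by
      have h1 : y * x * y⁻¹ ∈ M := hn y hy x hxM
      have h2 := (hM _ h1 x hxM).1 hxy
      refine (hTm _).2 ⟨?_, ?_⟩
      · rw [commutatorElement_def]
        exact M.mul_mem h1 (M.inv_mem hxM)
      · rw [commutatorElement_def]
        exact h2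
    have hS : ∀ a ∈ ({x, y} : Set G), ∀ b ∈ ({x, y} : Set G), ⁅a, b⁆ ∈ T := by
      intro a ha b hb
      rcases ha with rfl | ha
      · rcases hb with rfl | hb
        · rw [commutatorElement_self]
          exact T.one_mem
        · rw [Set.mem_singleton_iff.1 hb, ← commutatorElement_inv]
          exact T.inv_mem hyx
      · rw [Set.mem_singleton_iff.1 ha]
        rcases hb with rfl | hb
        · exact hyx
        · rw [Set.mem_singleton_iff.1 hb, commutatorElement_self]
          exact T.one_mem
    have hT := comm_closure T {x, y} hTn hS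
    obtain ⟨s, hs, hs'⟩ := hR x y
    have h1 : s = 1 := ra_pths_bot (fun t ht => ((hTm t).1 (hT ht)).2) hs
    rw [hs', h1, mul_one]

theorem ra_closure_inv (a b : G) : closure {a, b⁻¹} = closure {a, b} := by
  apply le_antisymm
  · rw [closure_le]
    rintro z (rfl | hz)
    · exact subset_closure (by simp)
    · rw [Set.mem_singleton_iff.1 hz]
      exact inv_mem (subset_closure (by simp))
  · rw [closure_le]
    rintro z (rfl | hz)
    · exact subset_closure (by simp)
    · rw [Set.mem_singleton_iff.1 hz]
      have h1 : b⁻¹ ∈ closure ({a, b⁻¹} : Set G) := subset_closure (by simp)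
      have h2 := inv_mem h1
      rwa [inv_inv] at h2

theorem ra_closure_div (a b : G) : closure {a * b⁻¹, b} = closure {a, b} := by
  apply le_antisymm
  · rw [closure_le]
    rintro z (rfl | hz)
    · exact mul_mem (subset_closure (by simp)) (inv_mem (subset_closure (by simp)))
    · rw [Set.mem_singleton_iff.1 hz]
      exact subset_closure (by simp)
  · rw [closure_le]
    rintro z (rfl | hz)
    · have h1 : z * b⁻¹ ∈ closure ({z * b⁻¹, b} : Set G) := subset_closure (by simp)
      have h2 : b ∈ closure ({z * b⁻¹, b} : Set G) := subset_closure (by simp)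
      have h3 := mul_mem h1 h2
      rwa [inv_mul_cancel_right] at h3
    · rw [Set.mem_singleton_iff.1 hz]
      exact subset_closure (by simp)

theorem ra_all [Finite G] {p : ℕ} (hp : p.Prime) (hG : IsPGroup p G) (hR : IsRegular p G) :
    ∀ (n : ℕ) (H : Subgroup G), Nat.card H = n → RaH p H := by
  intro n
  induction n using Nat.strong_induction_on with
  | _ n ih =>
    intro H hn a ha b hb
    have hlt : ∀ M : Subgroup G, M < H → RaH p M := by
      intro M hM
      refine ih (Nat.card M) ?_ M rfl
      rw [← hn]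
      exact Set.Finite.card_lt_card (Set.toFinite (H : Set G)) hM
    have hK : closure {a, b} ≤ H := by
      rw [closure_le]
      rintro z (rfl | hz)
      · exact ha
      · rw [Set.mem_singleton_iff.1 hz]
        exact hb
    rcases hK.eq_or_lt with h | h
    · constructor
      · intro hab
        have h1 := ra_core hp hG hR hlt (x := a) (y := b⁻¹)
          (by rw [ra_closure_inv, h]) (by
            rw [ra_conj_pow, hab, inv_inv, mul_assoc, ← pow_succ, pow_succ', inv_mul_cancel_left])
        rw [h1, inv_pow, hab, mul_inv_cancel]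
      · intro hc
        have h1 := ra_core hp hG hR hlt (x := a * b⁻¹) (y := b)
          (by rw [ra_closure_div, h]) (by
            rw [ra_conj_pow, hc, mul_one, mul_inv_cancel])
        rwa [inv_mul_cancel_right, hc, one_mul] at h1
    · exact hlt _ h a (subset_closure (by simp)) b (subset_closure (by simp))

/-- Row RA. -/
theorem pow_eq_iff {G : Type u} [Group G] [Finite G] {p : ℕ} (hp : p.Prime) (hG : IsPGroup p G)
    (hR : IsRegular p G) (a b : G) : a ^ p = b ^ p ↔ (a * b⁻¹) ^ p = 1 :=
  ra_all hp hG hR _ ⊤ rfl a (mem_top a) b (mem_top b)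

end Pool.Agent.PWR
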