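import Pool.Agent.PWR.RM

set_option autoImplicit false

namespace Pool.Agent.PWR

open Subgroup
open scoped commutatorElement

universe u

theorem rb_exists_pow_mul {G : Type u} [Group G] [Finite G] {p : ℕ} (hp : p.Prime)
    (hG : IsPGroup p G) (hR : IsRegular p G) (n : ℕ) : ∀ H : Subgroup G, Nat.card H = n →
    ∀ a b : G, a ∈ H → b ∈ H → ∃ c ∈ H, a ^ p * b ^ p = c ^ p := by
  induction n using Nat.strong_induction_on with
  | _ n ih =>
    intro H hH a b ha hb
    set K : Subgroup G := closure {a, b} with hK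
    have haK : a ∈ K := subset_closure (by simp)
    have hbK : b ∈ K := subset_closure (by simp)
    have hKH : K ≤ H := by
      rw [hK, closure_le]
      rintro x (rfl | rfl)
      · exact ha
      · exact hb
    have hzK : zpowers (a * b) ≤ K := by
      rw [zpowers_le]; exact K.mul_mem haK hbK
    rcases eq_or_lt_of_le hzK with heq | hlt
    · -- `K` is cyclic
      have ha' : a ∈ zpowers (a * b) := by rw [heq]; exact haK
      have hb' : b ∈ zpowers (a * b) := by rw [heq]; exact hbK
      have hcomm : Commute a b := by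
        obtain ⟨i, hi⟩ := mem_zpowers_iff.1 ha'
        obtain ⟨j, hj⟩ := mem_zpowers_iff.1 hb'
        have : Commute ((a * b) ^ i) ((a * b) ^ j) := (Commute.refl (a * b)).zpow_zpow i j
        rwa [hi, hj] at this
      exact ⟨a * b, H.mul_mem ha hb, (hcomm.mul_pow p).symm⟩
    · obtain ⟨M, hzM, hMK, -, hcM⟩ := exists_max hp hG hlt
      have hcard : Nat.card M < n := by
        rw [← hH]
        have h1 : Nat.card M < Nat.card K := by
          have hss : (M : Set G) ⊂ (K : Set G) := hMK
          have := Set.ncard_lt_ncard hss (Set.toFinite _)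
          rwa [← Nat.card_coe_set_eq, ← Nat.card_coe_set_eq] at this
        exact lt_of_lt_of_le h1 (Nat.card_le_card_of_injective (inclusion hKH)
          (inclusion_injective hKH))
      have ihM := ih (Nat.card M) hcard M rfl
      obtain ⟨s, hs, hab⟩ := hR a b
      have key : ∀ z ∈ pths p ⁅K, K⁆, ∃ t ∈ M, t ^ p = z := by
        intro z hz
        unfold pths at hz
        induction hz using closure_induction with
        | mem z hz =>
          obtain ⟨s, hs, rfl⟩ := hz
          exact ⟨s, hcM hs, rfl⟩
        | one => exact ⟨1, M.one_mem, one_pow p⟩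
        | mul x y _ _ hx hy =>
          obtain ⟨t, ht, rfl⟩ := hx
          obtain ⟨r, hr, rfl⟩ := hy
          obtain ⟨c, hc, h⟩ := ihM t r ht hr
          exact ⟨c, hc, h.symm⟩
        | inv x _ hx =>
          obtain ⟨t, ht, rfl⟩ := hx
          exact ⟨t⁻¹, M.inv_mem ht, inv_pow t p⟩
      obtain ⟨t, ht, rfl⟩ := key s hs
      obtain ⟨c, hc, h⟩ := ihM (a * b) t⁻¹ (hzM (mem_zpowers _)) (M.inv_mem ht)
      refine ⟨c, hKH (hMK.le hc), ?_⟩
      rw [← h, hab, inv_pow]
      group

/-- Row RB. -/
theorem exists_pow_mul {G : Type u} [Group G] [Finite G] {p : ℕ} (hp : p.Prime)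
    (hG : IsPGroup p G) (hR : IsRegular p G) (H : Subgroup G) (a b : G) (ha : a ∈ H) (hb : b ∈ H) :
    ∃ c ∈ H, a ^ p * b ^ p = c ^ p :=
  rb_exists_pow_mul hp hG hR (Nat.card H) H rfl a b ha hb

end Pool.Agent.PWR
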