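import Pool.Agent.PWR.Cls

set_option autoImplicit false

namespace Pool.Agent.PWR

open Subgroup
open scoped commutatorElement

universe u

/-- the subgroup generated by the `p`-th powers of the elements of `X` -/
def pths (p : ℕ) {G : Type*} [Group G] (X : Subgroup G) : Subgroup G :=
  closure {z | ∃ s ∈ X, s ^ p = z}

/-- P. Hall's regular `p`-groups: for all `x, y`, `(x y) ^ p` is `x ^ p * y ^ p` times a product of
`p`-th powers of elements of the derived subgroup of the subgroup generated by `x` and `y`. -/
def IsRegular (p : ℕ) (G : Type*) [Group G] : Prop :=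
  ∀ x y : G, ∃ s ∈ pths p ⁅closure {x, y}, closure {x, y}⁆, (x * y) ^ p = x ^ p * y ^ p * s

end Pool.Agent.PWR
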