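import Pool.Agent.PWR.RDefs

set_option autoImplicit false

namespace Pool.Agent.PWR

open Subgroup
open scoped commutatorElement

universe u

theorem rq_map_pths {p : ℕ} {G H : Type*} [Group G] [Group H] (f : G →* H) (X : Subgroup G) :
    (pths p X).map f ≤ pths p (X.map f) := by
  unfold pths
  rw [MonoidHom.map_closure]
  refine closure_mono ?_
  rintro _ ⟨z, ⟨s, hs, rfl⟩, rfl⟩
  exact ⟨f s, mem_map_of_mem f hs, (map_pow f s p).symm⟩

theorem IsRegular.quotient {G : Type u} [Group G] {p : ℕ} (hR : IsRegular p G) (N : Subgroup G)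
    [N.Normal] : IsRegular p (G ⧸ N) := by
  intro x y
  obtain ⟨x, rfl⟩ := QuotientGroup.mk'_surjective N x
  obtain ⟨y, rfl⟩ := QuotientGroup.mk'_surjective N y
  obtain ⟨s, hs, h⟩ := hR x y
  refine ⟨QuotientGroup.mk' N s, ?_, ?_⟩
  · have h1 := rq_map_pths (p := p) (QuotientGroup.mk' N) ⁅closure {x, y}, closure {x, y}⁆
      (mem_map_of_mem (QuotientGroup.mk' N) hs)
    rwa [map_commutator, MonoidHom.map_closure, Set.image_pair] at h1
  · rw [← map_mul, ← map_pow, h, map_mul, map_mul, map_pow, map_pow]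

end Pool.Agent.PWR
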