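import Pool.Agent.PWR.RDefs
import Pool.Agent.PWR.RA
import Pool.Agent.PWR.RQ

set_option autoImplicit false

namespace Pool.Agent.PWR

open Subgroup
open scoped commutatorElement

universe u

/-- the subgroup of the elements `z` with `z ^ p = 1` -/
def ri2_om {G : Type u} [Group G] [Finite G] {p : ℕ} (hp : p.Prime) (hG : IsPGroup p G)
    (hR : IsRegular p G) : Subgroup G where
  carrier := {z | z ^ p = 1}
  one_mem' := one_pow p
  mul_mem' := by
    intro z w hz hw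
    have h := (pow_eq_iff hp hG hR z w⁻¹).1 (by
      rw [inv_pow, show z ^ p = 1 from hz, show w ^ p = 1 from hw, inv_one])
    rw [inv_inv] at h
    exact h
  inv_mem' := by
    intro z hz
    show z⁻¹ ^ p = 1
    rw [inv_pow, show z ^ p = 1 from hz, inv_one]

theorem ri2_aux {p : ℕ} (hp : p.Prime) (j : ℕ) : ∀ (G : Type u) [Group G] [Finite G],
    IsPGroup p G → IsRegular p G → ∀ a b : G,
      (a ^ p ^ j = b ^ p ^ j ↔ (a * b⁻¹) ^ p ^ j = 1) := by
  induction j with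
  | zero =>
    intro G _ _ _ _ a b
    rw [pow_zero, pow_one, pow_one, pow_one, mul_inv_eq_one]
  | succ j ih =>
    intro G _ _ hG hR a b
    let N : Subgroup G := ri2_om hp hG hR
    have hN : ∀ z : G, z ∈ N ↔ z ^ p = 1 := fun z => Iff.rfl
    haveI : N.Normal := ⟨fun n hn g => by
      rw [hN] at hn ⊢
      rw [conj_pow, hn, mul_one, mul_inv_cancel]⟩
    have ihN := ih (G ⧸ N) (hG.to_quotient N) (hR.quotient N) (a : G ⧸ N) (b : G ⧸ N)
    have e1 : ((a : G ⧸ N) ^ p ^ j = (b : G ⧸ N) ^ p ^ j) ↔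
        a ^ p ^ j * (b ^ p ^ j)⁻¹ ∈ N := by
      rw [← QuotientGroup.eq_one_iff, QuotientGroup.mk_mul, QuotientGroup.mk_inv,
        QuotientGroup.mk_pow, QuotientGroup.mk_pow, mul_inv_eq_one]
    have e2 : (((a : G ⧸ N) * (b : G ⧸ N)⁻¹) ^ p ^ j = 1) ↔ (a * b⁻¹) ^ p ^ j ∈ N := by
      rw [← QuotientGroup.eq_one_iff, QuotientGroup.mk_pow, QuotientGroup.mk_mul,
        QuotientGroup.mk_inv]
    rw [pow_succ, pow_mul, pow_mul, pow_mul, pow_eq_iff hp hG hR, ← hN, ← hN, ← e1, ← e2]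
    exact ihN

/-- Row RI2. -/
theorem pow_pow_eq_iff {G : Type u} [Group G] [Finite G] {p : ℕ} (hp : p.Prime)
    (hG : IsPGroup p G) (hR : IsRegular p G) (j : ℕ) (a b : G) :
    a ^ p ^ j = b ^ p ^ j ↔ (a * b⁻¹) ^ p ^ j = 1 :=
  ri2_aux hp j G hG hR a b

end Pool.Agent.PWR
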