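import Pool.Agent.PWR.RI1
import Pool.Agent.PWR.RI2

set_option autoImplicit false

namespace Pool.Agent.PWR

open Subgroup

universe u

/-- in a finite regular `p`-group the elements of order dividing `p ^ j` form a subgroup -/
theorem mem_om_iff {G : Type u} [Group G] [Finite G] {p : ℕ} (hp : p.Prime) (hG : IsPGroup p G)
    (hR : IsRegular p G) (j : ℕ) (x : G) : x ∈ om p G j ↔ x ^ p ^ j = 1 := by
  constructor
  · intro hx
    unfold om at hx
    induction hx using closure_induction with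
    | mem x hx => exact hx
    | one => exact one_pow _
    | mul x y _ _ ihx ihy =>
      have := (pow_pow_eq_iff hp hG hR j x y⁻¹).1 (by rw [ihx, inv_pow, ihy, inv_one])
      simpa using this
    | inv x _ ihx => rw [inv_pow, ihx, inv_one]
  · intro hx
    exact subset_closure hx

theorem regular_card {G : Type u} [Group G] [Finite G] {p : ℕ} (hp : p.Prime)
    (hG : IsPGroup p G) (hR : IsRegular p G) (i j : ℕ) :
    Nat.card ↥(pw p G i ⊓ om p G j) * Nat.card (pw p G (i + j)) = Nat.card (pw p G i) := by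
  have hmem : ∀ x : G, x ∈ pw p G i → (x⁻¹) ^ p ^ j ∈ pw p G (i + j) := by
    intro x hx
    obtain ⟨y, rfl⟩ := (mem_pw_iff hp hG hR i x).1 hx
    refine (mem_pw_iff hp hG hR (i + j) _).2 ⟨y⁻¹, ?_⟩
    rw [pow_add, pow_mul, inv_pow]
  let g : pw p G i → pw p G (i + j) := fun x => ⟨(x.1⁻¹) ^ p ^ j, hmem x.1 x.2⟩
  have hrel : ∀ x y : pw p G i, g x = g y ↔ x⁻¹ * y ∈ (om p G j).subgroupOf (pw p G i) := by
    intro x y
    rw [mem_subgroupOf, mem_om_iff hp hG hR]
    have := pow_pow_eq_iff hp hG hR j (x.1⁻¹) (y.1⁻¹)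
    rw [inv_inv] at this
    rw [Subtype.ext_iff]
    exact this
  have e : (pw p G i ⧸ (om p G j).subgroupOf (pw p G i)) ≃ pw p G (i + j) := by
    refine Equiv.ofBijective (Quotient.lift g ?_) ⟨?_, ?_⟩
    · intro x y hxy
      exact (hrel x y).2 (QuotientGroup.leftRel_apply.1 hxy)
    · intro a b
      induction a using Quotient.inductionOn with
      | _ a =>
      induction b using Quotient.inductionOn with
      | _ b =>
      intro h
      exact Quotient.sound (QuotientGroup.leftRel_apply.2 ((hrel a b).1 h))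
    · rintro ⟨z, hz⟩
      obtain ⟨y, rfl⟩ := (mem_pw_iff hp hG hR (i + j) z).1 hz
      refine ⟨Quotient.mk _ ⟨(y ^ p ^ i)⁻¹, inv_mem ((mem_pw_iff hp hG hR i _).2 ⟨y, rfl⟩)⟩, ?_⟩
      apply Subtype.ext
      show ((y ^ p ^ i)⁻¹⁻¹) ^ p ^ j = y ^ p ^ (i + j)
      rw [inv_inv, pow_add, pow_mul]
  have h1 := card_eq_card_quotient_mul_card_subgroup ((om p G j).subgroupOf (pw p G i))
  rw [Nat.card_congr e] at h1
  have h2 : Nat.card ((om p G j).subgroupOf (pw p G i)) = Nat.card ↥(pw p G i ⊓ om p G j) := by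
    rw [← inf_subgroupOf_left]
    exact Nat.card_congr (subgroupOfEquivOfLe inf_le_left).toEquiv
  rw [h1, h2, mul_comm]

end Pool.Agent.PWR
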