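import Pool.Agent.PWR.RI1
import Pool.Agent.PWR.RI2
import Pool.Agent.PWR.RQ

set_option autoImplicit false

namespace Pool.Agent.PWR

open Subgroup
open scoped commutatorElement

universe u

theorem regular_comm {G : Type u} [Group G] [Finite G] {p : ℕ} (hp : p.Prime)
    (hG : IsPGroup p G) (hR : IsRegular p G) (i j : ℕ) :
    ⁅pw p G i, pw p G j⁆ ≤ pw p G (i + j) := by
  rw [commutator_le]
  intro g1 h1 g2 h2
  obtain ⟨x, rfl⟩ := (mem_pw_iff hp hG hR i g1).1 h1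
  obtain ⟨y, rfl⟩ := (mem_pw_iff hp hG hR j g2).1 h2
  have hRQ : IsRegular p (G ⧸ pw p G (i + j)) := IsRegular.quotient hR _
  have hGQ : IsPGroup p (G ⧸ pw p G (i + j)) := hG.to_quotient _
  have hexp : ∀ z : G ⧸ pw p G (i + j), z ^ p ^ (i + j) = 1 := by
    intro z
    obtain ⟨g, rfl⟩ := QuotientGroup.mk_surjective z
    rw [← QuotientGroup.mk_pow, QuotientGroup.eq_one_iff]
    exact subset_closure ⟨g, rfl⟩
  obtain ⟨X, hX⟩ : ∃ X : G ⧸ pw p G (i + j), X = QuotientGroup.mk x := ⟨_, rfl⟩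
  obtain ⟨Y, hY⟩ : ∃ Y : G ⧸ pw p G (i + j), Y = QuotientGroup.mk y := ⟨_, rfl⟩
  rw [← QuotientGroup.eq_one_iff]
  have e1 : ((⁅x ^ p ^ i, y ^ p ^ j⁆ : G) : G ⧸ pw p G (i + j)) =
      ⁅X ^ p ^ i, Y ^ p ^ j⁆ := by
    rw [hX, hY]
    simp [commutatorElement_def]
  rw [e1, commutatorElement_def, mul_inv_eq_one]
  have hmem : X ^ p ^ i * Y * (X ^ p ^ i)⁻¹ * Y⁻¹ ∈ pw p (G ⧸ pw p G (i + j)) i := by
    have e2 : X ^ p ^ i * Y * (X ^ p ^ i)⁻¹ * Y⁻¹ = X ^ p ^ i * (Y * X * Y⁻¹)⁻¹ ^ p ^ i := by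
      rw [inv_pow, conj_pow]
      group
    rw [e2]
    exact mul_mem (subset_closure ⟨X, rfl⟩) (subset_closure ⟨_, rfl⟩)
  obtain ⟨w, hw⟩ := (mem_pw_iff hp hGQ hRQ i _).1 hmem
  have h3 : (X ^ p ^ i * Y * (X ^ p ^ i)⁻¹ * Y⁻¹) ^ p ^ j = 1 := by
    rw [← hw, ← pow_mul, ← pow_add]
    exact hexp w
  have h4 := (pow_pow_eq_iff hp hGQ hRQ j (X ^ p ^ i * Y * (X ^ p ^ i)⁻¹) Y).2 h3
  rw [conj_pow] at h4
  rw [h4]

end Pool.Agent.PWR
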