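import Pool.Agent.PWR.RF
import Pool.Agent.PWR.RG
import Pool.Agent.PWR.RQ

set_option autoImplicit false

namespace Pool.Agent.PWR

open Subgroup
open scoped commutatorElement

universe u

theorem IsRegular.powerRegular {G : Type u} [Group G] [Finite G] {p : ℕ} (hp : p.Prime)
    (hG : IsPGroup p G) (hR : IsRegular p G) : PowerRegular p G :=
  ⟨fun i j _ _ => regular_comm hp hG hR i j, fun i j _ _ => regular_card hp hG hR i j⟩

/-- groups of exponent dividing `p` are regular -/
theorem isRegular_of_exponent {G : Type u} [Group G] {p : ℕ} (h : ∀ x : G, x ^ p = 1) :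
    IsRegular p G := by
  intro x y
  exact ⟨1, one_mem _, by simp [h]⟩

/-- Q1 for finite regular `p`-groups is Q1 for finite groups of prime exponent. -/
theorem final_regular :
    (∃ c : ℝ, ∀ (G : Type u) [Group G] [Finite G] (p : ℕ), p.Prime → IsPGroup p G →
      IsRegular p G → Nontrivial G → HasAbSection G fun n => (Nat.card G : ℝ) < (n : ℝ) ^ c) ↔
    (∃ c : ℝ, ∀ (G : Type u) [Group G] [Finite G] (p : ℕ), p.Prime → (∀ x : G, x ^ p = 1) →
      Nontrivial G → HasAbSection G fun n => (Nat.card G : ℝ) < (n : ℝ) ^ c) := by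
  constructor
  · rintro ⟨c, h⟩
    refine ⟨c, fun G _ _ p hp hx hn => h G p hp (fun g => ⟨1, by simpa using hx g⟩)
      (isRegular_of_exponent hx) hn⟩
  · rintro ⟨c, h⟩
    have key := (final_four
      (fun (G : Type u) [Group G] => Finite G ∧ ∃ p : ℕ, p.Prime ∧ IsPGroup p G ∧ IsRegular p G)
      (by
        rintro G _ ⟨hf, p, hp, hpG, hR⟩
        exact ⟨hf, p, hp, hpG, IsRegular.powerRegular hp hpG hR, inferInstance, p, hp,
          hpG.to_quotient _, hR.quotient _⟩)).2
      ⟨c, by
        rintro G _ ⟨hf, _⟩ hn ⟨q, hq, hx⟩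
        exact h G q hq hx hn⟩
    obtain ⟨c', h'⟩ := key
    exact ⟨c', fun G _ hf p hp hpG hR hn => h' G ⟨hf, p, hp, hpG, hR⟩ hn⟩

end Pool.Agent.PWR
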