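import Pool.Agent.PWR.RB

set_option autoImplicit false

namespace Pool.Agent.PWR

open Subgroup

universe u

/-- in a finite regular `p`-group the `p ^ i`-th powers form a subgroup -/
theorem mem_pw_iff {G : Type u} [Group G] [Finite G] {p : ℕ} (hp : p.Prime) (hG : IsPGroup p G)
    (hR : IsRegular p G) (i : ℕ) (x : G) : x ∈ pw p G i ↔ ∃ y : G, y ^ p ^ i = x := by
  constructor
  · induction i generalizing x with
    | zero => intro _; exact ⟨x, by simp⟩
    | succ i ih =>
      intro hx
      unfold pw at hx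
      induction hx using closure_induction with
      | mem x hx => simpa using hx
      | one => exact ⟨1, by simp⟩
      | mul x y _ _ ihx ihy =>
        obtain ⟨u, rfl⟩ := ihx
        obtain ⟨v, rfl⟩ := ihy
        have hu : u ^ p ^ i ∈ pw p G i := subset_closure ⟨u, rfl⟩
        have hv : v ^ p ^ i ∈ pw p G i := subset_closure ⟨v, rfl⟩
        obtain ⟨c, hc, hcc⟩ := exists_pow_mul hp hG hR (pw p G i) _ _ hu hv
        obtain ⟨z, rfl⟩ := ih c hc
        exact ⟨z, by rw [pow_succ, pow_mul, ← hcc, pow_mul, pow_mul]⟩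
      | inv x _ ihx =>
        obtain ⟨u, rfl⟩ := ihx
        exact ⟨u⁻¹, by rw [inv_pow]⟩
  · rintro ⟨y, rfl⟩
    exact subset_closure ⟨y, rfl⟩

end Pool.Agent.PWR
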