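import Pool.Agent.PWR.RDefs

set_option autoImplicit false

namespace Pool.Agent.PWR

open Subgroup
open scoped commutatorElement

universe u

/-- Row RM. -/
theorem exists_max {G : Type u} [Group G] [Finite G] {p : ℕ} (hp : p.Prime) (hG : IsPGroup p G)
    {A H : Subgroup G} (hA : A < H) :
    ∃ M : Subgroup G, A ≤ M ∧ M < H ∧ (∀ h ∈ H, ∀ m ∈ M, h * m * h⁻¹ ∈ M) ∧ ⁅H, H⁆ ≤ M := by
  have : Fact p.Prime := ⟨hp⟩
  have hH : IsPGroup p H := hG.to_subgroup H
  obtain ⟨n, hn⟩ := IsPGroup.iff_card.1 hH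
  obtain ⟨k, hk⟩ := IsPGroup.iff_card.1 (hH.to_subgroup (A.subgroupOf H))
  have hne : A.subgroupOf H ≠ ⊤ := fun h => hA.not_ge (Subgroup.subgroupOf_eq_top.1 h)
  have hkn : k < n := by
    by_contra hcon
    push Not at hcon
    refine hne ?_
    refine Subgroup.eq_top_of_le_card _ ?_
    rw [hn, hk]
    exact Nat.pow_le_pow_right hp.pos hcon
  obtain ⟨M, hM, hAM⟩ := Sylow.exists_subgroup_card_pow_prime_le (G := H) p (n := k) (m := n - 1)
    (by rw [hn]; exact pow_dvd_pow p (Nat.sub_le n 1)) (A.subgroupOf H) hk (by omega)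
  have hidx : M.index = p := by
    have h1 := M.card_mul_index
    rw [hM, hn] at h1
    have h2 : p ^ n = p ^ (n - 1) * p := by
      rw [← pow_succ]
      congr 1
      omega
    rw [h2] at h1
    exact Nat.eq_of_mul_eq_mul_left (Nat.pow_pos hp.pos) h1
  have hmf : M.index = (Nat.card H).minFac := by
    rw [hidx, hn, hp.pow_minFac (by omega)]
  have hMn : M.Normal := Subgroup.normal_of_index_eq_minFac_card hmf
  have hcomm : _root_.commutator H ≤ M := by
    rw [← Subgroup.Normal.quotient_commutative_iff_commutator_le]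
    have hc : Nat.card (H ⧸ M) = p := hidx
    have : IsCyclic (H ⧸ M) := isCyclic_of_prime_card hc
    exact ⟨⟨fun a b => (IsCyclic.commGroup (α := H ⧸ M)).mul_comm a b⟩⟩
  have hMt : M ≠ ⊤ := by
    intro h
    rw [h, Subgroup.index_top] at hidx
    exact hp.one_lt.ne hidx
  refine ⟨M.map H.subtype, ?_, ?_, ?_, ?_⟩
  · intro a ha
    exact ⟨⟨a, hA.le ha⟩, hAM ha, rfl⟩
  · refine lt_of_le_of_ne (Subgroup.map_subtype_le M) fun h => hMt ?_
    rw [eq_top_iff]
    intro x _
    have hx : (x : G) ∈ M.map H.subtype := by rw [h]; exact x.2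
    obtain ⟨y, hy, hyx⟩ := hx
    have : y = x := Subtype.ext hyx
    rwa [← this]
  · rintro h hh _ ⟨m, hm, rfl⟩
    exact ⟨⟨h, hh⟩ * m * ⟨h, hh⟩⁻¹, hMn.conj_mem m hm ⟨h, hh⟩, rfl⟩
  · rw [← Subgroup.map_subtype_commutator]
    exact Subgroup.map_mono hcomm

end Pool.Agent.PWR
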