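import Pool.Agent.PWR.PDefs

set_option autoImplicit false

namespace Pool.Agent.PWR

open Subgroup
open scoped commutatorElement

universe u

/-- `G` is powerful, for `2`-groups: the commutators lie in the subgroup generated by the fourth
powers -/
def Powerful2 (G : Type*) [Group G] : Prop :=
  commutator G ≤ pw 2 G 2

/-- the statement of the induction for `2`-groups -/
structure KT (G : Type*) [Group G] : Prop where
  k1 : ∀ x y : G, x ^ 2 ^ 2 = 1 → y ^ 2 = 1 → Commute (x ^ 2) y
  k2 : ∀ x y : G, x ^ 2 ^ 3 = 1 → y ^ 2 ^ 2 = 1 → Commute (x ^ 2 ^ 2) y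

/-- the subgroup generated by the elements of `Q_1` of order dividing `2 ^ j` -/
def omq (G : Type*) [Group G] (j : ℕ) : Subgroup G :=
  closure {x | x ∈ qs 2 G 1 ∧ x ^ 2 ^ j = 1}

end Pool.Agent.PWR
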